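import Mathlib

/-! Numbers of points and eigenvalues of Frobenius. -/

set_option autoImplicit false

namespace Pool.Agent.E8helper25.LT

open Polynomial

theorem roots_prod {M : ℕ} (α : Fin M → ℂ) :
    (∏ j, (X - C (α j)) : ℂ[X]).roots = Finset.univ.val.map α := by
  have h1 : (∏ j, (X - C (α j)) : ℂ[X]) = ((Finset.univ.val.map α).map fun z : ℂ => X - C z).prod := by
    rw [Multiset.map_map]
    rfl
  rw [h1]
  exact Polynomial.roots_multiset_prod_X_sub_C _

/-- the multiset of the eigenvalues is stable under complex conjugation -/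
theorem conj_stable {M : ℕ} {α : Fin M → ℂ}
    (hP : ∃ P : ℤ[X], P.map (Int.castRingHom ℂ) = ∏ j, (X - C (α j))) :
    Finset.univ.val.map (fun j => (starRingEnd ℂ) (α j)) = Finset.univ.val.map α := by
  obtain ⟨P, hP⟩ := hP
  have hconj : ((P.map (Int.castRingHom ℂ)).map (starRingEnd ℂ)) = P.map (Int.castRingHom ℂ) := by
    rw [Polynomial.map_map]
    congr 1
    exact RingHom.ext_int _ _
  rw [← roots_prod, ← roots_prod, ← hP, ← hconj, hP, Polynomial.map_prod]
  congr 1
  refine Finset.prod_congr rfl fun j _ => ?_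
  rw [Polynomial.map_sub, Polynomial.map_X, Polynomial.map_C]

/-- the power sums are real -/
theorem psum_real {M : ℕ} {α : Fin M → ℂ}
    (hP : ∃ P : ℤ[X], P.map (Int.castRingHom ℂ) = ∏ j, (X - C (α j))) (k : ℕ) :
    (∑ j, α j ^ k).im = 0 := by
  have h4 : ∀ β : Fin M → ℂ, ∑ j, β j ^ k =
      ((Finset.univ.val.map β).map fun z => z ^ k).sum := by
    intro β
    rw [Multiset.map_map]
    rfl
  have h5 : (starRingEnd ℂ) (∑ j, α j ^ k) = ∑ j, α j ^ k := by
    rw [map_sum]
    simp only [map_pow]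
    rw [h4 α, h4 fun j => (starRingEnd ℂ) (α j), conj_stable hP]
  exact Complex.conj_eq_iff_im.1 h5

/-- the local identity at the central point -/
theorem re_log_points {M : ℕ} {α : Fin M → ℂ} {q : ℝ} (hq : 1 < q) (hα : ∀ j, ‖α j‖ = √q)
    {A : ℝ} (hA : 0 ≤ A) (hN : (A : ℂ) = ∏ j, (1 - α j)) :
    (∑ j, Complex.log (1 - α j / q)).re = Real.log (A / √q ^ M) ∧ 0 < A := by
  have hq0 : (0 : ℝ) < q := by linarith
  have hsq0 : 0 < √q := Real.sqrt_pos.2 hq0
  have hsq : √q < q := by
    rw [Real.sqrt_lt' (by linarith)]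
    nlinarith
  have hsq1 : 1 < √q := by
    rw [Real.lt_sqrt (by norm_num)]
    linarith
  set Lg := ∑ j, Complex.log (1 - α j / q) with hLg
  have hne : ∀ j, 1 - α j / q ≠ 0 := by
    intro j h0
    have h1 : α j / q = 1 := (sub_eq_zero.1 h0).symm
    have h2 : ‖α j / q‖ = 1 := by rw [h1, norm_one]
    rw [norm_div, Complex.norm_real, Real.norm_of_nonneg hq0.le, hα j, div_eq_one_iff_eq hq0.ne'] at h2
    linarith
  have hexp : Complex.exp Lg = ∏ j, (1 - α j / q) := by
    rw [hLg, Complex.exp_sum]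
    exact Finset.prod_congr rfl fun j _ => Complex.exp_log (hne j)
  have hterm : ∀ j, ‖1 - α j / q‖ = ‖1 - α j‖ / √q := by
    intro j
    have h1 : α j * (starRingEnd ℂ) (α j) = q := by
      rw [Complex.mul_conj, Complex.normSq_eq_norm_sq, hα j, Real.sq_sqrt hq0.le]
    have h2 : ‖(starRingEnd ℂ) (α j)‖ = √q := by rw [RCLike.norm_conj, hα j]
    have h3 : (1 - α j / q) * (starRingEnd ℂ) (α j) = -(starRingEnd ℂ) (1 - α j) := by
      have hqc : (q : ℂ) ≠ 0 := by exact_mod_cast hq0.ne'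
      rw [map_sub, map_one, sub_mul, one_mul, div_mul_eq_mul_div, h1, div_self hqc]
      ring
    have h4 := congrArg norm h3
    rw [norm_mul, h2, norm_neg, RCLike.norm_conj] at h4
    rw [← h4]
    field_simp
  have hnorm : ‖Complex.exp Lg‖ = A / √q ^ M := by
    rw [hexp, norm_prod]
    simp_rw [hterm]
    rw [Finset.prod_div_distrib, ← norm_prod, ← hN, Complex.norm_real, Real.norm_of_nonneg hA,
      Finset.prod_const, Finset.card_univ, Fintype.card_fin]
  refine ⟨by rw [← hnorm, Complex.norm_exp, Real.log_exp], ?_⟩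
  refine lt_of_le_of_ne hA fun h0 => ?_
  rw [← h0, Complex.ofReal_zero] at hN
  obtain ⟨j, -, hj⟩ := Finset.prod_eq_zero_iff.1 hN.symm
  have h1 : α j = 1 := (sub_eq_zero.1 hj).symm
  have h2 := hα j
  rw [h1, norm_one] at h2
  linarith

end Pool.Agent.E8helper25.LT
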