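import Pool.Agent.E8helper25.LT.QCrit
import Pool.Agent.E8helper25.LT.Pts
import Pool.Agent.TH958.BV.Defs

/-! Abelian varieties over `ℚ`: the terms of the rotated products from the numbers of points. -/

set_option autoImplicit false

namespace Pool.Agent.E8helper25.LT

open Complex MeasureTheory Filter Topology Set Asymptotics
open Pool.Agent.W189.ML Pool.Agent.W189.LC Pool.Agent.W187.S2
open Pool.Agent.W187.UR (Lam)

variable {g : ℕ} {S : Finset Nat.Primes} {α : Nat.Primes → Fin (2 * g) → ℂ}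

/-- `P p e` is the number of points over the field with `p^e` elements -/
def Pt (S : Finset Nat.Primes) (α : Nat.Primes → Fin (2 * g) → ℂ) (P : Nat.Primes → ℕ → ℝ) : Prop :=
  ∀ p ∉ S, (∃ f : Polynomial ℤ, f.map (Int.castRingHom ℂ) =
      ∏ j, (Polynomial.X - Polynomial.C (α p j))) ∧
    (∀ j, ‖α p j‖ = √((p : ℕ) : ℝ)) ∧ ∀ e : ℕ, e ≠ 0 → 0 ≤ P p e ∧ (P p e : ℂ) = ∏ j, (1 - α p j ^ e)

/-- the term of the rotated product of the extension by a torus of rank `r` -/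
noncomputable def tm (S : Finset Nat.Primes) (g : ℕ) (P : Nat.Primes → ℕ → ℝ) (r : ℕ) (c T : ℝ)
    (p : Nat.Primes) : ℂ :=
  open Classical in
  if p ∈ S then 0 else
    kk c (Real.log ((p : ℕ) : ℝ) / T) *
        Real.log (P p 1 * (((p : ℕ) : ℝ) - 1) ^ r / ((p : ℕ) : ℝ) ^ (g + r)) +
      (kk c (2 * (Real.log ((p : ℕ) : ℝ) / T)) - kk c (Real.log ((p : ℕ) : ℝ) / T)) / 2 *
        Real.log (P p 2 * ((((p : ℕ) : ℝ) ^ 2) - 1) ^ r / (((p : ℕ) : ℝ) ^ 2) ^ (g + r))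

variable {P : Nat.Primes → ℕ → ℝ}

theorem Pt.par (h : Pt S α P) : Par S α := fun p hp =>
  ⟨fun j => ((h p hp).2.1 j).le, psum_real (h p hp).1⟩

theorem tm_l1 (h : Pt S α P) (r : ℕ) {p : Nat.Primes} (hp : p ∉ S) : l1 (bt S α r) p =
    Real.log (P p 1 * (((p : ℕ) : ℝ) - 1) ^ r / ((p : ℕ) : ℝ) ^ (g + r)) := by
  obtain ⟨-, h1, h2⟩ := h p hp
  have hp1 : (1 : ℝ) < ((p : ℕ) : ℝ) := by exact_mod_cast p.2.one_lt
  obtain ⟨hA, hN⟩ := h2 1 one_ne_zero
  simp only [pow_one] at hN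
  obtain ⟨e1, e2⟩ := re_log_points hp1 h1 hA hN
  rw [pow_mul, Real.sq_sqrt (by linarith)] at e1
  have hp0 : 0 < ((p : ℕ) : ℝ) := by linarith
  unfold l1 bt
  rw [Fin.sum_univ_add]
  simp only [Fin.append_left, Fin.append_right, Finset.sum_const, Finset.card_univ,
    Fintype.card_fin, nsmul_eq_mul]
  have e3 : ∑ j, log (1 - bA S α p j) = ∑ j, log (1 - α p j / (((p : ℕ) : ℝ) : ℂ)) := by
    refine Finset.sum_congr rfl fun j _ => ?_
    unfold bA
    rw [if_neg hp, Complex.ofReal_natCast]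
  have e4 : log (1 - bZ S p) = ((Real.log ((((p : ℕ) : ℝ) - 1) / ((p : ℕ) : ℝ)) : ℝ) : ℂ) := by
    unfold bZ
    rw [if_neg hp, Complex.ofReal_log (by
      apply div_nonneg <;> linarith)]
    congr 1
    push_cast
    have : ((p : ℕ) : ℂ) ≠ 0 := by exact_mod_cast p.2.ne_zero
    field_simp
  rw [e3, e4, Complex.add_re, e1, ← Complex.ofReal_natCast, ← Complex.ofReal_mul, Complex.ofReal_re,
    ← Real.log_pow, ← Real.log_mul (by positivity) (by
      have : 0 < (((p : ℕ) : ℝ) - 1) / ((p : ℕ) : ℝ) := div_pos (by linarith) hp0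
      positivity)]
  congr 1
  rw [div_pow, pow_add]
  field_simp

theorem tm_l2 (h : Pt S α P) (r : ℕ) {p : Nat.Primes} (hp : p ∉ S) : l2 (bt S α r) p =
    Real.log (P p 2 * ((((p : ℕ) : ℝ) ^ 2) - 1) ^ r / (((p : ℕ) : ℝ) ^ 2) ^ (g + r)) := by
  obtain ⟨-, h1, h2⟩ := h p hp
  have hp1 : (1 : ℝ) < ((p : ℕ) : ℝ) := by exact_mod_cast p.2.one_lt
  have hp0 : 0 < ((p : ℕ) : ℝ) := by linarith
  have hpp : (1 : ℝ) < ((p : ℕ) : ℝ) ^ 2 := by nlinarith
  obtain ⟨hA, hN⟩ := h2 2 two_ne_zero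
  have h3 : ∀ j, ‖α p j ^ 2‖ = √(((p : ℕ) : ℝ) ^ 2) := fun j => by
    rw [norm_pow, h1 j, Real.sq_sqrt hp0.le, Real.sqrt_sq hp0.le]
  obtain ⟨e1, e2⟩ := re_log_points hpp h3 hA hN
  rw [Real.sqrt_sq hp0.le] at e1
  unfold l2 bt
  rw [Fin.sum_univ_add]
  simp only [Fin.append_left, Fin.append_right, Finset.sum_const, Finset.card_univ,
    Fintype.card_fin, nsmul_eq_mul]
  have e3 : ∑ j, log (1 - bA S α p j ^ 2) =
      ∑ j, log (1 - α p j ^ 2 / ((((p : ℕ) : ℝ) ^ 2 : ℝ) : ℂ)) := by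
    refine Finset.sum_congr rfl fun j _ => ?_
    unfold bA
    rw [if_neg hp, div_pow]
    push_cast
    rfl
  have hpos : 0 < (((p : ℕ) : ℝ) ^ 2 - 1) / ((p : ℕ) : ℝ) ^ 2 := div_pos (by linarith) (by positivity)
  have e4 : log (1 - bZ S p ^ 2) =
      ((Real.log ((((p : ℕ) : ℝ) ^ 2 - 1) / ((p : ℕ) : ℝ) ^ 2) : ℝ) : ℂ) := by
    unfold bZ
    rw [if_neg hp, Complex.ofReal_log hpos.le]
    congr 1
    push_cast
    have : ((p : ℕ) : ℂ) ≠ 0 := by exact_mod_cast p.2.ne_zero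
    field_simp
  rw [e3, e4, Complex.add_re, e1, ← Complex.ofReal_natCast, ← Complex.ofReal_mul, Complex.ofReal_re,
    ← Real.log_pow, ← Real.log_mul (by positivity) (by positivity)]
  congr 1
  rw [div_pow, pow_add]
  field_simp
  ring

theorem tm_eq (h : Pt S α P) (r : ℕ) (c T : ℝ) (p : Nat.Primes) :
    tm S g P r c T p = wt qp (bt S α r) c T p := by
  unfold tm wt
  by_cases hp : p ∈ S
  · rw [if_pos hp]
    have e1 : l1 (bt S α r) p = 0 := by
      unfold l1 bt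
      rw [Fin.sum_univ_add]
      simp only [Fin.append_left, Fin.append_right]
      unfold bA bZ
      simp [hp]
    have e2 : l2 (bt S α r) p = 0 := by
      unfold l2 bt
      rw [Fin.sum_univ_add]
      simp only [Fin.append_left, Fin.append_right]
      unfold bA bZ
      simp [hp]
    rw [e1, e2]
    simp
  · rw [if_neg hp, tm_l1 h r hp, tm_l2 h r hp]
    rfl

theorem tm_summ (h : Pt S α P) (r : ℕ) (c : ℝ) {T : ℝ} (hT : 0 < T) :
    Summable fun p => ‖tm S g P r c T p‖ := by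
  simp only [tm_eq h]
  exact (lpQ h.par r).wt_summ c hT

theorem tm_sum (h : Pt S α P) (r : ℕ) (c T : ℝ) :
    ∑' p, tm S g P r c T p = WW qp (bt S α r) c T := by
  unfold WW
  exact tsum_congr fun p => tm_eq h r c T p

/-- the coefficients -/
theorem LFn_coeff (h : Par S α) : ∃ a : ℕ → ℂ, ∀ s : ℂ, 3 / 2 < s.re →
    LSeriesHasSum a s (LFn S α s) := by
  classical
  obtain ⟨a, ha⟩ := exists_coeff (fun p j => if hp : p.Prime then
    (if (⟨p, hp⟩ : Nat.Primes) ∈ S then 0 else α ⟨p, hp⟩ j) else 0) (fun p hp j => by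
      rw [dif_pos hp]
      split_ifs with h1
      · rw [norm_zero]; exact Real.sqrt_nonneg _
      · exact (h _ h1).1 j)
  refine ⟨a, fun s hs => ?_⟩
  have h1 := ha s hs
  have h2 : (∏' p : Nat.Primes, ∏ j, (1 - (if hp : (p : ℕ).Prime then
      (if (⟨p, hp⟩ : Nat.Primes) ∈ S then 0 else α ⟨p, hp⟩ j) else 0) * ((p : ℕ) : ℂ) ^ (-s))⁻¹) =
      LFn S α s := by
    unfold LFn
    refine tprod_congr fun p => ?_
    have hp := p.2
    by_cases h3 : p ∈ S
    · rw [if_pos h3]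
      refine Finset.prod_eq_one fun j _ => ?_
      rw [dif_pos hp, if_pos (show (⟨(p : ℕ), hp⟩ : Nat.Primes) ∈ S from h3)]
      simp
    · rw [if_neg h3]
      refine Finset.prod_congr rfl fun j _ => ?_
      rw [dif_pos hp, if_neg (show (⟨(p : ℕ), hp⟩ : Nat.Primes) ∉ S from h3)]
      rfl
  rw [← h2]
  exact h1

/-- continuation from the segment `[1, 3/2]` to `[1, 2]` -/
theorem extend (h : Par S α) {F : ℂ → ℂ} (hFL : ∀ s : ℂ, 3 / 2 < s.re → F s = LFn S α s) {x : ℝ}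
    (hx : 3 / 2 < x) : AnalyticAt ℂ F x := by
  obtain ⟨a, ha⟩ := LFn_coeff h
  have hopen : IsOpen {z : ℂ | 3 / 2 < z.re} := isOpen_lt continuous_const Complex.continuous_re
  have h1 : F =ᶠ[𝓝 (x : ℂ)] LSeries a := by
    filter_upwards [hopen.mem_nhds (show (3 / 2 : ℝ) < (x : ℂ).re by simpa using hx)] with z hz
    rw [hFL z hz, (ha z hz).LSeries_eq]
  refine AnalyticAt.congr ?_ h1.symm
  refine LSeries_analyticOnNhd a _ ?_
  have h2 : LSeries.abscissaOfAbsConv a ≤ ((3 / 2 : ℝ) : EReal) :=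
    LSeries.abscissaOfAbsConv_le_of_forall_lt_LSeriesSummable fun y hy =>
      (ha y (by rw [Complex.ofReal_re]; linarith)).LSeriesSummable
  refine lt_of_le_of_lt h2 ?_
  rw [Complex.ofReal_re]
  exact_mod_cast hx

/-- bounded sums and continuation -/
theorem bdd_iff (h : Par S α) {a : ℕ → ℂ} (ha : ∀ s : ℂ, 3 / 2 < s.re →
    LSeriesHasSum a s (LFn S α s)) :
    Bdd a ↔ ∃ F : ℂ → ℂ, (∀ x ∈ Icc (1 : ℝ) (3 / 2), AnalyticAt ℂ F x) ∧
      ∀ s : ℂ, 3 / 2 < s.re → F s = LFn S α s := by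
  have hs : ∀ s : ℂ, 3 / 2 < s.re → LSeriesSummable a s := fun s hs => (ha s hs).LSeriesSummable
  constructor
  · intro hb
    obtain ⟨F, h1, h2⟩ := cont_of_bdd hs (by norm_num) hb
    refine ⟨F, fun x hx => h1 x ⟨hx.1, by linarith [hx.2]⟩, fun s hs' => ?_⟩
    rw [h2 s (by rw [max_eq_left (by norm_num : (0 : ℝ) ≤ 3 / 2)]; exact hs'), (ha s hs').LSeries_eq]
  · rintro ⟨F, h1, h2⟩
    refine bdd_of_cont hs (by norm_num) (F := F) (fun x hx => ?_) fun s hs' => ?_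
    · by_cases h3 : x ≤ 3 / 2
      · exact h1 x ⟨hx.1, h3⟩
      · exact extend h h2 (by push Not at h3; exact h3)
    · rw [h2 s hs', (ha s hs').LSeries_eq]

end Pool.Agent.E8helper25.LT
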