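import Mathlib

/-! The Dirichlet coefficients of an Euler product. -/

set_option autoImplicit false

namespace Pool.Agent.E8helper25.LT

open Complex Filter Topology Set

/-- the completely multiplicative function with given values at the primes -/
noncomputable def cm (f : ℕ → ℂ) : ℕ →*₀ ℂ where
  toFun n := if n = 0 then 0 else n.factorization.prod fun p k => f p ^ k
  map_zero' := by simp
  map_one' := by simp
  map_mul' m n := by
    by_cases hm : m = 0
    · simp [hm]
    by_cases hn : n = 0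
    · simp [hn]
    rw [if_neg (mul_ne_zero hm hn), if_neg hm, if_neg hn, Nat.factorization_mul hm hn,
      Finsupp.prod_add_index']
    · intro p; exact pow_zero _
    · intro p a b; exact pow_add _ _ _

theorem cm_prime (f : ℕ → ℂ) {p : ℕ} (hp : p.Prime) : cm f p = f p := by
  show (if p = 0 then 0 else p.factorization.prod fun p k => f p ^ k) = f p
  rw [if_neg hp.ne_zero, hp.factorization,
    Finsupp.prod_single_index (h := fun p k => f p ^ k) (pow_zero _), pow_one]

theorem cm_le {f : ℕ → ℂ} (hf : ∀ p : ℕ, p.Prime → ‖f p‖ ≤ √p) (n : ℕ) : ‖cm f n‖ ≤ √n := by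
  induction n using Nat.recOnMul with
  | zero => simp
  | one => simp
  | prime p hp => rw [cm_prime f hp]; exact hf p hp
  | mul a b ha hb =>
    rw [map_mul, norm_mul, Nat.cast_mul, Real.sqrt_mul (Nat.cast_nonneg a)]
    exact mul_le_mul ha hb (norm_nonneg _) (Real.sqrt_nonneg _)

theorem cm_hasSum {f : ℕ → ℂ} (hf : ∀ p : ℕ, p.Prime → ‖f p‖ ≤ √p) {s : ℂ} (hs : 3 / 2 < s.re) :
    LSeriesHasSum (cm f) s (∏' p : Nat.Primes, (1 - f p * (p : ℂ) ^ (-s))⁻¹) ∧
      Multipliable fun p : Nat.Primes => (1 - f p * (p : ℂ) ^ (-s))⁻¹ := by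
  have hs0 : s ≠ 0 := by
    rintro rfl
    simp at hs
    norm_num at hs
  set g : ℕ →*₀ ℂ := {
    toFun := fun n => cm f n * (n : ℂ) ^ (-s)
    map_zero' := by simp
    map_one' := by simp
    map_mul' := fun m n => by
      rw [map_mul]
      have h1 : ((m * n : ℕ) : ℂ) ^ (-s) = (m : ℂ) ^ (-s) * (n : ℂ) ^ (-s) := by
        push_cast
        simpa only [ofReal_natCast] using mul_cpow_ofReal_nonneg m.cast_nonneg n.cast_nonneg (-s)
      rw [h1]
      ring } with hg
  have hgn : ∀ n, g n = cm f n * (n : ℂ) ^ (-s) := fun n => rfl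
  have hgt : ∀ n, g n = LSeries.term (cm f) s n := by
    intro n
    rcases Nat.eq_zero_or_pos n with rfl | hn
    · simp
    · rw [LSeries.term_of_ne_zero hn.ne', hgn, Complex.cpow_neg, div_eq_mul_inv]
  have hsum : Summable (fun n => ‖g n‖) := by
    have h1 : LSeriesSummable (cm f) s := by
      refine LSeriesSummable_of_le_const_mul_rpow (x := 3 / 2) hs ⟨1, fun n hn => ?_⟩
      rw [one_mul]
      refine (cm_le hf n).trans (le_of_eq ?_)
      rw [Real.sqrt_eq_rpow]
      norm_num
    refine h1.norm.congr fun n => ?_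
    rw [hgt]
  have hprod := EulerProduct.eulerProduct_completely_multiplicative_hasProd hsum
  have hfac : ∀ p : Nat.Primes, (1 - g p)⁻¹ = (1 - f p * (p : ℂ) ^ (-s))⁻¹ := by
    intro p
    rw [hgn, cm_prime f p.2]
  simp only [hfac] at hprod
  refine ⟨?_, hprod.multipliable⟩
  rw [hprod.tprod_eq]
  have h2 : HasSum (fun n => g n) (∑' n, g n) := hsum.of_norm.hasSum
  have h3 : (fun n => g n) = LSeries.term (cm f) s := funext hgt
  rw [h3] at h2
  have h4 : (∑' n, g n) = ∑' n, LSeries.term (cm f) s n := tsum_congr hgt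
  rw [h4]
  exact h2

theorem delta_hasSum (s : ℂ) : LSeriesHasSum LSeries.delta s 1 := by
  have h := hasSum_ite_eq (1 : ℕ) (1 : ℂ)
  unfold LSeriesHasSum
  convert h using 1
  funext n
  exact LSeries.term_delta s n

/-- existence of the Dirichlet coefficients -/
theorem exists_coeff {N : ℕ} (α : ℕ → Fin N → ℂ)
    (hα : ∀ p : ℕ, p.Prime → ∀ j, ‖α p j‖ ≤ √p) :
    ∃ a : ℕ → ℂ, ∀ s : ℂ, 3 / 2 < s.re →
      LSeriesHasSum a s (∏' p : Nat.Primes, ∏ j, (1 - α p j * (p : ℂ) ^ (-s))⁻¹) := by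
  have key : ∀ J : Finset (Fin N), ∃ a : ℕ → ℂ, ∀ s : ℂ, 3 / 2 < s.re →
      LSeriesHasSum a s (∏ j ∈ J, ∏' p : Nat.Primes, (1 - α p j * (p : ℂ) ^ (-s))⁻¹) := by
    intro J
    induction J using Finset.induction_on with
    | empty =>
      refine ⟨LSeries.delta, fun s _ => ?_⟩
      rw [Finset.prod_empty]
      exact delta_hasSum s
    | insert j J hj ih =>
      obtain ⟨a, ha⟩ := ih
      refine ⟨LSeries.convolution (cm fun p => α p j) a, fun s hs => ?_⟩
      rw [Finset.prod_insert hj]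
      exact (cm_hasSum (fun p hp => hα p hp j) hs).1.convolution (ha s hs)
  obtain ⟨a, ha⟩ := key Finset.univ
  refine ⟨a, fun s hs => ?_⟩
  have h1 := ha s hs
  have h2 : ∏' p : Nat.Primes, ∏ j, (1 - α p j * (p : ℂ) ^ (-s))⁻¹ =
      ∏ j, ∏' p : Nat.Primes, (1 - α p j * (p : ℂ) ^ (-s))⁻¹ := by
    refine HasProd.tprod_eq ?_
    exact hasProd_prod fun j _ => (cm_hasSum (fun p hp => hα p hp j) hs).2.hasProd
  rw [h2]
  exact h1

end Pool.Agent.E8helper25.LT
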