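import Pool.Agent.E8helper25.LT.Law

/-! The criterion: order and leading coefficient from the rotated products. -/

set_option autoImplicit false

namespace Pool.Agent.E8helper25.LT

open Complex MeasureTheory Filter Topology Set Asymptotics
open Pool.Agent.W189.ML Pool.Agent.W189.LC Pool.Agent.W187.S2
open Pool.Agent.W187.UR (Lam)

/-- order and leading coefficient as a limit -/
theorem lead_iff {F : ℂ → ℂ} {x : ℂ} (hF : MeromorphicAt F x) (ρ : ℤ) {B : ℂ} (hB : B ≠ 0) :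
    Tendsto (fun s => F s / (s - x) ^ ρ) (𝓝[≠] x) (𝓝 B) ↔
      meromorphicOrderAt F x = ρ ∧ meromorphicTrailingCoeffAt F x = B := by
  have key : meromorphicOrderAt F x = ρ →
      Tendsto (fun s => F s / (s - x) ^ ρ) (𝓝[≠] x) (𝓝 (meromorphicTrailingCoeffAt F x)) := by
    intro h
    have h1 := hF.tendsto_nhds_meromorphicTrailingCoeffAt
    rw [h, WithTop.untop₀_coe] at h1
    refine h1.congr fun s => ?_
    rw [Pi.smul_apply', Pi.pow_apply, smul_eq_mul, zpow_neg, div_eq_inv_mul]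
  constructor
  · intro h
    have hG : MeromorphicAt (fun s => F s / (s - x) ^ ρ) x := by fun_prop
    have h1 := (tendsto_ne_zero_iff_meromorphicOrderAt_eq_zero hG).1 ⟨B, hB, h⟩
    have h2 : F =ᶠ[𝓝[≠] x] (fun s => (s - x) ^ ρ) * fun s => F s / (s - x) ^ ρ := by
      filter_upwards [self_mem_nhdsWithin] with s hs
      have hs0 : s - x ≠ 0 := sub_ne_zero.2 hs
      have hs1 : (s - x) ^ ρ ≠ 0 := zpow_ne_zero _ hs0
      simp only [Pi.mul_apply]
      field_simp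
    have h3 : meromorphicOrderAt F x = ρ := by
      rw [meromorphicOrderAt_congr h2, meromorphicOrderAt_mul (by fun_prop) hG, h1, add_zero]
      exact fun_meromorphicOrderAt_zpow_id_sub_const
    exact ⟨h3, tendsto_nhds_unique (key h3) h⟩
  · rintro ⟨h1, h2⟩
    rw [← h2]
    exact key h1

theorem zpow_exp {T : ℝ} (hT : 0 < T) (m : ℤ) : (T : ℂ) ^ m = exp (m * Real.log T) := by
  rw [Complex.exp_int_mul, ← Complex.ofReal_exp, Real.exp_log hT]

/-- exponentials with error terms -/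
theorem exp_O' {P : ℝ → ℂ} {m : ℤ} {κ : ℂ} {C T₀ : ℝ} (_hC : 0 ≤ C) (hT₀ : 1 ≤ T₀)
    (h : ∀ T ≥ T₀, ‖P T - (m * Real.log T - κ)‖ ≤ C / T) :
    (fun T : ℝ => exp (P T) / (T : ℂ) ^ m - exp (-κ)) =O[atTop] (fun T : ℝ => 1 / T) := by
  refine IsBigO.of_bound (‖exp (-κ)‖ * 2 * C) ?_
  filter_upwards [eventually_ge_atTop T₀, eventually_ge_atTop (C + 1)] with T h1 h2
  have hT0 : 0 < T := by linarith
  have h3 := h T h1
  have h4 : ‖P T - (m * Real.log T - κ)‖ ≤ 1 := by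
    refine h3.trans ?_
    rw [div_le_one hT0]
    linarith
  have h6 : exp (P T) / (T : ℂ) ^ m - exp (-κ) =
      exp (-κ) * (exp (P T - (m * Real.log T - κ)) - 1) := by
    rw [zpow_exp hT0, ← Complex.exp_sub, mul_sub, ← Complex.exp_add, mul_one]
    congr 2
    ring
  have h7 := Complex.norm_exp_sub_one_le h4
  rw [h6, norm_mul, Real.norm_eq_abs, abs_of_pos (by positivity : 0 < 1 / T)]
  calc ‖exp (-κ)‖ * ‖exp (P T - (m * Real.log T - κ)) - 1‖ ≤ ‖exp (-κ)‖ * (2 * (C / T)) := by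
        gcongr
        linarith
    _ = ‖exp (-κ)‖ * 2 * C * (1 / T) := by ring

/-- uniqueness of exponent and constant along a sequence -/
theorem zpow_unique {f : ℝ → ℂ} {m ρ : ℤ} {c₁ c₀ : ℂ} {T : ℕ → ℝ} (hT : Tendsto T atTop atTop)
    (h1 : Tendsto (fun n => f (T n) / (T n : ℂ) ^ m) atTop (𝓝 c₁))
    (h0 : Tendsto (fun n => f (T n) / (T n : ℂ) ^ ρ) atTop (𝓝 c₀)) (hc₁ : c₁ ≠ 0)
    (hc₀ : c₀ ≠ 0) : m = ρ ∧ c₁ = c₀ := by
  have key : ∀ {m ρ : ℤ} {c₁ c₀ : ℂ}, m < ρ →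
      Tendsto (fun n => f (T n) / (T n : ℂ) ^ m) atTop (𝓝 c₁) →
      Tendsto (fun n => f (T n) / (T n : ℂ) ^ ρ) atTop (𝓝 c₀) → c₀ = 0 := by
    intro m ρ c₁ c₀ hlt h1 h0
    obtain ⟨k, hk⟩ := Int.eq_ofNat_of_zero_le (show 0 ≤ ρ - m by omega)
    have hk0 : k ≠ 0 := by rintro rfl; simp at hk; omega
    have h2 : Tendsto (fun n => ((T n : ℂ) ^ k)⁻¹) atTop (𝓝 0) := by
      rw [tendsto_zero_iff_norm_tendsto_zero]
      have h3 : Tendsto (fun n => (T n ^ k)⁻¹) atTop (𝓝 0) :=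
        ((tendsto_pow_atTop hk0).comp hT).inv_tendsto_atTop
      refine h3.congr' ?_
      filter_upwards [hT.eventually (eventually_gt_atTop 0)] with n hn
      rw [norm_inv, norm_pow, Complex.norm_real, Real.norm_eq_abs, abs_of_pos hn]
    have h3 := h1.mul h2
    rw [mul_zero] at h3
    refine tendsto_nhds_unique h0 (h3.congr' ?_)
    filter_upwards [hT.eventually (eventually_gt_atTop 0)] with n hn
    have hXc : (T n : ℂ) ≠ 0 := by exact_mod_cast hn.ne'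
    have h4 : (T n : ℂ) ^ ρ = (T n : ℂ) ^ m * (T n : ℂ) ^ k := by
      rw [← zpow_natCast, ← zpow_add₀ hXc]; congr 1; omega
    have h5 : (T n : ℂ) ^ m ≠ 0 := zpow_ne_zero _ hXc
    rw [h4]
    field_simp
  rcases lt_trichotomy m ρ with h | h | h
  · exact absurd (key h h1 h0) hc₀
  · subst h
    exact ⟨rfl, tendsto_nhds_unique h1 h0⟩
  · exact absurd (key h h0 h1) hc₁

variable {ι : Type} {N : ℕ} {q : ι → ℝ} {β : ι → Fin N → ℂ} {Φ : ℂ → ℂ}

/-- **the criterion** -/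
theorem LP.crit [Countable ι] (D : LP q β)
    (hmer : ∀ x ∈ Icc (0 : ℝ) 2, MeromorphicAt Φ (x : ℂ))
    (hΦ : ∀ w : ℂ, 1 < w.re → Φ w = exp (gg q β w)) (ρ : ℤ) {B : ℂ} (hB : B ≠ 0) :
    List.TFAE [
      meromorphicOrderAt Φ 0 = ρ ∧ meromorphicTrailingCoeffAt Φ 0 = B,
      ∃ c : ℝ, Real.pi / 2 < c ∧ ∃ T : ℕ → ℝ, Tendsto T atTop atTop ∧
        Tendsto (fun n => exp (WW q β c (T n)) / (T n : ℂ) ^ ρ) atTop
          (𝓝 (exp (-(ρ * Lam c)) / B)),
      ∀ c : ℝ, Real.pi / 2 < c →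
        (fun T : ℝ => exp (WW q β c T) / (T : ℂ) ^ ρ - exp (-(ρ * Lam c)) / B) =O[atTop]
          (fun T : ℝ => 1 / T)] := by
  obtain ⟨m, r₀, hm, hr, hlaw⟩ := D.law hmer hΦ
  have hO : ∀ c : ℝ, Real.pi / 2 < c →
      (fun T : ℝ => exp (WW q β c T) / (T : ℂ) ^ m - exp (-(m * Lam c)) / exp r₀) =O[atTop]
        (fun T : ℝ => 1 / T) := by
    intro c hc
    obtain ⟨C, T₀, hC, hT₀, h⟩ := hlaw c hc
    have h1 := exp_O' (P := fun T => WW q β c T) (m := m) (κ := m * Lam c + r₀) hC hT₀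
      (fun T hT => by
        have := h T hT
        rwa [sub_sub] at this)
    have h2 : exp (-(m * Lam c + r₀)) = exp (-(m * Lam c)) / exp r₀ := by
      rw [← Complex.exp_sub]; congr 1; ring
    rwa [h2] at h1
  have hinv : Tendsto (fun T : ℝ => 1 / T) atTop (𝓝 0) :=
    tendsto_const_nhds.div_atTop tendsto_id
  have hlim : ∀ {c : ℝ} {ρ : ℤ} {κ : ℂ},
      (fun T : ℝ => exp (WW q β c T) / (T : ℂ) ^ ρ - κ) =O[atTop] (fun T : ℝ => 1 / T) →
      Tendsto (fun T : ℝ => exp (WW q β c T) / (T : ℂ) ^ ρ) atTop (𝓝 κ) := by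
    intro c ρ κ h
    have h1 := (h.trans_tendsto hinv).add_const κ
    rw [zero_add] at h1
    exact h1.congr fun T => by ring
  tfae_have 1 → 3 := by
    rintro ⟨h1, h2⟩ c hc
    have h3 : m = ρ := by rw [hm] at h1; exact_mod_cast h1
    subst h3
    rw [← h2, ← hr]
    exact hO c hc
  tfae_have 3 → 2 := by
    intro h
    refine ⟨Real.pi, by linarith [Real.pi_pos], fun n => n, tendsto_natCast_atTop_atTop, ?_⟩
    exact (hlim (h Real.pi (by linarith [Real.pi_pos]))).comp tendsto_natCast_atTop_atTop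
  tfae_have 2 → 1 := by
    rintro ⟨c, hc, T, hT, h⟩
    have h1 := (hlim (hO c hc)).comp hT
    have e1 : exp (-(m * Lam c)) / exp r₀ ≠ 0 := div_ne_zero (exp_ne_zero _) (exp_ne_zero _)
    have e2 : exp (-(ρ * Lam c)) / B ≠ 0 := div_ne_zero (exp_ne_zero _) hB
    obtain ⟨h2, h3⟩ := zpow_unique (f := fun T => exp (WW q β c T)) hT h1 h e1 e2
    subst h2
    refine ⟨hm, ?_⟩
    rw [← hr]
    have h4 := exp_ne_zero (-(m * Lam c))
    rw [div_eq_mul_inv, div_eq_mul_inv] at h3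
    exact inv_injective (mul_left_cancel₀ h4 h3)
  tfae_finish

end Pool.Agent.E8helper25.LT
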