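import Pool.Agent.W189.NF.Main
import Pool.Agent.TH339.MP.P8

/-! Elliptic curves over number fields: Hasse's bound at the places prime to 6, and the bounds that hold
at all places. -/

set_option autoImplicit false

namespace Pool.Agent.E8helper25.LT

open IsDedekindDomain NumberField IsLocalRing
open Pool.Agent.W189.NF
open Pool.Agent.H921R2.TatePole (nm two_le_nm nm_summable)

section field

variable {k : Type} [Field k] [Finite k]

theorem point_eq (V : WeierstrassCurve k) [V.IsElliptic] :
    Nat.card V.toAffine.Point = Pool.Agent.H341R2.EC.aff V + 1 := by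
  have hbij : Function.Bijective (ptMap V) := by
    refine ⟨ptMap_injective V, fun Q => ?_⟩
    cases Q with
    | none => exact ⟨.zero, rfl⟩
    | some Q =>
      obtain ⟨⟨x, y⟩, h⟩ := Q
      exact ⟨.some x y (WeierstrassCurve.Affine.equation_iff_nonsingular.1 h), rfl⟩
  rw [Nat.card_congr (Equiv.ofBijective _ hbij), Finite.card_option]
  congr 1
  unfold Pool.Agent.H341R2.EC.aff
  refine Nat.card_congr (Equiv.subtypeEquivRight fun P => ?_)
  exact WeierstrassCurve.Affine.equation_iff _ _

/-- Hasse's bound in characteristic prime to 6 -/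
theorem hasse_field (h6 : (6 : k) ≠ 0) (V : WeierstrassCurve k) [V.IsElliptic] :
    ((Nat.card k : ℝ) + 1 - Nat.card V.toAffine.Point) ^ 2 ≤ 4 * Nat.card k := by
  classical
  have h1 := Pool.Agent.TH339.MP.card_sub_aff h6 V
  have hΔ : V.Δ ≠ 0 := by
    rw [← V.coe_Δ']
    exact V.Δ'.ne_zero
  rw [if_neg hΔ] at h1
  rw [point_eq V]
  push_cast
  have h2 : (Nat.card k : ℝ) + 1 - (Pool.Agent.H341R2.EC.aff V + 1) =
      (Nat.card k : ℝ) - Pool.Agent.H341R2.EC.aff V := by ring
  rw [h2, ← sq_abs]
  calc |(Nat.card k : ℝ) - Pool.Agent.H341R2.EC.aff V| ^ 2 ≤ (2 * √(Nat.card k)) ^ 2 :=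
        pow_le_pow_left₀ (abs_nonneg _) h1 2
    _ = 4 * Nat.card k := by
      rw [mul_pow, Real.sq_sqrt (Nat.cast_nonneg _)]
      norm_num

end field

variable {K : Type} [Field K] [NumberField K] (E : WeierstrassCurve K)

section Local

variable (R : Type) [CommRing R] [IsDomain R] [IsDiscreteValuationRing R] {L : Type}
  [Field L] [Algebra R L] [IsFractionRing R L] (W : WeierstrassCurve L)

theorem hasse_loc [Finite (ResidueField R)] (h6 : (6 : ResidueField R) ≠ 0) :
    (aLoc R W : ℝ) ^ 2 ≤ 4 * Nat.card (ResidueField R) := by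
  have hq : (1 : ℝ) ≤ Nat.card (ResidueField R) := by
    exact_mod_cast (Nat.card_pos : 0 < Nat.card (ResidueField R))
  unfold aLoc
  split_ifs with h1
  · have := (WeierstrassCurve.hasGoodReduction_iff_isElliptic_reduction (R := R)
      (W := W.minimal R)).1 h1
    have h2 := hasse_field h6 ((W.minimal R).reduction R)
    push_cast
    exact h2
  · push_cast; linarith
  · push_cast; linarith
  · push_cast; linarith

/-- the cases for the pair `(a, e)` -/
theorem ae_loc : (eLoc R W = Nat.card (ResidueField R)) ∨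
    (eLoc R W = 0 ∧ (aLoc R W = 1 ∨ aLoc R W = -1 ∨ aLoc R W = 0)) := by
  unfold aLoc eLoc
  split_ifs
  · left; rfl
  · right; exact ⟨rfl, Or.inl rfl⟩
  · right; exact ⟨rfl, Or.inr (Or.inl rfl)⟩
  · right; exact ⟨rfl, Or.inr (Or.inr rfl)⟩

end Local

/-- the exceptional places: good reduction, and Hasse's inequality fails -/
def Exc (v : HeightOneSpectrum (𝓞 K)) : Prop := 4 * (nm v : ℤ) < aV E v ^ 2

theorem exc_six {v : HeightOneSpectrum (𝓞 K)} (h : Exc E v) : (6 : 𝓞 K) ∈ v.asIdeal := by
  by_contra h6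
  have := finite_res v
  have h1 : (6 : ResidueField (v.adicCompletionIntegers K)) ≠ 0 := by
    intro h0
    apply h6
    rw [← redMap_eq_zero v, map_ofNat]
    exact h0
  have h2 := hasse_loc (v.adicCompletionIntegers K) (E.baseChange (v.adicCompletion K)) h1
  rw [card_res] at h2
  have h3 : (aV E v) ^ 2 ≤ 4 * (nm v : ℤ) := by
    unfold aV
    exact_mod_cast h2
  unfold Exc at h
  linarith

theorem exc_finite : {v : HeightOneSpectrum (𝓞 K) | Exc E v}.Finite := by
  have h1 : Ideal.span {(6 : 𝓞 K)} ≠ 0 := by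
    rw [Ne, Ideal.zero_eq_bot, Ideal.span_singleton_eq_bot]
    norm_num
  refine (Ideal.finite_factors h1).subset fun v hv => ?_
  rw [Set.mem_ofPred_eq, Ideal.dvd_span_singleton]
  exact exc_six E hv

theorem ae_cases (v : HeightOneSpectrum (𝓞 K)) : eV E v = nm v ∨
    (eV E v = 0 ∧ (aV E v = 1 ∨ aV E v = -1 ∨ aV E v = 0)) := by
  have h := ae_loc (v.adicCompletionIntegers K) (E.baseChange (v.adicCompletion K))
  rw [card_res] at h
  exact h

/-- at the exceptional places the reduction is good -/
theorem exc_good {v : HeightOneSpectrum (𝓞 K)} (h : Exc E v) : eV E v = nm v := by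
  rcases ae_cases E v with h1 | ⟨-, h1⟩
  · exact h1
  · exfalso
    unfold Exc at h
    have h2 : (2 : ℤ) ≤ nm v := by exact_mod_cast two_le_nm v
    rcases h1 with h1 | h1 | h1 <;> rw [h1] at h <;> norm_num at h <;> linarith

end Pool.Agent.E8helper25.LT
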