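import Pool.Agent.E8helper25.LT.ECH

/-! Elliptic curves over number fields: the roots of the local polynomials, and the convergence of the
`L`-series for `Re s > 3/2`. -/

set_option autoImplicit false

namespace Pool.Agent.E8helper25.LT

open IsDedekindDomain NumberField IsLocalRing ArithmeticFunction
open Pool.Agent.W189.NF
open Pool.Agent.H921R2.TatePole (nm two_le_nm nm_summable)

section roots

/-- a square root of `a² - 4e` -/
noncomputable def sr (a e : ℝ) : ℂ :=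
  if 0 ≤ a ^ 2 - 4 * e then ((√(a ^ 2 - 4 * e) : ℝ) : ℂ) else ((√(4 * e - a ^ 2) : ℝ) : ℂ) * Complex.I

theorem sr_sq (a e : ℝ) : sr a e ^ 2 = (a : ℂ) ^ 2 - 4 * e := by
  unfold sr
  split_ifs with h
  · rw [← Complex.ofReal_pow, Real.sq_sqrt h]
    push_cast; ring
  · push Not at h
    rw [mul_pow, Complex.I_sq, ← Complex.ofReal_pow, Real.sq_sqrt (by linarith)]
    push_cast; ring

/-- the roots of `X² - a X + e` -/
noncomputable def rr (a e : ℝ) : Fin 2 → ℂ := ![(a + sr a e) / 2, (a - sr a e) / 2]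

theorem rr_sum (a e : ℝ) : rr a e 0 + rr a e 1 = a := by
  show ((a : ℂ) + sr a e) / 2 + (a - sr a e) / 2 = a
  ring

theorem rr_prod (a e : ℝ) : rr a e 0 * rr a e 1 = e := by
  show ((a : ℂ) + sr a e) / 2 * ((a - sr a e) / 2) = e
  have h := sr_sq a e
  linear_combination (-1 / 4 : ℂ) * h

theorem rr_poly (a e : ℝ) (x : ℂ) :
    (1 - rr a e 0 * x) * (1 - rr a e 1 * x) = 1 - a * x + e * x ^ 2 := by
  rw [← rr_sum, ← rr_prod]
  ring

theorem rr_norm_lt {a e : ℝ} (h : a ^ 2 ≤ 4 * e) (j : Fin 2) : ‖rr a e j‖ ^ 2 = e := by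
  have h0 : 0 ≤ 4 * e - a ^ 2 := by linarith
  have hs : sr a e = ((√(4 * e - a ^ 2) : ℝ) : ℂ) * Complex.I := by
    unfold sr
    split_ifs with h1
    · have h2 : a ^ 2 - 4 * e = 0 := by linarith
      have h3 : 4 * e - a ^ 2 = 0 := by linarith
      rw [h2, h3]; simp
    · rfl
  have key : ∀ u : ℝ, u ^ 2 = 4 * e - a ^ 2 → ‖((a : ℂ) + (u : ℂ) * Complex.I) / 2‖ ^ 2 = e := by
    intro u hu
    rw [norm_div, div_pow, ← Complex.normSq_eq_norm_sq, Complex.normSq_add_mul_I, hu]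
    norm_num
  fin_cases j
  · show ‖((a : ℂ) + sr a e) / 2‖ ^ 2 = e
    rw [hs]
    exact key _ (Real.sq_sqrt h0)
  · show ‖((a : ℂ) - sr a e) / 2‖ ^ 2 = e
    rw [hs]
    have h3 := key (-√(4 * e - a ^ 2)) (by rw [neg_sq]; exact Real.sq_sqrt h0)
    push_cast at h3
    rw [neg_mul, ← sub_eq_add_neg] at h3
    exact h3

theorem rr_norm_le {a e : ℝ} (h : 4 * e ≤ a ^ 2) (j : Fin 2) :
    ‖rr a e j‖ ≤ (|a| + √(a ^ 2 - 4 * e)) / 2 := by
  have hs : sr a e = ((√(a ^ 2 - 4 * e) : ℝ) : ℂ) := by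
    unfold sr
    rw [if_pos (by linarith)]
  have h0 := Real.sqrt_nonneg (a ^ 2 - 4 * e)
  fin_cases j
  · show ‖((a : ℂ) + sr a e) / 2‖ ≤ _
    rw [hs, ← Complex.ofReal_add, norm_div, Complex.norm_real, Real.norm_eq_abs]
    have := abs_add_le a (√(a ^ 2 - 4 * e))
    rw [abs_of_nonneg h0] at this
    norm_num
    linarith
  · show ‖((a : ℂ) - sr a e) / 2‖ ≤ _
    rw [hs, ← Complex.ofReal_sub, norm_div, Complex.norm_real, Real.norm_eq_abs]
    have := abs_sub a (√(a ^ 2 - 4 * e))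
    rw [abs_of_nonneg h0] at this
    norm_num
    linarith

/-- the power sums are real -/
theorem rr_real (a e : ℝ) (k : ℕ) : (∑ j, rr a e j ^ k).im = 0 := by
  rw [Fin.sum_univ_two]
  by_cases h : 0 ≤ a ^ 2 - 4 * e
  · have e0 : rr a e 0 = (((a + √(a ^ 2 - 4 * e)) / 2 : ℝ) : ℂ) := by
      show ((a : ℂ) + sr a e) / 2 = _
      unfold sr
      rw [if_pos h]; push_cast; ring
    have e1 : rr a e 1 = (((a - √(a ^ 2 - 4 * e)) / 2 : ℝ) : ℂ) := by
      show ((a : ℂ) - sr a e) / 2 = _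
      unfold sr
      rw [if_pos h]; push_cast; ring
    rw [e0, e1, ← Complex.ofReal_pow, ← Complex.ofReal_pow, ← Complex.ofReal_add, Complex.ofReal_im]
  · have e1 : rr a e 1 = (starRingEnd ℂ) (rr a e 0) := by
      show ((a : ℂ) - sr a e) / 2 = (starRingEnd ℂ) (((a : ℂ) + sr a e) / 2)
      unfold sr
      rw [if_neg h, map_div₀, map_add, map_mul, Complex.conj_ofReal, Complex.conj_ofReal,
        Complex.conj_I, map_ofNat]
      ring
    rw [e1, ← map_pow, Complex.add_conj]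
    simp

/-- a bound for the coefficients of the inverse of `1 - a X + e X²` -/
theorem coeff_bound {a e : ℤ} {c : ℕ → ℤ} (h0 : c 0 = 1) (h1 : c 1 = a)
    (h2 : ∀ k, c (k + 2) = a * c (k + 1) - e * c k) {ρ : ℝ}
    (hρ : ∀ j, ‖rr a e j‖ ≤ ρ) (n : ℕ) : |(c n : ℝ)| ≤ (n + 1) * ρ ^ n := by
  have hρ0 : 0 ≤ ρ := (norm_nonneg _).trans (hρ 0)
  have hs := rr_sum a e
  have hp := rr_prod a e
  have key : ∀ n : ℕ, (c (n + 1) : ℂ) = rr a e 0 * c n + rr a e 1 ^ (n + 1) := by
    intro n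
    induction n with
    | zero =>
      rw [zero_add, h0, h1]
      push_cast at hs ⊢
      rw [← hs]; ring
    | succ n ih =>
      rw [show n + 1 + 1 = n + 2 from rfl, h2 n]
      push_cast at hs hp ⊢
      rw [← hs, ← hp]
      linear_combination (rr a e 1) * ih
  have hb : ∀ n : ℕ, ‖(c n : ℂ)‖ ≤ (n + 1) * ρ ^ n := by
    intro n
    induction n with
    | zero => rw [h0]; simp
    | succ n ih =>
      rw [key n]
      refine (norm_add_le _ _).trans ?_
      rw [norm_mul, norm_pow]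
      have h3 : ‖rr a e 1‖ ^ (n + 1) ≤ ρ ^ (n + 1) := pow_le_pow_left₀ (norm_nonneg _) (hρ 1) _
      have h4 : ‖rr a e 0‖ * ‖(c n : ℂ)‖ ≤ ρ * ((n + 1) * ρ ^ n) :=
        mul_le_mul (hρ 0) ih (norm_nonneg _) hρ0
      push_cast
      calc _ ≤ ρ * ((n + 1) * ρ ^ n) + ρ ^ (n + 1) := add_le_add h4 h3
        _ = _ := by ring
  have := hb n
  rwa [Complex.norm_intCast] at this

end roots

variable {K : Type} [Field K] [NumberField K] (E : WeierstrassCurve K)

/-- the roots at `v` -/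
noncomputable def av (v : HeightOneSpectrum (𝓞 K)) : Fin 2 → ℂ := rr (aV E v) (eV E v)

theorem nm_two (v : HeightOneSpectrum (𝓞 K)) : (2 : ℝ) ≤ nm v := by exact_mod_cast two_le_nm v

theorem av_le {v : HeightOneSpectrum (𝓞 K)} (h : ¬ Exc E v) (j : Fin 2) :
    ‖av E v j‖ ≤ √(nm v) := by
  have hq := nm_two v
  unfold Exc at h
  push Not at h
  rcases ae_cases E v with h1 | ⟨h1, h2⟩
  · have h3 : ((aV E v : ℤ) : ℝ) ^ 2 ≤ 4 * ((eV E v : ℤ) : ℝ) := by
      rw [h1]; exact_mod_cast h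
    have h4 := rr_norm_lt h3 j
    unfold av
    refine Real.le_sqrt_of_sq_le ?_
    rw [h4, h1]
    simp
  · have h3 : (4 : ℝ) * ((eV E v : ℤ) : ℝ) ≤ ((aV E v : ℤ) : ℝ) ^ 2 := by
      rw [h1, Int.cast_zero, mul_zero]; exact sq_nonneg _
    have h4 := rr_norm_le h3 j
    unfold av
    refine h4.trans ?_
    have h5 : |((aV E v : ℤ) : ℝ)| ≤ 1 := by
      rcases h2 with h2 | h2 | h2 <;> rw [h2] <;> norm_num
    have h6 : √(((aV E v : ℤ) : ℝ) ^ 2 - 4 * ((eV E v : ℤ) : ℝ)) ≤ 1 := by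
      rw [h1]
      push_cast
      rw [mul_zero, sub_zero, Real.sqrt_sq_eq_abs]
      exact h5
    have h7 : (1 : ℝ) ≤ √(nm v) := by
      rw [Real.one_le_sqrt]; linarith
    linarith

theorem av_lt (v : HeightOneSpectrum (𝓞 K)) (j : Fin 2) : ‖av E v j‖ < nm v := by
  have hq := nm_two v
  by_cases h : Exc E v
  · have h1 := exc_good E h
    unfold Exc at h
    have h3 : (4 : ℝ) * ((eV E v : ℤ) : ℝ) ≤ ((aV E v : ℤ) : ℝ) ^ 2 := by
      rw [h1]; exact_mod_cast h.le
    have h4 := rr_norm_le h3 j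
    unfold av
    refine h4.trans_lt ?_
    have h5 : |((aV E v : ℤ) : ℝ)| ≤ nm v := by
      have := aV_le E v
      exact_mod_cast this
    have h7 : (1 : ℝ) ≤ |((aV E v : ℤ) : ℝ)| := by
      have h8 : aV E v ≠ 0 := by
        intro h8
        rw [h8] at h
        have : (0 : ℤ) ≤ nm v := by positivity
        norm_num at h
        linarith
      exact_mod_cast Int.one_le_abs h8
    have h6 : √(((aV E v : ℤ) : ℝ) ^ 2 - 4 * ((eV E v : ℤ) : ℝ)) < |((aV E v : ℤ) : ℝ)| := by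
      rw [Real.sqrt_lt' (by linarith), sq_abs, h1]
      push_cast
      linarith
    linarith
  · refine (av_le E h j).trans_lt ?_
    rw [Real.sqrt_lt' (by linarith)]
    nlinarith

/-- the convergence of the Euler product for `Re s > 3/2` -/
theorem fdata' {σ : ℝ} (hσ : 3 / 2 < σ) : FData (fun v : HeightOneSpectrum (𝓞 K) => nm v)
    (locPS E) σ where
  two_le := two_le_nm
  north := northcott_nm
  const := fun v => by
    rw [← PowerSeries.coeff_zero_eq_constantCoeff, locPS_eq]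
    exact (inv_coeff (aV E v) (eV E v)).1
  sum := by
    -- the local bound
    have hloc : ∀ (v : HeightOneSpectrum (𝓞 K)) (ρ : ℝ), (∀ j, ‖av E v j‖ ≤ ρ) → ∀ n : ℕ,
        |(((locPS E v).coeff (n + 1) : ℤ) : ℝ)| * (nm v : ℝ) ^ (-(σ * (n + 1))) ≤
          (n + 2) * (ρ * (nm v : ℝ) ^ (-σ)) ^ (n + 1) := by
      intro v ρ hρ n
      obtain ⟨e0, e1, e2⟩ := inv_coeff (aV E v) (eV E v)
      rw [← locPS_eq] at e0 e1 e2
      have h1 := coeff_bound (c := fun k => (locPS E v).coeff k) e0 e1 e2 (ρ := ρ)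
        (by exact_mod_cast hρ) (n + 1)
      have hq0 : (0 : ℝ) < nm v := by linarith [nm_two v]
      have h4 : (nm v : ℝ) ^ (-(σ * (n + 1))) = ((nm v : ℝ) ^ (-σ)) ^ (n + 1) := by
        rw [← Real.rpow_natCast, ← Real.rpow_mul hq0.le]
        congr 1
        push_cast
        ring
      rw [h4, mul_pow]
      push_cast at h1
      calc |(((locPS E v).coeff (n + 1) : ℤ) : ℝ)| * ((nm v : ℝ) ^ (-σ)) ^ (n + 1) ≤
          ((n + 1 + 1) * ρ ^ (n + 1)) * ((nm v : ℝ) ^ (-σ)) ^ (n + 1) :=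
            mul_le_mul_of_nonneg_right h1 (by positivity)
        _ = _ := by ring
    have hgeo : ∀ r : ℝ, 0 ≤ r → r < 1 → Summable fun n : ℕ => ((n : ℝ) + 2) * r ^ (n + 1) := by
      intro r hr0 hr1
      have h1 : Summable fun n : ℕ => (n : ℝ) * r ^ n := by
        have := summable_pow_mul_geometric_of_norm_lt_one 1 (r := r)
          (by rwa [Real.norm_eq_abs, abs_of_nonneg hr0])
        simpa using this
      have h2 : Summable fun n : ℕ => r ^ n := summable_geometric_of_lt_one hr0 hr1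
      have h3 := (h1.mul_left r).add (h2.mul_left (2 * r))
      refine h3.congr fun n => ?_
      ring
    rw [summable_prod_of_nonneg (fun x => by positivity)]
    constructor
    · intro v
      have hq0 : (0 : ℝ) < nm v := by linarith [nm_two v]
      set ρ : ℝ := max ‖av E v 0‖ ‖av E v 1‖ with hρ
      have hρ1 : ∀ j, ‖av E v j‖ ≤ ρ := by
        intro j
        fin_cases j
        · exact le_max_left _ _
        · exact le_max_right _ _
      have hρ2 : ρ < nm v := max_lt (av_lt E v 0) (av_lt E v 1)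
      have hρ0 : 0 ≤ ρ := (norm_nonneg _).trans (hρ1 0)
      have h1 : ρ * (nm v : ℝ) ^ (-σ) < 1 := by
        have h2 : (nm v : ℝ) ^ (-σ) ≤ (nm v : ℝ) ^ (-1 : ℝ) :=
          Real.rpow_le_rpow_of_exponent_le (by linarith [nm_two v]) (by linarith)
        rw [Real.rpow_neg_one] at h2
        calc ρ * (nm v : ℝ) ^ (-σ) ≤ ρ * (nm v : ℝ)⁻¹ := mul_le_mul_of_nonneg_left h2 hρ0
          _ < nm v * (nm v : ℝ)⁻¹ := mul_lt_mul_of_pos_right hρ2 (by positivity)
          _ = 1 := mul_inv_cancel₀ hq0.ne'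
      exact Summable.of_nonneg_of_le (fun n => by positivity) (fun n => hloc v ρ hρ1 n)
        (hgeo _ (by positivity) h1)
    · set C := ∑' n : ℕ, ((n : ℝ) + 2) * (1 / 2) ^ n with hC
      have hsC : Summable fun n : ℕ => ((n : ℝ) + 2) * (1 / 2) ^ n := by
        have := (hgeo (1 / 2) (by norm_num) (by norm_num)).mul_left 2
        refine this.congr fun n => ?_
        rw [pow_succ]
        ring
      refine Summable.of_norm_bounded_eventually
        ((nm_summable (K := K) (x := σ - 1 / 2) (by linarith)).mul_left C) ?_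
      have h1 : {v : HeightOneSpectrum (𝓞 K) | Exc E v}ᶜ ∈ (Filter.cofinite : Filter _) :=
        (exc_finite E).compl_mem_cofinite
      filter_upwards [h1] with v hv
      have hv' : ¬ Exc E v := hv
      have hq2 := nm_two v
      have hq0 : (0 : ℝ) < nm v := by linarith
      set y : ℝ := (nm v : ℝ) ^ (-(σ - 1 / 2)) with hy
      have hy0 : 0 ≤ y := by positivity
      have hy1 : y ≤ 1 / 2 := by
        calc y ≤ (nm v : ℝ) ^ (-1 : ℝ) :=
              Real.rpow_le_rpow_of_exponent_le (by linarith) (by linarith)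
          _ = (nm v : ℝ)⁻¹ := Real.rpow_neg_one _
          _ ≤ 2⁻¹ := inv_anti₀ (by norm_num) hq2
          _ = 1 / 2 := by norm_num
      have h5 : √(nm v) * (nm v : ℝ) ^ (-σ) = y := by
        rw [hy, Real.sqrt_eq_rpow, ← Real.rpow_add hq0]
        congr 1
        ring
      have hn : ∀ n : ℕ, |(((locPS E v).coeff (n + 1) : ℤ) : ℝ)| * (nm v : ℝ) ^ (-(σ * (n + 1))) ≤
          y * (((n : ℝ) + 2) * (1 / 2) ^ n) := by
        intro n
        have h6 := hloc v _ (av_le E hv') n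
        rw [h5] at h6
        refine h6.trans ?_
        rw [pow_succ]
        have h7 : y ^ n ≤ (1 / 2) ^ n := pow_le_pow_left₀ hy0 hy1 n
        have h8 : (0 : ℝ) ≤ (n : ℝ) + 2 := by positivity
        calc ((n : ℝ) + 2) * (y ^ n * y) = y * (((n : ℝ) + 2) * y ^ n) := by ring
          _ ≤ _ := mul_le_mul_of_nonneg_left (mul_le_mul_of_nonneg_left h7 h8) hy0
      have hnn : ∀ n : ℕ, 0 ≤ |(((locPS E v).coeff (n + 1) : ℤ) : ℝ)| *
          (nm v : ℝ) ^ (-(σ * (n + 1))) := fun n => by positivity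
      rw [Real.norm_eq_abs, abs_of_nonneg (tsum_nonneg hnn), mul_comm, hC, ← tsum_mul_left]
      exact (Summable.of_nonneg_of_le hnn hn (hsC.mul_left y)).tsum_le_tsum hn (hsC.mul_left y)

/-- **the `L`-series for `Re s > 3/2`** -/
theorem LS_hasProd {s : ℂ} (hs : 3 / 2 < s.re) :
    LSeriesSummable ((fun n : ℤ => (n : ℂ)) ∘ E.LFunction) s ∧
    HasProd (fun v : HeightOneSpectrum (𝓞 K) =>
      (1 - (aV E v : ℂ) * (nm v : ℂ) ^ (-s) + (eV E v : ℂ) * ((nm v : ℂ) ^ (-s)) ^ 2)⁻¹)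
      (E.LSeries s) := by
  have h1 := (fdata' E hs).main (s := s) le_rfl
  rw [← LFunction_eq] at h1
  have h2 : (toC E.LFunction) = (fun n : ℤ => (n : ℂ)) ∘ E.LFunction := rfl
  have h3 : (fun v : HeightOneSpectrum (𝓞 K) =>
      (1 - (aV E v : ℂ) * (nm v : ℂ) ^ (-s) + (eV E v : ℂ) * ((nm v : ℂ) ^ (-s)) ^ 2)⁻¹) =
      fun v => ∑' k : ℕ, ((locPS E v).coeff k : ℂ) * ((nm v : ℂ) ^ (-s)) ^ k := by
    funext v
    obtain ⟨e0, e1, e2⟩ := inv_coeff (aV E v) (eV E v)
    rw [← locPS_eq] at e0 e1 e2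
    refine (rec_sum (c := fun k => (locPS E v).coeff k) e0 e1 e2 ?_).symm
    have h4 := (fdata' E hs).single v (τ := s.re) le_rfl
    refine Summable.of_norm_bounded h4 fun k => ?_
    have hq0 : (0 : ℝ) ≤ nm v := by positivity
    rw [norm_mul, norm_pow, Complex.norm_intCast,
      Complex.norm_natCast_cpow_of_pos (by have := two_le_nm v; omega)]
    apply le_of_eq
    congr 1
    rw [Complex.neg_re, ← Real.rpow_natCast, ← Real.rpow_mul hq0]
    congr 1
    ring
  rw [h3]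
  exact ⟨by rw [← h2]; exact h1.1, h1.2⟩

end Pool.Agent.E8helper25.LT
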