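import Pool.Agent.E8helper25.LT.ML

/-! Mittag-Leffler sums of a Dirichlet series: they are locally bounded on an open set which contains the
half-lines to the right of its points if and only if the series has an analytic continuation to the set. -/

set_option autoImplicit false

namespace Pool.Agent.E8helper25.LT

open Complex MeasureTheory Filter Topology Set
open Pool.Agent.W189.ML

variable {a : ℕ → ℂ} {σ : ℝ}

/-- the sums as contour integrals, for all `s` -/
theorem SS_eq' (h : ∀ s : ℂ, σ < s.re → LSeriesSummable a s) (hσ : σ < 2) {T b : ℝ} (hT : 0 < T)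
    (hb : 0 ≤ b) {s : ℂ} (hs : 2 ≤ s.re + b) :
    SS a T s = J (b * T) (fun z => LSeries a (s + z / T)) := by
  have hb' : (0 : ℝ) ≤ b * T := by positivity
  have hre : ∀ z ∈ HS (b * T), (2 : ℂ).re ≤ (s + z / T).re := by
    intro z hz
    have h1 : (s + z / T).re = s.re + z.re / T := by simp
    have h2 : b ≤ z.re / T := by
      rw [le_div_iff₀ hT]
      exact hz.1
    rw [h1]
    simp only [Complex.re_ofNat]
    linarith
  have h1 := J_hasSum (a := b * T) hb' (F := fun n z => LSeries.term a (s + z / T) n)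
    (summ_of h (s := 2) (by simpa using hσ))
    (fun n => ⟨by
      have : (fun z : ℂ => LSeries.term a (s + z / T) n) =
          fun z => LSeries.term a s n * exp (-(z / T * Real.log n)) := by
        funext z; exact term_shift s (z / T) n
      rw [this]
      fun_prop, ‖LSeries.term a 2 n‖, 0, norm_nonneg _, le_rfl, fun z hz => by
      have := LSeries.norm_term_le_of_re_le_re a (hre z hz) n
      linarith⟩)
    (fun n z hz => LSeries.norm_term_le_of_re_le_re a (hre z hz) n)
  have h2 : ∀ n : ℕ, J (b * T) (fun z => LSeries.term a (s + z / T) n) =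
      LSeries.term a s n / Real.Gamma (1 + Real.log n / T) := by
    intro n
    have e : (fun z : ℂ => LSeries.term a (s + z / T) n) =
        fun z => LSeries.term a s n * exp (-(z * ((Real.log n / T : ℝ) : ℂ))) := by
      funext z
      rw [term_shift]
      congr 2
      push_cast
      ring
    rw [e, J_const_mul, J_exp, div_eq_mul_inv]
    push_cast
    rfl
  simp only [h2] at h1
  exact h1.tsum_eq

theorem SS_term_le' {T b : ℝ} (hT : 0 < T) (hb : 0 ≤ b) {s : ℂ} (hs : 2 ≤ s.re + b) (n : ℕ) :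
    ‖LSeries.term a s n / Real.Gamma (1 + Real.log n / T)‖ ≤
      (Real.exp (Real.exp (b * T)) + 1) * ‖LSeries.term a 2 n‖ := by
  have hl : 0 ≤ Real.log n := Real.log_natCast_nonneg n
  have h1 : 0 ≤ Real.log n / T := div_nonneg hl hT.le
  have h2 := om_le (a := b * T) (v := Real.log n / T) (by positivity) h1
  have h3 : b * T * (Real.log n / T) = b * Real.log n := by field_simp
  rw [h3] at h2
  rw [term_om, norm_mul, Complex.norm_real, Real.norm_eq_abs, abs_of_nonneg (om_nonneg h1)]
  have h4 : ‖LSeries.term a (s + b) n‖ = ‖LSeries.term a s n‖ * Real.exp (-(b * Real.log n)) := by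
    have e : (-((b : ℂ) * ((Real.log n : ℝ) : ℂ))) = ((-(b * Real.log n) : ℝ) : ℂ) := by
      push_cast
      ring
    rw [term_shift, norm_mul, Complex.norm_exp, e, Complex.ofReal_re]
  have h5 : ‖LSeries.term a (s + b) n‖ ≤ ‖LSeries.term a 2 n‖ :=
    LSeries.norm_term_le_of_re_le_re a (by simpa using hs) n
  calc ‖LSeries.term a s n‖ * om (Real.log n / T) ≤
      ‖LSeries.term a s n‖ * ((Real.exp (Real.exp (b * T)) + 1) * Real.exp (-(b * Real.log n))) :=
        mul_le_mul_of_nonneg_left h2 (norm_nonneg _)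
    _ = (Real.exp (Real.exp (b * T)) + 1) * ‖LSeries.term a (s + b) n‖ := by rw [h4]; ring
    _ ≤ _ := mul_le_mul_of_nonneg_left h5 (by positivity)

theorem SS_summable' (h : ∀ s : ℂ, σ < s.re → LSeriesSummable a s) (hσ : σ < 2) {T : ℝ}
    (hT : 0 < T) (s : ℂ) :
    Summable fun n : ℕ => ‖LSeries.term a s n / Real.Gamma (1 + Real.log n / T)‖ :=
  Summable.of_nonneg_of_le (fun _ => norm_nonneg _)
    (SS_term_le' (b := |2 - s.re|) hT (abs_nonneg _) (by linarith [le_abs_self (2 - s.re)]))
    ((summ_of h (s := 2) (by simpa using hσ)).mul_left _)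

/-- the sums are entire -/
theorem SS_diff' (h : ∀ s : ℂ, σ < s.re → LSeriesSummable a s) (hσ : σ < 2) {T : ℝ}
    (hT : 0 < T) : Differentiable ℂ (SS a T) := by
  intro s₀
  set b : ℝ := |2 - s₀.re| + 1 with hb
  have hb0 : 0 ≤ b := by positivity
  have hopen : IsOpen {z : ℂ | 2 - b < z.re} := isOpen_lt continuous_const Complex.continuous_re
  have hmem : s₀ ∈ {z : ℂ | 2 - b < z.re} := by
    show 2 - b < s₀.re
    have := le_abs_self (2 - s₀.re)
    rw [hb]; linarith
  have hd : DifferentiableOn ℂ (SS a T) {z : ℂ | 2 - b < z.re} := by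
    unfold SS
    refine differentiableOn_tsum_of_summable_norm
      ((summ_of h (s := 2) (by simpa using hσ)).mul_left (Real.exp (Real.exp (b * T)) + 1)) ?_ hopen
      (fun n s hs => SS_term_le' hT hb0 (by
        have : 2 - b < s.re := hs
        linarith) n)
    intro n
    rcases Nat.eq_zero_or_pos n with rfl | hn
    · simp only [LSeries.term_zero, zero_div]
      exact differentiableOn_const 0
    · have hn0 : (n : ℂ) ≠ 0 := by exact_mod_cast hn.ne'
      simp only [LSeries.term_of_ne_zero hn.ne']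
      intro s _
      have h1 : DifferentiableAt ℂ (fun s : ℂ => (n : ℂ) ^ s) s := by
        have := (hasDerivAt_id s).const_cpow (c := (n : ℂ)) (Or.inl hn0)
        exact this.differentiableAt
      have h2 : (n : ℂ) ^ s ≠ 0 := by
        rw [Complex.cpow_def_of_ne_zero hn0]
        exact Complex.exp_ne_zero _
      exact (((differentiableAt_const _).div h1 h2).div_const _).differentiableWithinAt
  exact (hd s₀ hmem).differentiableAt (hopen.mem_nhds hmem)

/-- the core estimate -/
theorem SS_core (h : ∀ s : ℂ, σ < s.re → LSeriesSummable a s) (hσ : σ < 2) {F : ℂ → ℂ}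
    (hFL : ∀ s : ℂ, σ < s.re → F s = LSeries a s) {T M : ℝ} (hT : 0 < T) {s : ℂ}
    (hz : ∀ z ∈ HS 0, DifferentiableAt ℂ F (s + z / T) ∧ ‖F (s + z / T)‖ ≤ M) :
    ‖SS a T s‖ ≤ (Real.exp (Real.exp 0) + 1) * M := by
  set b : ℝ := |2 - s.re| with hb
  have hb0 : 0 ≤ b := abs_nonneg _
  have hd : DifferentiableOn ℂ (fun z : ℂ => F (s + z / T)) (HS 0) := by
    intro z hz'
    have h1 : DifferentiableAt ℂ (fun z : ℂ => F (s + z / T)) z :=
      DifferentiableAt.comp (g := F) (f := fun z : ℂ => s + z / T) z (hz z hz').1 (by fun_prop)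
    exact h1.differentiableWithinAt
  have hadm : Adm 0 (fun z : ℂ => F (s + z / T)) :=
    ⟨hd.continuousOn, |M|, 0, abs_nonneg _, le_rfl, fun z hz' => by
      have := (hz z hz').2
      have := le_abs_self M
      linarith⟩
  have hshift := J_shift' (b := b * T) le_rfl (by positivity) hadm hd
  have hcongr : J (b * T) (fun z : ℂ => F (s + z / T)) = J (b * T) (fun z => LSeries a (s + z / T)) := by
    refine J_congr fun z hz' => ?_
    refine hFL _ ?_
    have hre : (s + z / T).re = s.re + z.re / T := by simp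
    have h5 : b ≤ z.re / T := by
      rw [le_div_iff₀ hT]
      exact hz'.1
    have h6 := le_abs_self (2 - s.re)
    rw [hre]
    linarith
  rw [SS_eq' h hσ hT hb0 (by linarith [le_abs_self (2 - s.re)]), ← hcongr, ← hshift]
  exact norm_J_le le_rfl fun z hz' => (hz z hz').2

/-- `U` contains the half-lines to the right of its points -/
def RC (U : Set ℂ) : Prop := ∀ s ∈ U, ∀ x : ℝ, 0 ≤ x → s + x ∈ U

/-- the sums are locally bounded on `U` for large `T` -/
def LB (a : ℕ → ℂ) (U : Set ℂ) : Prop :=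
  ∀ s ∈ U, ∃ V ∈ 𝓝 s, ∃ M T₀ : ℝ, ∀ T : ℝ, T₀ ≤ T → ∀ z ∈ V, ‖SS a T z‖ ≤ M

theorem bdd_fin {f : ℕ → ℂ → ℂ} {s : ℂ} (hf : ∀ k, ContinuousAt (f k) s) {V : Set ℂ} (hV : V ∈ 𝓝 s)
    {M : ℝ} (k₀ : ℕ) (h : ∀ k, k₀ ≤ k → ∀ z ∈ V, ‖f k z‖ ≤ M) :
    ∃ V ∈ 𝓝 s, ∃ M : ℝ, ∀ k, ∀ z ∈ V, ‖f k z‖ ≤ M := by
  induction k₀ generalizing V M with
  | zero => exact ⟨V, hV, M, fun k z hz => h k (Nat.zero_le _) z hz⟩
  | succ k₀ ih =>
    have h1 : ∀ᶠ z in 𝓝 s, ‖f k₀ z‖ < ‖f k₀ s‖ + 1 :=
      (hf k₀).norm.eventually_lt_const (by linarith)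
    refine ih (V := V ∩ {z | ‖f k₀ z‖ < ‖f k₀ s‖ + 1}) (M := max M (‖f k₀ s‖ + 1))
      (inter_mem hV h1) fun k hk z hz => ?_
    rcases Nat.lt_or_ge k₀ k with h2 | h2
    · exact (h k h2 z hz.1).trans (le_max_left _ _)
    · have h3 : k = k₀ := le_antisymm h2 hk
      rw [h3]
      exact (le_of_lt hz.2).trans (le_max_right _ _)

/-- locally bounded sums give a continuation -/
theorem cont_of_lb (h : ∀ s : ℂ, σ < s.re → LSeriesSummable a s) (hσ : σ < 2) {U : Set ℂ}
    (hU : IsOpen U) (hb : LB a U) :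
    ∃ F : ℂ → ℂ, (∀ s ∈ U, AnalyticAt ℂ F s) ∧ ∀ s : ℂ, σ < s.re → F s = LSeries a s := by
  set H : Set ℂ := {s : ℂ | σ < s.re} with hH
  have hHo : IsOpen H := isOpen_lt continuous_const Complex.continuous_re
  have hWo : IsOpen (U ∪ H) := hU.union hHo
  have hpos : ∀ k : ℕ, (0 : ℝ) < 1 + k := fun k => by positivity
  obtain ⟨Φ, hΦd, hΦ⟩ := Pool.Agent.Helper114.Konig.locmontel hWo (fun k s => SS a (1 + k) s)
    (fun k => (SS_diff' h hσ (hpos k)).differentiableOn) (by
      have hcont : ∀ s : ℂ, ∀ k : ℕ, ContinuousAt (fun s => SS a (1 + k) s) s := fun s k =>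
        (SS_diff' h hσ (hpos k) s).continuousAt
      rintro s (hs | hs)
      · obtain ⟨V, hV, M, T₀, h1⟩ := hb s hs
        obtain ⟨k₀, hk₀⟩ := exists_nat_ge T₀
        obtain ⟨V', hV', M', h2⟩ := bdd_fin (f := fun k s => SS a (1 + k) s) (hcont s) hV (M := M) k₀
          fun k hk z hz => h1 _ (by
            have : (k₀ : ℝ) ≤ k := by exact_mod_cast hk
            linarith) z hz
        exact ⟨V', hV', M', h2⟩
      · have hs' : σ < s.re := hs
        set x := (σ + s.re) / 2 with hx
        have hx1 : σ < x := by rw [hx]; linarith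
        have hx2 : x < s.re := by rw [hx]; linarith
        refine ⟨{z : ℂ | x < z.re}, (isOpen_lt continuous_const Complex.continuous_re).mem_nhds hx2,
          (Real.exp 1 + 1) * ∑' n, ‖LSeries.term a (x : ℂ) n‖, fun k y hy => ?_⟩
        exact SS_bound h (hpos k) hx1 (le_of_lt hy))
    (Filter.hyperfilter ℕ)
  refine ⟨Φ, fun s hs => hΦd.analyticAt (hWo.mem_nhds (Or.inl hs)), fun s hs => ?_⟩
  have h1 := hΦ s (Or.inr hs)
  have h2 : Tendsto (fun k : ℕ => SS a (1 + k) s) (Filter.hyperfilter ℕ : Filter ℕ)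
      (𝓝 (LSeries a s)) := by
    have h3 : Tendsto (fun k : ℕ => 1 + (k : ℝ)) atTop atTop :=
      tendsto_atTop_add_const_left _ _ tendsto_natCast_atTop_atTop
    exact ((SS_tendsto h hs).comp h3).mono_left Nat.hyperfilter_le_atTop
  exact tendsto_nhds_unique h1 h2

/-- a continuation gives locally bounded sums -/
theorem lb_of_cont (h : ∀ s : ℂ, σ < s.re → LSeriesSummable a s) (hσ : σ < 2) {U : Set ℂ}
    (hUr : RC U) {F : ℂ → ℂ} (hF : ∀ s ∈ U, AnalyticAt ℂ F s)
    (hFL : ∀ s : ℂ, σ < s.re → F s = LSeries a s) : LB a U := by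
  intro s₀ hs₀
  -- the segment
  set X : ℝ := |2 - s₀.re| + 1 with hX
  have hX0 : 0 ≤ X := by positivity
  have hX2 : 3 ≤ s₀.re + X := by
    have := le_abs_self (2 - s₀.re)
    rw [hX]; linarith
  set K : Set ℂ := (fun x : ℝ => s₀ + (x : ℂ)) '' Icc 0 X with hK
  have hKc : IsCompact K := isCompact_Icc.image (by fun_prop)
  have hKU : K ⊆ {z | AnalyticAt ℂ F z} := by
    rintro _ ⟨x, hx, rfl⟩
    exact hF _ (hUr s₀ hs₀ x hx.1)
  obtain ⟨ε, hε, hthick⟩ := hKc.exists_cthickening_subset_open (isOpen_analyticAt ℂ F) hKU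
  set δ := min (ε / 4) (1 / 4) with hδd
  have hδ : 0 < δ := lt_min (by positivity) (by norm_num)
  have hδ1 : δ ≤ ε / 4 := min_le_left _ _
  have hδ2 : δ ≤ 1 / 4 := min_le_right _ _
  -- the rectangle
  set R : Set ℂ := {s : ℂ | s₀.re - δ ≤ s.re ∧ s.re ≤ s₀.re + X ∧ |s.im - s₀.im| ≤ 2 * δ} with hR
  have hRK : R ⊆ Metric.cthickening ε K := by
    rintro s ⟨h1, h2, h3⟩
    refine Metric.mem_cthickening_of_dist_le s (s₀ + ((max 0 (s.re - s₀.re) : ℝ) : ℂ)) ε K
      ⟨max 0 (s.re - s₀.re), ⟨le_max_left _ _, max_le hX0 (by linarith)⟩, rfl⟩ ?_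
    rw [Complex.dist_eq]
    have h4 := Complex.norm_le_abs_re_add_abs_im (s - (s₀ + ((max 0 (s.re - s₀.re) : ℝ) : ℂ)))
    have h5 : (s - (s₀ + ((max 0 (s.re - s₀.re) : ℝ) : ℂ))).im = s.im - s₀.im := by simp
    have h6 : |(s - (s₀ + ((max 0 (s.re - s₀.re) : ℝ) : ℂ))).re| ≤ δ := by
      rw [Complex.sub_re, Complex.add_re, Complex.ofReal_re, abs_le]
      rcases le_total 0 (s.re - s₀.re) with h7 | h7
      · rw [max_eq_right h7]; constructor <;> linarith
      · rw [max_eq_left h7]; constructor <;> linarith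
    rw [h5] at h4
    linarith
  have hRc : IsCompact R := by
    refine Metric.isCompact_of_isClosed_isBounded ?_ ?_
    · exact (isClosed_le continuous_const Complex.continuous_re).inter
        ((isClosed_le Complex.continuous_re continuous_const).inter
          (isClosed_le ((Complex.continuous_im.sub continuous_const).abs) continuous_const))
    · refine Bornology.IsBounded.subset (Metric.isBounded_closedBall (x := s₀) (r := X + 2)) ?_
      rintro s ⟨h1, h2, h3⟩
      rw [mem_closedBall_iff_norm]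
      have h4 := Complex.norm_le_abs_re_add_abs_im (s - s₀)
      have h5 : |(s - s₀).re| ≤ X + 1 := by
        rw [Complex.sub_re]
        exact abs_le.2 ⟨by linarith, by linarith⟩
      rw [Complex.sub_im] at h4
      linarith
  have hRa : ∀ s ∈ R, AnalyticAt ℂ F s := fun s hs => hthick (hRK hs)
  obtain ⟨M₁, hM₁⟩ := hRc.exists_bound_of_continuousOn (f := F)
    fun s hs => (hRa s hs).continuousAt.continuousWithinAt
  -- the right half-plane
  have hopen : IsOpen {z : ℂ | σ < z.re} := isOpen_lt continuous_const Complex.continuous_re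
  have hright : ∀ s : ℂ, 2 ≤ s.re → ‖F s‖ ≤ ∑' n, ‖LSeries.term a 2 n‖ := by
    intro s hs
    rw [hFL s (by linarith)]
    unfold LSeries
    refine tsum_of_norm_bounded (summ_of h (s := 2) (by simpa using hσ)).hasSum fun n => ?_
    exact LSeries.norm_term_le_of_re_le_re a (by simpa using hs) n
  set M := max M₁ (∑' n, ‖LSeries.term a 2 n‖) with hMd
  have hLd : ∀ s : ℂ, σ < s.re → DifferentiableAt ℂ F s := by
    intro s hs
    have h1 : F =ᶠ[𝓝 s] LSeries a := by
      filter_upwards [hopen.mem_nhds hs] with z hz using hFL z hz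
    refine h1.differentiableAt_iff.2 ?_
    refine (LSeries_differentiableOn a).differentiableAt ?_
    · refine (isOpen_lt continuous_const (continuous_coe_real_ereal.comp Complex.continuous_re) :
        IsOpen {s : ℂ | LSeries.abscissaOfAbsConv a < ((s.re : ℝ) : EReal)}).mem_nhds ?_
      have h2 : LSeries.abscissaOfAbsConv a ≤ (((σ + s.re) / 2 : ℝ) : EReal) := by
        refine LSeries.abscissaOfAbsConv_le_of_forall_lt_LSeriesSummable fun y hy => ?_
        exact h y (by rw [Complex.ofReal_re]; linarith)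
      refine h2.trans_lt ?_
      exact_mod_cast (by linarith : (σ + s.re) / 2 < s.re)
  refine ⟨Metric.ball s₀ δ, Metric.ball_mem_nhds s₀ hδ, (Real.exp (Real.exp 0) + 1) * M,
    max 1 (4 / δ), fun T hT s hs => ?_⟩
  have hT1 : 1 ≤ T := (le_max_left _ _).trans hT
  have hT2 : 4 / δ ≤ T := (le_max_right _ _).trans hT
  have hT0 : 0 < T := by linarith
  have hpiT : Real.pi / T ≤ δ := by
    rw [div_le_iff₀ hT0]
    rw [div_le_iff₀ hδ] at hT2
    have := Real.pi_lt_four
    linarith
  have hs' : ‖s - s₀‖ < δ := by rwa [Metric.mem_ball, Complex.dist_eq] at hs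
  have hsre : |s.re - s₀.re| < δ := by
    have := Complex.abs_re_le_norm (s - s₀)
    rw [Complex.sub_re] at this
    linarith
  have hsim : |s.im - s₀.im| < δ := by
    have := Complex.abs_im_le_norm (s - s₀)
    rw [Complex.sub_im] at this
    linarith
  refine SS_core h hσ hFL hT0 fun z hz => ?_
  have hre : (s + z / T).re = s.re + z.re / T := by simp
  have him : (s + z / T).im = s.im + z.im / T := by simp
  have hz0 : 0 ≤ z.re / T := div_nonneg hz.1 hT0.le
  have hsre' := abs_lt.1 hsre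
  by_cases h4 : (s + z / T).re ≤ s₀.re + X
  · have h5 : s + z / T ∈ R := by
      refine ⟨?_, h4, ?_⟩
      · rw [hre]; linarith
      · rw [him]
        have h6 : |z.im / T| ≤ Real.pi / T := by
          rw [abs_div, abs_of_pos hT0]
          exact div_le_div_of_nonneg_right hz.2 hT0.le
        have h7 : s.im + z.im / T - s₀.im = (s.im - s₀.im) + z.im / T := by ring
        rw [h7]
        refine (abs_add_le _ _).trans ?_
        linarith
    exact ⟨(hRa _ h5).differentiableAt, (hM₁ _ h5).trans (le_max_left _ _)⟩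
  · push Not at h4
    exact ⟨hLd _ (by linarith), (hright _ (by linarith)).trans (le_max_right _ _)⟩

/-- **the criterion** -/
theorem lb_iff (h : ∀ s : ℂ, σ < s.re → LSeriesSummable a s) (hσ : σ < 2) {U : Set ℂ}
    (hU : IsOpen U) (hUr : RC U) : LB a U ↔
      ∃ F : ℂ → ℂ, (∀ s ∈ U, AnalyticAt ℂ F s) ∧ ∀ s : ℂ, σ < s.re → F s = LSeries a s :=
  ⟨fun hb => cont_of_lb h hσ hU hb, fun ⟨_, h1, h2⟩ => lb_of_cont h hσ hUr h1 h2⟩

end Pool.Agent.E8helper25.LT
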