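import Pool.Agent.E8helper25.LT.ECW
import Pool.Agent.E8helper25.LT.Star

/-! Elliptic curves over number fields: the criterion in terms of the numbers of points. -/

set_option autoImplicit false

namespace Pool.Agent.E8helper25.LT

open Complex MeasureTheory Filter Topology Set Asymptotics IsDedekindDomain NumberField
open Pool.Agent.W189.ML Pool.Agent.W189.LC Pool.Agent.W187.S2 Pool.Agent.W189.NF
open Pool.Agent.W187.UR (Lam)
open Pool.Agent.H921R2.TatePole (nm two_le_nm nm_summable)

variable {K : Type} [Field K] [NumberField K] (E : WeierstrassCurve K)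

/-- the number of nonsingular points over the residue field -/
noncomputable def n1 (v : HeightOneSpectrum (𝓞 K)) : ℝ := qn v - aV E v + eV E v / qn v

/-- the same for the quadratic twist -/
noncomputable def n2 (v : HeightOneSpectrum (𝓞 K)) : ℝ := qn v + aV E v + eV E v / qn v

theorem n_pos (v : HeightOneSpectrum (𝓞 K)) : 0 < n1 E v ∧ 0 < n2 E v := by
  have hq := qn_two v
  have hq0 := qn_pos v
  have ha : |((aV E v : ℤ) : ℝ)| ≤ qn v := by
    have := aV_le E v
    unfold qn
    exact_mod_cast this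
  have ha' := abs_le.1 ha
  unfold n1 n2
  rcases ae_cases E v with h | ⟨h, h1⟩
  · have h2 : ((eV E v : ℤ) : ℝ) = qn v := by rw [h]; simp [qn]
    rw [h2, div_self hq0.ne']
    constructor <;> linarith [ha'.1, ha'.2]
  · rw [h, Int.cast_zero, zero_div, add_zero, add_zero]
    rcases h1 with h1 | h1 | h1 <;> rw [h1] <;> push_cast <;> constructor <;> linarith

/-- the logarithms -/
noncomputable def lA (v : HeightOneSpectrum (𝓞 K)) : ℝ := Real.log (n1 E v / qn v)
noncomputable def lB (v : HeightOneSpectrum (𝓞 K)) : ℝ := Real.log (n2 E v / qn v)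
noncomputable def zA (v : HeightOneSpectrum (𝓞 K)) : ℝ := Real.log ((qn v - 1) / qn v)
noncomputable def zB (v : HeightOneSpectrum (𝓞 K)) : ℝ := Real.log ((qn v + 1) / qn v)

/-- the term for the combination of two logarithms -/
noncomputable def tt (c T : ℝ) (v : HeightOneSpectrum (𝓞 K)) (x y : ℝ) : ℂ :=
  (kk c (Real.log (qn v) / T) + kk c (2 * (Real.log (qn v) / T))) / 2 * x +
    (kk c (2 * (Real.log (qn v) / T)) - kk c (Real.log (qn v) / T)) / 2 * y

/-- the term -/
noncomputable def tE (r : ℕ) (c T : ℝ) (v : HeightOneSpectrum (𝓞 K)) : ℂ :=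
  tt c T v (Real.log (n1 E v * (qn v - 1) ^ r / qn v ^ (1 + r)))
    (Real.log (n2 E v * (qn v + 1) ^ r / qn v ^ (1 + r)))

theorem log_A (r : ℕ) (v : HeightOneSpectrum (𝓞 K)) :
    Real.log (n1 E v * (qn v - 1) ^ r / qn v ^ (1 + r)) = lA E v + r * zA v := by
  have hq := qn_two v
  have hq0 := qn_pos v
  have h1 := (n_pos E v).1
  unfold lA zA
  rw [← Real.log_pow, ← Real.log_mul (by positivity)
    (pow_ne_zero _ (div_ne_zero (by linarith) hq0.ne'))]
  congr 1
  rw [div_pow, pow_add, pow_one]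
  field_simp

theorem log_B (r : ℕ) (v : HeightOneSpectrum (𝓞 K)) :
    Real.log (n2 E v * (qn v + 1) ^ r / qn v ^ (1 + r)) = lB E v + r * zB v := by
  have hq := qn_two v
  have hq0 := qn_pos v
  have h1 := (n_pos E v).2
  unfold lB zB
  rw [← Real.log_pow, ← Real.log_mul (by positivity)
    (pow_ne_zero _ (div_ne_zero (by linarith) hq0.ne'))]
  congr 1
  rw [div_pow, pow_add, pow_one]
  field_simp

theorem P1_eq (v : HeightOneSpectrum (𝓞 K)) :
    (1 - av E v 0 / (qn v : ℂ)) * (1 - av E v 1 / (qn v : ℂ)) = ((n1 E v / qn v : ℝ) : ℂ) ∧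
    (1 + av E v 0 / (qn v : ℂ)) * (1 + av E v 1 / (qn v : ℂ)) = ((n2 E v / qn v : ℝ) : ℂ) := by
  have hq0 := qn_pos v
  have hqc : (qn v : ℂ) ≠ 0 := by exact_mod_cast hq0.ne'
  have h1 := rr_poly (aV E v) (eV E v) (1 / (qn v : ℂ))
  have h2 := rr_poly (aV E v) (eV E v) (-(1 / (qn v : ℂ)))
  constructor
  · have e : (1 - av E v 0 / (qn v : ℂ)) * (1 - av E v 1 / (qn v : ℂ)) =
      (1 - rr (aV E v) (eV E v) 0 * (1 / (qn v : ℂ))) *
        (1 - rr (aV E v) (eV E v) 1 * (1 / (qn v : ℂ))) := by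
      unfold av; ring
    rw [e, h1]
    unfold n1
    push_cast
    field_simp
  · have e : (1 + av E v 0 / (qn v : ℂ)) * (1 + av E v 1 / (qn v : ℂ)) =
      (1 - rr (aV E v) (eV E v) 0 * (-(1 / (qn v : ℂ)))) *
        (1 - rr (aV E v) (eV E v) 1 * (-(1 / (qn v : ℂ)))) := by
      unfold av; ring
    rw [e, h2]
    unfold n2
    push_cast
    field_simp
    ring

theorem re_log2 {x y : ℂ} {A : ℝ} (hA : 0 < A) (h : x * y = (A : ℂ)) :
    (log x + log y).re = Real.log A := by
  have hx : x ≠ 0 := by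
    rintro rfl
    rw [zero_mul] at h
    exact hA.ne' (by exact_mod_cast h.symm)
  have hy : y ≠ 0 := by
    rintro rfl
    rw [mul_zero] at h
    exact hA.ne' (by exact_mod_cast h.symm)
  rw [Complex.add_re, Complex.log_re, Complex.log_re, ← Real.log_mul (norm_ne_zero_iff.2 hx)
    (norm_ne_zero_iff.2 hy), ← norm_mul, h, Complex.norm_real, Real.norm_of_nonneg hA.le]

open Classical in
theorem l1_K (r : ℕ) (v : HeightOneSpectrum (𝓞 K)) :
    l1 (ba (bE E) bZK r) v = (if Exc E v then 0 else lA E v) + r * zA v := by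
  have hq := qn_two v
  have hq0 := qn_pos v
  unfold l1 ba
  rw [Fin.sum_univ_add]
  simp only [Fin.append_left, Fin.append_right, Finset.sum_const, Finset.card_univ,
    Fintype.card_fin, nsmul_eq_mul]
  have e4 : log (1 - bZK v 0) = ((zA v : ℝ) : ℂ) := by
    unfold bZK zA
    rw [Complex.ofReal_log (div_nonneg (by linarith) hq0.le)]
    congr 1
    push_cast
    have : (qn v : ℂ) ≠ 0 := by exact_mod_cast hq0.ne'
    field_simp
  rw [e4, Complex.add_re, ← Complex.ofReal_natCast, ← Complex.ofReal_mul, Complex.ofReal_re]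
  congr 1
  rw [Fin.sum_univ_two]
  by_cases h : Exc E v
  · rw [if_pos h]
    unfold bE
    rw [if_pos h, if_pos h]
    simp
  · rw [if_neg h]
    have h1 := (P1_eq E v).1
    unfold lA
    refine re_log2 (div_pos (n_pos E v).1 hq0) ?_
    rw [← h1]
    unfold bE
    rw [if_neg h, if_neg h]

open Classical in
theorem l2_K (r : ℕ) (v : HeightOneSpectrum (𝓞 K)) :
    l2 (ba (bE E) bZK r) v = (if Exc E v then 0 else lA E v + lB E v) + r * (zA v + zB v) := by
  have hq := qn_two v
  have hq0 := qn_pos v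
  unfold l2 ba
  rw [Fin.sum_univ_add]
  simp only [Fin.append_left, Fin.append_right, Finset.sum_const, Finset.card_univ,
    Fintype.card_fin, nsmul_eq_mul]
  have h0 : (0 : ℝ) < (qn v - 1) / qn v := div_pos (by linarith) hq0
  have h0' : (0 : ℝ) < (qn v + 1) / qn v := div_pos (by linarith) hq0
  have e4 : log (1 - bZK v 0 ^ 2) = ((zA v + zB v : ℝ) : ℂ) := by
    unfold bZK zA zB
    rw [← Real.log_mul h0.ne' h0'.ne', Complex.ofReal_log (by positivity)]
    congr 1
    push_cast
    have : (qn v : ℂ) ≠ 0 := by exact_mod_cast hq0.ne'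
    field_simp
    ring
  rw [e4, Complex.add_re, ← Complex.ofReal_natCast, ← Complex.ofReal_mul, Complex.ofReal_re]
  congr 1
  rw [Fin.sum_univ_two]
  by_cases h : Exc E v
  · rw [if_pos h]
    unfold bE
    rw [if_pos h, if_pos h]
    simp
  · rw [if_neg h]
    have h1 := (P1_eq E v).1
    have h2 := (P1_eq E v).2
    have hA := div_pos (n_pos E v).1 hq0
    have hB := div_pos (n_pos E v).2 hq0
    unfold lA lB
    rw [← Real.log_mul hA.ne' hB.ne']
    refine re_log2 (mul_pos hA hB) ?_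
    rw [Complex.ofReal_mul, ← h1, ← h2]
    unfold bE
    rw [if_neg h, if_neg h]
    ring

open Classical in
/-- the exceptional term -/
noncomputable def ex (c T : ℝ) (v : HeightOneSpectrum (𝓞 K)) : ℂ :=
  if Exc E v then tt c T v (lA E v) (lB E v) else 0

theorem tE_eq (r : ℕ) (c T : ℝ) (v : HeightOneSpectrum (𝓞 K)) :
    tE E r c T v = wt qn (ba (bE E) bZK r) c T v + ex E c T v := by
  unfold tE ex wt tt
  rw [log_A, log_B, l1_K, l2_K]
  split_ifs with h
  · push_cast; ring
  · push_cast; ring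

/-- the sum -/
noncomputable def WE (r : ℕ) (c T : ℝ) : ℂ := ∑' v, tE E r c T v

/-- the sum over the exceptional places -/
noncomputable def exS (c T : ℝ) : ℂ := ∑ v ∈ (exc_finite E).toFinset, tt c T v (lA E v) (lB E v)

theorem ex_hasSum (c T : ℝ) : HasSum (ex E c T) (exS E c T) := by
  classical
  have h1 := hasSum_sum_of_ne_finset_zero (f := ex E c T) (s := (exc_finite E).toFinset)
    (L := SummationFilter.unconditional _) (fun v hv => by
      have : ¬ Exc E v := by
        intro h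
        apply hv
        rw [Set.Finite.mem_toFinset]
        exact h
      unfold ex
      exact if_neg this)
  have h2 : ∑ v ∈ (exc_finite E).toFinset, ex E c T v = exS E c T := by
    unfold exS
    refine Finset.sum_congr rfl fun v hv => ?_
    rw [Set.Finite.mem_toFinset] at hv
    unfold ex
    rw [if_pos (show Exc E v from hv)]
  rw [h2] at h1
  exact h1

theorem tE_summ (r : ℕ) (c : ℝ) {T : ℝ} (hT : 0 < T) : Summable fun v => ‖tE E r c T v‖ := by
  have h1 := (lp_ba (lpE E) (lpZ (K := K)) r).wt_summ c hT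
  have h2 : Summable fun v => ‖ex E c T v‖ := (ex_hasSum E c T).summable.norm
  refine Summable.of_nonneg_of_le (fun v => norm_nonneg _) (fun v => ?_) (h1.add h2)
  rw [tE_eq]
  exact norm_add_le _ _

theorem WE_eq (r : ℕ) (c : ℝ) {T : ℝ} (hT : 0 < T) :
    WE E r c T = WW qn (ba (bE E) bZK r) c T + exS E c T := by
  have h1 := ((lp_ba (lpE E) (lpZ (K := K)) r).wt_summ c hT).of_norm
  have h2 := h1.hasSum.add (ex_hasSum E c T)
  unfold WE WW
  rw [← h2.tsum_eq]
  exact tsum_congr fun v => tE_eq E r c T v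

section asym

theorem om_diff : DifferentiableAt ℝ om 0 := by
  unfold om
  refine DifferentiableAt.inv ?_ (by simp)
  have h1 : DifferentiableAt ℝ Real.Gamma (1 + 0) := by
    refine Real.differentiableAt_Gamma fun m => ?_
    have : (0 : ℝ) ≤ m := Nat.cast_nonneg m
    simp only [add_zero]
    linarith
  exact DifferentiableAt.comp (g := Real.Gamma) (f := fun u : ℝ => 1 + u) 0 h1 (by fun_prop)

theorem kk_O (c l : ℝ) : (fun T : ℝ => kk c (l / T) - 1) =O[atTop] (fun T : ℝ => 1 / T) := by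
  have h1 : DifferentiableAt ℝ (kk c) 0 := by
    unfold kk
    refine DifferentiableAt.mul ?_ ?_
    · have h2 : DifferentiableAt ℝ (fun u : ℝ => ((c * u : ℝ) : ℂ) * I) 0 := by
        have h3 : DifferentiableAt ℝ (fun u : ℝ => ((c * u : ℝ) : ℂ)) 0 := by
          have h4 : HasDerivAt (fun u : ℝ => ((c * u : ℝ) : ℂ)) ((c * 1 : ℝ) : ℂ) 0 :=
            ((hasDerivAt_id (0 : ℝ)).const_mul c).ofReal_comp
          exact h4.differentiableAt
        exact h3.mul_const I
      exact h2.cexp
    · have h4 := om_diff.hasDerivAt.ofReal_comp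
      exact h4.differentiableAt
  have h2 := h1.isBigO_sub
  rw [kk_zero] at h2
  have h3 : Tendsto (fun T : ℝ => l / T) atTop (𝓝 0) := tendsto_const_nhds.div_atTop tendsto_id
  have h4 := h2.comp_tendsto h3
  refine h4.trans ?_
  refine IsBigO.of_bound |l| (Eventually.of_forall fun T => ?_)
  simp only [Function.comp_apply, sub_zero, Real.norm_eq_abs, abs_div, abs_one]
  rw [mul_one_div]

theorem tt_O (c : ℝ) (v : HeightOneSpectrum (𝓞 K)) (x y : ℝ) :
    (fun T : ℝ => tt c T v x y - (x : ℂ)) =O[atTop] (fun T : ℝ => 1 / T) := by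
  have h1 := kk_O c (Real.log (qn v))
  have h2 : (fun T : ℝ => kk c (2 * (Real.log (qn v) / T)) - 1) =O[atTop] (fun T : ℝ => 1 / T) := by
    have := kk_O c (2 * Real.log (qn v))
    refine this.congr_left fun T => ?_
    rw [mul_div_assoc]
  have h3 := ((h1.add h2).const_mul_left ((x : ℂ) / 2)).add ((h2.sub h1).const_mul_left ((y : ℂ) / 2))
  refine h3.congr_left fun T => ?_
  unfold tt
  ring

theorem exS_O (c : ℝ) : (fun T : ℝ => exS E c T - ((∑ v ∈ (exc_finite E).toFinset, lA E v : ℝ) : ℂ))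
    =O[atTop] (fun T : ℝ => 1 / T) := by
  have h1 := IsBigO.sum (s := (exc_finite E).toFinset) (l := atTop) (g := fun T : ℝ => 1 / T)
    (A := fun v (T : ℝ) => tt c T v (lA E v) (lB E v) - (lA E v : ℂ)) fun v _ => tt_O c v _ _
  refine h1.congr_left fun T => ?_
  unfold exS
  rw [Finset.sum_apply, Finset.sum_sub_distrib, Complex.ofReal_sum]

theorem inv_T : Tendsto (fun T : ℝ => 1 / T) atTop (𝓝 0) :=
  tendsto_const_nhds.div_atTop tendsto_id

theorem exp_exS_O (c : ℝ) : (fun T : ℝ => exp (exS E c T) - PE E 1) =O[atTop] (fun T : ℝ => 1 / T) := by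
  have h1 := exS_O E c
  set L : ℂ := ((∑ v ∈ (exc_finite E).toFinset, lA E v : ℝ) : ℂ) with hL
  have h2 : Tendsto (exS E c) atTop (𝓝 L) := by
    have h3 := (h1.trans_tendsto inv_T).add_const L
    simpa using h3
  have h3 : (fun z : ℂ => exp z - exp L) =O[𝓝 L] fun z => z - L :=
    (Complex.hasDerivAt_exp L).differentiableAt.isBigO_sub
  have h4 : exp L = PE E 1 := by
    rw [hL]
    unfold PE
    push_cast
    rw [Complex.exp_sum]
    refine Finset.prod_congr rfl fun v _ => ?_
    have hq0 := qn_pos v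
    unfold lA
    rw [← Complex.ofReal_exp, Real.exp_log (div_pos (n_pos E v).1 hq0), ← (P1_eq E v).1, Pv_eq,
      Fin.prod_univ_two]
    have h5 : (nm v : ℂ) ^ (-(1 : ℂ)) = 1 / (qn v : ℂ) := by
      rw [Complex.cpow_neg_one, one_div]
      unfold qn
      rw [Complex.ofReal_natCast]
    rw [h5]
    ring
  rw [← h4]
  exact (h3.comp_tendsto h2).trans h1

theorem mul_O {f u : ℝ → ℂ} {X P : ℂ} (h1 : (fun T => f T - X) =O[atTop] fun T : ℝ => 1 / T)
    (h2 : (fun T => u T - P) =O[atTop] fun T : ℝ => 1 / T) :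
    (fun T => f T * u T - X * P) =O[atTop] fun T : ℝ => 1 / T := by
  have h3 : Tendsto f atTop (𝓝 X) := by
    have := (h1.trans_tendsto inv_T).add_const X
    simpa using this
  have h4 : (fun T => f T * (u T - P)) =O[atTop] fun T : ℝ => 1 * (1 / T) :=
    (h3.isBigO_one ℝ).mul h2
  have h5 : (fun T => (f T - X) * P) =O[atTop] fun T : ℝ => 1 / T := by
    have := h1.const_mul_left P
    exact this.congr_left fun T => mul_comm _ _
  simp only [one_mul] at h4
  exact (h4.add h5).congr_left fun T => by ring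

theorem inv_O {u : ℝ → ℂ} {P : ℂ} (hP : P ≠ 0) (hu : ∀ T, u T ≠ 0)
    (h2 : (fun T => u T - P) =O[atTop] fun T : ℝ => 1 / T) :
    (fun T => (u T)⁻¹ - P⁻¹) =O[atTop] fun T : ℝ => 1 / T := by
  have h3 : Tendsto u atTop (𝓝 P) := by
    have := (h2.trans_tendsto inv_T).add_const P
    simpa using this
  have h4 : (fun T => -((u T)⁻¹ * P⁻¹) * (u T - P)) =O[atTop] fun T : ℝ => 1 * (1 / T) :=
    (((h3.inv₀ hP).mul_const P⁻¹).neg.isBigO_one ℝ).mul h2
  simp only [one_mul] at h4
  refine h4.congr_left fun T => ?_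
  have := hu T
  field_simp
  ring

end asym

section crit

variable {F : ℂ → ℂ}

/-- **the criterion over number fields** -/
theorem k_crit (hFL : ∀ s : ℂ, 3 / 2 < s.re → F s = E.LSeries s)
    (hFm : ∀ x ∈ Icc (1 : ℝ) (3 / 2), MeromorphicAt F (x : ℂ)) (ρ : ℕ) {B : ℂ} (hB : B ≠ 0) :
    List.TFAE [
      Tendsto (fun s => F s / (s - 1) ^ ρ) (𝓝[≠] 1) (𝓝 B),
      ∃ c : ℝ, Real.pi / 2 < c ∧ ∃ T : ℕ → ℝ, Tendsto T atTop atTop ∧
        Tendsto (fun n => exp (WE E 0 c (T n)) / (T n : ℂ) ^ ρ) atTop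
          (𝓝 (exp (-(ρ * Lam c)) / B)),
      ∀ c : ℝ, Real.pi / 2 < c →
        (fun T : ℝ => exp (WE E 0 c T) / (T : ℂ) ^ ρ - exp (-(ρ * Lam c)) / B) =O[atTop]
          (fun T : ℝ => 1 / T),
      ∃ c : ℝ, Real.pi / 2 < c ∧ ∃ T : ℕ → ℝ, Tendsto T atTop atTop ∧
        Tendsto (fun n => exp (WE E ρ c (T n))) atTop
          (𝓝 (1 / (B * (dedekindZeta_residue K : ℂ) ^ ρ))),
      ∀ c : ℝ, Real.pi / 2 < c →
        (fun T : ℝ => exp (WE E ρ c T) - 1 / (B * (dedekindZeta_residue K : ℂ) ^ ρ)) =O[atTop]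
          (fun T : ℝ => 1 / T)] := by
  obtain ⟨Z, hZ1, hZ2, hZ3⟩ := exists_zeta K
  have hκ : (dedekindZeta_residue K : ℂ) ≠ 0 := by
    exact_mod_cast dedekindZeta_residue_ne_zero K
  have hP1 : PE E 1 ≠ 0 := PE_ne E (by simp)
  have hF1 : ∀ w : ℂ, 1 / 2 < w.re → (fun s => F s * PE E s) (1 + w) = exp (gg qn (bE E) w) := by
    intro w hw
    simp only
    rw [hFL _ (by rw [Complex.add_re, Complex.one_re]; linarith), LS_gg E hw]
  have hB1 : B * PE E 1 ≠ 0 := mul_ne_zero hB hP1
  have key := g_crit (F := fun s => F s * PE E s) (Z := Z) (lpE E) (lpZ (K := K)) hF1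
    (fun x hx => (hFm x hx).mul (PE_analytic E _).meromorphicAt)
    (fun w hw => zeta_gg (K := K) hw hZ1) (fun x hx => hZ2 x hx.1) hκ hZ3 ρ hB1
  -- the first item
  have i1 : Tendsto (fun s => F s / (s - 1) ^ ρ) (𝓝[≠] 1) (𝓝 B) ↔
      Tendsto (fun s => F s * PE E s / (s - 1) ^ ρ) (𝓝[≠] 1) (𝓝 (B * PE E 1)) := by
    have hPt : Tendsto (PE E) (𝓝[≠] 1) (𝓝 (PE E 1)) :=
      (PE_analytic E 1).continuousAt.tendsto.mono_left nhdsWithin_le_nhds
    constructor
    · intro h
      refine (h.mul hPt).congr fun s => ?_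
      ring
    · intro h
      have h2 := h.div hPt hP1
      rw [mul_div_assoc, div_self hP1, mul_one] at h2
      refine h2.congr' ?_
      filter_upwards [hPt.eventually_ne hP1] with s hs
      simp only [Pi.div_apply]
      field_simp
  have hexc : ∀ c : ℝ, Tendsto (fun T => exp (exS E c T)) atTop (𝓝 (PE E 1)) := by
    intro c
    have := ((exp_exS_O E c).trans_tendsto inv_T).add_const (PE E 1)
    simpa using this
  -- sequences
  have iseq : ∀ (ρ' : ℕ) (m : ℕ) (X : ℂ) (c : ℝ) (T : ℕ → ℝ), Tendsto T atTop atTop →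
      (Tendsto (fun n => exp (WE E ρ' c (T n)) / (T n : ℂ) ^ m) atTop (𝓝 X) ↔
        Tendsto (fun n => exp (WW qn (ba (bE E) bZK ρ') c (T n)) / (T n : ℂ) ^ m) atTop
          (𝓝 (X / PE E 1))) := by
    intro ρ' m X c T hT
    have h1 := (hexc c).comp hT
    have h2 : ∀ᶠ n in atTop, exp (WE E ρ' c (T n)) / (T n : ℂ) ^ m =
        exp (WW qn (ba (bE E) bZK ρ') c (T n)) / (T n : ℂ) ^ m * exp (exS E c (T n)) := by
      filter_upwards [hT.eventually_gt_atTop 0] with n hn
      rw [WE_eq E ρ' c hn, Complex.exp_add]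
      ring
    constructor
    · intro h
      have h3 := h.div h1 hP1
      refine h3.congr' ?_
      filter_upwards [h2] with n hn
      simp only [Pi.div_apply, Function.comp_apply]
      rw [hn]
      have := Complex.exp_ne_zero (exS E c (T n))
      field_simp
    · intro h
      have h3 := h.mul h1
      rw [div_mul_cancel₀ _ hP1] at h3
      refine h3.congr' ?_
      filter_upwards [h2] with n hn
      rw [hn]
      rfl
  have iO : ∀ (ρ' : ℕ) (m : ℕ) (X : ℂ) (c : ℝ),
      ((fun T : ℝ => exp (WE E ρ' c T) / (T : ℂ) ^ m - X) =O[atTop] (fun T : ℝ => 1 / T) ↔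
        (fun T : ℝ => exp (WW qn (ba (bE E) bZK ρ') c T) / (T : ℂ) ^ m - X / PE E 1) =O[atTop]
          (fun T : ℝ => 1 / T)) := by
    intro ρ' m X c
    have h2 : ∀ᶠ T in atTop, exp (WE E ρ' c T) / (T : ℂ) ^ m =
        exp (WW qn (ba (bE E) bZK ρ') c T) / (T : ℂ) ^ m * exp (exS E c T) := by
      filter_upwards [eventually_gt_atTop 0] with T hn
      rw [WE_eq E ρ' c hn, Complex.exp_add]
      ring
    constructor
    · intro h
      have h3 := mul_O h (inv_O hP1 (fun T => Complex.exp_ne_zero (exS E c T)) (exp_exS_O E c))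
      refine h3.congr' ?_ EventuallyEq.rfl
      filter_upwards [h2] with T hn
      rw [hn]
      have := Complex.exp_ne_zero (exS E c T)
      field_simp
    · intro h
      have h3 := mul_O h (exp_exS_O E c)
      rw [div_mul_cancel₀ _ hP1] at h3
      refine h3.congr' ?_ EventuallyEq.rfl
      filter_upwards [h2] with T hn
      rw [hn]
  have e1 : ∀ c : ℝ, exp (-(ρ * Lam c)) / (B * PE E 1) = exp (-(ρ * Lam c)) / B / PE E 1 := by
    intro c; rw [div_div]
  have e2 : 1 / (B * PE E 1 * (dedekindZeta_residue K : ℂ) ^ ρ) =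
      1 / (B * (dedekindZeta_residue K : ℂ) ^ ρ) / PE E 1 := by
    rw [div_div]; congr 1; ring
  rw [e2] at key
  simp only [e1] at key
  tfae_have 1 ↔ 2 := by
    rw [i1]
    refine (key.out 0 1).trans ?_
    refine exists_congr fun c => and_congr_right fun _ => exists_congr fun T =>
      and_congr_right fun hT => ?_
    exact (iseq 0 ρ _ c T hT).symm
  tfae_have 1 ↔ 3 := by
    rw [i1]
    refine (key.out 0 2).trans ?_
    exact forall_congr' fun c => forall_congr' fun _ => (iO 0 ρ _ c).symm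
  tfae_have 1 ↔ 4 := by
    rw [i1]
    refine (key.out 0 3).trans ?_
    refine exists_congr fun c => and_congr_right fun _ => exists_congr fun T =>
      and_congr_right fun hT => ?_
    have := iseq ρ 0 (1 / (B * (dedekindZeta_residue K : ℂ) ^ ρ)) c T hT
    simp only [pow_zero, div_one] at this
    exact this.symm
  tfae_have 1 ↔ 5 := by
    rw [i1]
    refine (key.out 0 4).trans ?_
    refine forall_congr' fun c => forall_congr' fun _ => ?_
    have := iO ρ 0 (1 / (B * (dedekindZeta_residue K : ℂ) ^ ρ)) c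
    simp only [pow_zero, div_one] at this
    exact this.symm
  tfae_finish

end crit

end Pool.Agent.E8helper25.LT
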