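import Pool.Agent.W189.ML.Grow
import Pool.Agent.Helper114.KPlane

/-! Mittag-Leffler sums of a Dirichlet series: they are bounded near a real segment if and only if the
series has an analytic continuation to a neighbourhood of the segment. -/

set_option autoImplicit false

namespace Pool.Agent.E8helper25.LT

open Complex MeasureTheory Filter Topology Set
open Pool.Agent.W189.ML

/-- `∑ a(n) n^{-s} / Γ(1 + log n / T)` -/
noncomputable def SS (a : ℕ → ℂ) (T : ℝ) (s : ℂ) : ℂ :=
  ∑' n : ℕ, LSeries.term a s n / Real.Gamma (1 + Real.log n / T)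

variable {a : ℕ → ℂ} {σ : ℝ}

theorem term_om (s : ℂ) (T : ℝ) (n : ℕ) : LSeries.term a s n / Real.Gamma (1 + Real.log n / T) =
    LSeries.term a s n * (om (Real.log n / T) : ℂ) := by
  unfold om
  rw [div_eq_mul_inv]
  push_cast
  rfl

theorem term_shift (s z : ℂ) (n : ℕ) :
    LSeries.term a (s + z) n = LSeries.term a s n * exp (-(z * Real.log n)) := by
  rcases Nat.eq_zero_or_pos n with rfl | hn
  · simp
  · have hn0 : (n : ℂ) ≠ 0 := by exact_mod_cast hn.ne'
    rw [LSeries.term_of_ne_zero hn.ne', LSeries.term_of_ne_zero hn.ne', Complex.cpow_add _ _ hn0,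
      Complex.cpow_def_of_ne_zero hn0 z, ← Complex.natCast_log, Complex.exp_neg, mul_comm z,
      div_mul_eq_div_div, div_eq_mul_inv (a n / (n : ℂ) ^ s)]

theorem summ_of {s : ℂ} (h : ∀ s : ℂ, σ < s.re → LSeriesSummable a s) (hs : σ < s.re) :
    Summable fun n => ‖LSeries.term a s n‖ := (h s hs).norm

/-- the sums as contour integrals -/
theorem SS_eq (h : ∀ s : ℂ, σ < s.re → LSeriesSummable a s) (hσ : σ < 2) {T : ℝ} (hT : 0 < T)
    {s : ℂ} (hs : 0 ≤ s.re) :
    SS a T s = J (2 * T) (fun z => LSeries a (s + z / T)) := by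
  have hb : (0 : ℝ) ≤ 2 * T := by positivity
  have hre : ∀ z ∈ HS (2 * T), (2 : ℂ).re ≤ (s + z / T).re := by
    intro z hz
    have h1 : (s + z / T).re = s.re + z.re / T := by simp
    have h2 : 2 ≤ z.re / T := by
      rw [le_div_iff₀ hT]
      exact hz.1
    rw [h1]
    simp only [Complex.re_ofNat]
    linarith
  have h1 := J_hasSum (a := 2 * T) hb (F := fun n z => LSeries.term a (s + z / T) n)
    (summ_of h (s := 2) (by simpa using hσ))
    (fun n => ⟨by
      have : (fun z : ℂ => LSeries.term a (s + z / T) n) =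
          fun z => LSeries.term a s n * exp (-(z / T * Real.log n)) := by
        funext z; exact term_shift s (z / T) n
      rw [this]
      fun_prop, ‖LSeries.term a 2 n‖, 0, norm_nonneg _, le_rfl, fun z hz => by
      have := LSeries.norm_term_le_of_re_le_re a (hre z hz) n
      linarith⟩)
    (fun n z hz => LSeries.norm_term_le_of_re_le_re a (hre z hz) n)
  have h2 : ∀ n : ℕ, J (2 * T) (fun z => LSeries.term a (s + z / T) n) =
      LSeries.term a s n / Real.Gamma (1 + Real.log n / T) := by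
    intro n
    have e : (fun z : ℂ => LSeries.term a (s + z / T) n) =
        fun z => LSeries.term a s n * exp (-(z * ((Real.log n / T : ℝ) : ℂ))) := by
      funext z
      rw [term_shift]
      congr 2
      push_cast
      ring
    rw [e, J_const_mul, J_exp, div_eq_mul_inv]
    push_cast
    rfl
  simp only [h2] at h1
  exact h1.tsum_eq

theorem SS_term_le {T : ℝ} (hT : 0 < T) {s : ℂ} (hs : 0 ≤ s.re) (n : ℕ) :
    ‖LSeries.term a s n / Real.Gamma (1 + Real.log n / T)‖ ≤
      (Real.exp (Real.exp (2 * T)) + 1) * ‖LSeries.term a 2 n‖ := by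
  have hl : 0 ≤ Real.log n := Real.log_natCast_nonneg n
  have h1 : 0 ≤ Real.log n / T := div_nonneg hl hT.le
  have h2 := om_le (a := 2 * T) (v := Real.log n / T) (by positivity) h1
  have h3 : 2 * T * (Real.log n / T) = 2 * Real.log n := by field_simp
  rw [h3] at h2
  rw [term_om, norm_mul, Complex.norm_real, Real.norm_eq_abs, abs_of_nonneg (om_nonneg h1)]
  have h4 : ‖LSeries.term a (s + 2) n‖ = ‖LSeries.term a s n‖ * Real.exp (-(2 * Real.log n)) := by
    have e : (-(2 * ((Real.log n : ℝ) : ℂ))) = ((-(2 * Real.log n) : ℝ) : ℂ) := by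
      push_cast
      ring
    rw [term_shift, norm_mul, Complex.norm_exp, e, Complex.ofReal_re]
  have h5 : ‖LSeries.term a (s + 2) n‖ ≤ ‖LSeries.term a 2 n‖ :=
    LSeries.norm_term_le_of_re_le_re a (by simpa using hs) n
  calc ‖LSeries.term a s n‖ * om (Real.log n / T) ≤
      ‖LSeries.term a s n‖ * ((Real.exp (Real.exp (2 * T)) + 1) * Real.exp (-(2 * Real.log n))) :=
        mul_le_mul_of_nonneg_left h2 (norm_nonneg _)
    _ = (Real.exp (Real.exp (2 * T)) + 1) * ‖LSeries.term a (s + 2) n‖ := by rw [h4]; ring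
    _ ≤ _ := mul_le_mul_of_nonneg_left h5 (by positivity)

theorem SS_summable (h : ∀ s : ℂ, σ < s.re → LSeriesSummable a s) (hσ : σ < 2) {T : ℝ}
    (hT : 0 < T) {s : ℂ} (hs : 0 ≤ s.re) :
    Summable fun n : ℕ => ‖LSeries.term a s n / Real.Gamma (1 + Real.log n / T)‖ :=
  Summable.of_nonneg_of_le (fun _ => norm_nonneg _) (SS_term_le hT hs)
    ((summ_of h (s := 2) (by simpa using hσ)).mul_left _)

theorem SS_diff (h : ∀ s : ℂ, σ < s.re → LSeriesSummable a s) (hσ : σ < 2) {T : ℝ}
    (hT : 0 < T) : DifferentiableOn ℂ (SS a T) {s : ℂ | 0 < s.re} := by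
  have hopen : IsOpen {z : ℂ | 0 < z.re} := isOpen_lt continuous_const Complex.continuous_re
  unfold SS
  refine differentiableOn_tsum_of_summable_norm
    ((summ_of h (s := 2) (by simpa using hσ)).mul_left (Real.exp (Real.exp (2 * T)) + 1)) ?_ hopen
    (fun n s hs => SS_term_le hT (le_of_lt hs) n)
  intro n
  rcases Nat.eq_zero_or_pos n with rfl | hn
  · simp only [LSeries.term_zero, zero_div]
    exact differentiableOn_const 0
  · have hn0 : (n : ℂ) ≠ 0 := by exact_mod_cast hn.ne'
    simp only [LSeries.term_of_ne_zero hn.ne']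
    intro s _
    have h1 : DifferentiableAt ℂ (fun s : ℂ => (n : ℂ) ^ s) s := by
      have := (hasDerivAt_id s).const_cpow (c := (n : ℂ)) (Or.inl hn0)
      exact this.differentiableAt
    have h2 : (n : ℂ) ^ s ≠ 0 := by
      rw [Complex.cpow_def_of_ne_zero hn0]
      exact Complex.exp_ne_zero _
    exact (((differentiableAt_const _).div h1 h2).div_const _).differentiableWithinAt

theorem SS_bound (h : ∀ s : ℂ, σ < s.re → LSeriesSummable a s) {T : ℝ}
    (hT : 0 < T) {x : ℝ} (hx : σ < x) {s : ℂ} (hs : x ≤ s.re) :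
    ‖SS a T s‖ ≤ (Real.exp 1 + 1) * ∑' n, ‖LSeries.term a (x : ℂ) n‖ := by
  have h1 := (summ_of h (s := (x : ℂ)) (by simpa using hx)).mul_left (Real.exp 1 + 1)
  rw [← tsum_mul_left]
  refine tsum_of_norm_bounded h1.hasSum fun n => ?_
  have hl : 0 ≤ Real.log n / T := div_nonneg (Real.log_natCast_nonneg n) hT.le
  rw [term_om, norm_mul, Complex.norm_real, Real.norm_eq_abs, abs_of_nonneg (om_nonneg hl), mul_comm]
  exact mul_le_mul (om_le_const hl) (LSeries.norm_term_le_of_re_le_re a (by simpa using hs) n)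
    (norm_nonneg _) (by positivity)

theorem om_tendsto (l : ℝ) : Tendsto (fun T : ℝ => om (l / T)) atTop (𝓝 1) := by
  have h1 : ContinuousAt om 0 := by
    unfold om
    refine ContinuousAt.inv₀ ?_ (by simp)
    refine ContinuousAt.comp (g := Real.Gamma) (f := fun u : ℝ => 1 + u) ?_ (by fun_prop)
    refine (Real.differentiableAt_Gamma fun m => ?_).continuousAt
    have : (0 : ℝ) ≤ m := Nat.cast_nonneg m
    simp only [add_zero]
    linarith
  have h2 := h1.tendsto
  have h3 : om 0 = 1 := by unfold om; simp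
  rw [h3] at h2
  exact h2.comp (tendsto_const_nhds.div_atTop tendsto_id)

theorem SS_tendsto (h : ∀ s : ℂ, σ < s.re → LSeriesSummable a s) {s : ℂ} (hs : σ < s.re) :
    Tendsto (fun T : ℝ => SS a T s) atTop (𝓝 (LSeries a s)) := by
  unfold SS LSeries
  refine tendsto_tsum_of_dominated_convergence
    (bound := fun n => (Real.exp 1 + 1) * ‖LSeries.term a s n‖) ((summ_of h hs).mul_left _) ?_ ?_
  · intro n
    simp only [term_om]
    have h1 : Tendsto (fun T : ℝ => ((om (Real.log n / T) : ℝ) : ℂ)) atTop (𝓝 ((1 : ℝ) : ℂ)) :=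
      (Complex.continuous_ofReal.tendsto 1).comp (om_tendsto _)
    have h2 := h1.const_mul (LSeries.term a s n)
    simpa using h2
  · filter_upwards [eventually_gt_atTop 0] with T hT n
    have hl : 0 ≤ Real.log n / T := div_nonneg (Real.log_natCast_nonneg n) hT.le
    rw [term_om, norm_mul, Complex.norm_real, Real.norm_eq_abs, abs_of_nonneg (om_nonneg hl),
      mul_comm]
    exact mul_le_mul_of_nonneg_right (om_le_const hl) (norm_nonneg _)

/-- the boundedness condition -/
def Bdd (a : ℕ → ℂ) : Prop :=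
  ∃ δ M T₀ : ℝ, 0 < δ ∧ ∀ T : ℝ, T₀ ≤ T → ∀ s : ℂ, 1 - δ ≤ s.re → s.re ≤ 2 → |s.im| ≤ δ →
    ‖SS a T s‖ ≤ M

/-- bounded sums give a continuation -/
theorem cont_of_bdd (h : ∀ s : ℂ, σ < s.re → LSeriesSummable a s) (hσ : σ < 2) (hb : Bdd a) :
    ∃ F : ℂ → ℂ, (∀ x ∈ Icc (1 : ℝ) 2, AnalyticAt ℂ F x) ∧
      ∀ s : ℂ, max σ 0 < s.re → F s = LSeries a s := by
  obtain ⟨δ', M, T₀', hδ', hM'⟩ := hb
  set δ := min δ' (1 / 2) with hδd
  have hδ : 0 < δ := lt_min hδ' (by norm_num)
  have hδ1 : δ ≤ δ' := min_le_left _ _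
  have hδ2 : δ ≤ 1 / 2 := min_le_right _ _
  set T₀ := max T₀' 1 with hT₀d
  have hT₀ : 1 ≤ T₀ := le_max_right _ _
  have hM : ∀ T : ℝ, T₀ ≤ T → ∀ s : ℂ, 1 - δ ≤ s.re → s.re ≤ 2 → |s.im| ≤ δ → ‖SS a T s‖ ≤ M :=
    fun T hT s h1 h2 h3 => hM' T ((le_max_left _ _).trans hT) s (by linarith) h2 (by linarith)
  set U : Set ℂ := {s : ℂ | max σ 0 < s.re} with hU
  set R : Set ℂ := {s : ℂ | 1 - δ < s.re ∧ s.re < 2 ∧ -δ < s.im ∧ s.im < δ} with hR
  have hUo : IsOpen U := isOpen_lt continuous_const Complex.continuous_re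
  have hRo : IsOpen R :=
    (isOpen_lt continuous_const Complex.continuous_re).inter
      ((isOpen_lt Complex.continuous_re continuous_const).inter
        ((isOpen_lt continuous_const Complex.continuous_im).inter
          (isOpen_lt Complex.continuous_im continuous_const)))
  set W : Set ℂ := R ∪ U with hW
  have hWo : IsOpen W := hRo.union hUo
  have hpos : ∀ k : ℕ, 0 < T₀ + k := fun k => by
    have : (0 : ℝ) ≤ k := Nat.cast_nonneg k
    linarith
  have hsub : W ⊆ {s : ℂ | 0 < s.re} := by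
    rintro s (hs | hs)
    · have := hs.1
      show 0 < s.re
      linarith
    · exact (le_max_right σ 0).trans_lt (show max σ 0 < s.re from hs)
  obtain ⟨Φ, hΦd, hΦ⟩ := Pool.Agent.Helper114.Konig.locmontel hWo (fun k s => SS a (T₀ + k) s)
    (fun k => (SS_diff h hσ (hpos k)).mono hsub) (by
      rintro s (hs | hs)
      · refine ⟨R, hRo.mem_nhds hs, M, fun k y hy => ?_⟩
        refine hM _ (by have : (0 : ℝ) ≤ k := Nat.cast_nonneg k; linarith) y hy.1.le hy.2.1.le ?_
        exact abs_le.2 ⟨hy.2.2.1.le, hy.2.2.2.le⟩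
      · have hs' : max σ 0 < s.re := hs
        set x := (max σ 0 + s.re) / 2 with hx
        have hx1 : max σ 0 < x := by rw [hx]; linarith
        have hx2 : x < s.re := by rw [hx]; linarith
        refine ⟨{z : ℂ | x < z.re}, (isOpen_lt continuous_const Complex.continuous_re).mem_nhds hx2,
          (Real.exp 1 + 1) * ∑' n, ‖LSeries.term a (x : ℂ) n‖, fun k y hy => ?_⟩
        exact SS_bound h (hpos k) ((le_max_left _ _).trans_lt hx1) (le_of_lt hy))
    (Filter.hyperfilter ℕ)
  refine ⟨Φ, fun x hx => ?_, fun s hs => ?_⟩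
  · have hxW : (x : ℂ) ∈ W := by
      by_cases h2 : x < 2
      · left
        refine ⟨?_, ?_, ?_, ?_⟩
        · simp only [Complex.ofReal_re]; linarith [hx.1]
        · simpa using h2
        · simpa using hδ
        · simpa using hδ
      · right
        show max σ 0 < (x : ℂ).re
        rw [Complex.ofReal_re]
        exact (max_lt hσ (by norm_num)).trans_le (by linarith)
    exact hΦd.analyticAt (hWo.mem_nhds hxW)
  · have h1 := hΦ s (Or.inr hs)
    have h2 : Tendsto (fun k : ℕ => SS a (T₀ + k) s) (Filter.hyperfilter ℕ : Filter ℕ)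
        (𝓝 (LSeries a s)) := by
      have h3 : Tendsto (fun k : ℕ => T₀ + (k : ℝ)) atTop atTop :=
        tendsto_atTop_add_const_left _ _ tendsto_natCast_atTop_atTop
      exact ((SS_tendsto h ((le_max_left _ _).trans_lt hs)).comp h3).mono_left
        Nat.hyperfilter_le_atTop
    exact tendsto_nhds_unique h1 h2

/-- a continuation gives bounded sums -/
theorem bdd_of_cont (h : ∀ s : ℂ, σ < s.re → LSeriesSummable a s) (hσ : σ < 2) {F : ℂ → ℂ}
    (hF : ∀ x ∈ Icc (1 : ℝ) 2, AnalyticAt ℂ F x) (hFL : ∀ s : ℂ, σ < s.re → F s = LSeries a s) :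
    Bdd a := by
  set K : Set ℂ := (fun x : ℝ => (x : ℂ)) '' Icc 1 2 with hK
  have hKc : IsCompact K := isCompact_Icc.image (by fun_prop)
  have hKU : K ⊆ {z | AnalyticAt ℂ F z} := by
    rintro _ ⟨x, hx, rfl⟩
    exact hF x hx
  obtain ⟨ε, hε, hthick⟩ := hKc.exists_cthickening_subset_open (isOpen_analyticAt ℂ F) hKU
  set δ := min (ε / 4) (1 / 4) with hδd
  have hδ : 0 < δ := lt_min (by positivity) (by norm_num)
  have hδ1 : δ ≤ ε / 4 := min_le_left _ _
  have hδ2 : δ ≤ 1 / 4 := min_le_right _ _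
  -- the rectangle
  set R : Set ℂ := {s : ℂ | 1 - δ ≤ s.re ∧ s.re ≤ 2 ∧ |s.im| ≤ 2 * δ} with hR
  have hRK : R ⊆ Metric.cthickening ε K := by
    rintro s ⟨h1, h2, h3⟩
    refine Metric.mem_cthickening_of_dist_le s (((max 1 s.re : ℝ)) : ℂ) ε K
      ⟨max 1 s.re, ⟨le_max_left _ _, max_le (by norm_num) h2⟩, rfl⟩ ?_
    rw [Complex.dist_eq]
    have h4 := Complex.norm_le_abs_re_add_abs_im (s - ((max 1 s.re : ℝ) : ℂ))
    have h5 : (s - ((max 1 s.re : ℝ) : ℂ)).im = s.im := by simp
    have h6 : |(s - ((max 1 s.re : ℝ) : ℂ)).re| ≤ δ := by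
      rw [Complex.sub_re, Complex.ofReal_re, abs_le]
      rcases le_total 1 s.re with h7 | h7
      · rw [max_eq_right h7]; constructor <;> linarith
      · rw [max_eq_left h7]; constructor <;> linarith
    rw [h5] at h4
    linarith
  have hRc : IsCompact R := by
    refine Metric.isCompact_of_isClosed_isBounded ?_ ?_
    · exact (isClosed_le continuous_const Complex.continuous_re).inter
        ((isClosed_le Complex.continuous_re continuous_const).inter
          (isClosed_le (Complex.continuous_im.abs) continuous_const))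
    · refine Bornology.IsBounded.subset (Metric.isBounded_closedBall (x := (0 : ℂ)) (r := 3)) ?_
      rintro s ⟨h1, h2, h3⟩
      rw [mem_closedBall_zero_iff]
      have h4 := Complex.norm_le_abs_re_add_abs_im s
      have h5 : |s.re| ≤ 2 := abs_le.2 ⟨by linarith, h2⟩
      linarith
  have hRa : ∀ s ∈ R, AnalyticAt ℂ F s := fun s hs => hthick (hRK hs)
  obtain ⟨M₁, hM₁⟩ := hRc.exists_bound_of_continuousOn (f := F)
    fun s hs => (hRa s hs).continuousAt.continuousWithinAt
  -- the right half-plane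
  have hopen : IsOpen {z : ℂ | σ < z.re} := isOpen_lt continuous_const Complex.continuous_re
  have hright : ∀ s : ℂ, 2 ≤ s.re → ‖F s‖ ≤ ∑' n, ‖LSeries.term a 2 n‖ := by
    intro s hs
    rw [hFL s (by linarith)]
    unfold LSeries
    refine tsum_of_norm_bounded (summ_of h (s := 2) (by simpa using hσ)).hasSum fun n => ?_
    exact LSeries.norm_term_le_of_re_le_re a (by simpa using hs) n
  set M := max M₁ (∑' n, ‖LSeries.term a 2 n‖) with hMd
  have hLd : ∀ s : ℂ, σ < s.re → DifferentiableAt ℂ F s := by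
    intro s hs
    have h1 : F =ᶠ[𝓝 s] LSeries a := by
      filter_upwards [hopen.mem_nhds hs] with z hz using hFL z hz
    refine h1.differentiableAt_iff.2 ?_
    refine (LSeries_differentiableOn a).differentiableAt ?_
    · refine (isOpen_lt continuous_const (continuous_coe_real_ereal.comp Complex.continuous_re) :
        IsOpen {s : ℂ | LSeries.abscissaOfAbsConv a < ((s.re : ℝ) : EReal)}).mem_nhds ?_
      have h2 : LSeries.abscissaOfAbsConv a ≤ (((σ + s.re) / 2 : ℝ) : EReal) := by
        refine LSeries.abscissaOfAbsConv_le_of_forall_lt_LSeriesSummable fun y hy => ?_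
        exact h y (by rw [Complex.ofReal_re]; linarith)
      refine h2.trans_lt ?_
      exact_mod_cast (by linarith : (σ + s.re) / 2 < s.re)
  refine ⟨δ, (Real.exp (Real.exp 0) + 1) * M, max 1 (4 / δ), hδ, fun T hT s h1 h2 h3 => ?_⟩
  have hT1 : 1 ≤ T := (le_max_left _ _).trans hT
  have hT2 : 4 / δ ≤ T := (le_max_right _ _).trans hT
  have hT0 : 0 < T := by linarith
  have hpiT : Real.pi / T ≤ δ := by
    rw [div_le_iff₀ hT0]
    rw [div_le_iff₀ hδ] at hT2
    have := Real.pi_lt_four
    linarith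
  -- the integrand
  have hz : ∀ z ∈ HS 0, DifferentiableAt ℂ F (s + z / T) ∧ ‖F (s + z / T)‖ ≤ M := by
    intro z hz
    have hre : (s + z / T).re = s.re + z.re / T := by simp
    have him : (s + z / T).im = s.im + z.im / T := by simp
    have hz0 : 0 ≤ z.re / T := div_nonneg hz.1 hT0.le
    by_cases h4 : (s + z / T).re ≤ 2
    · have h5 : s + z / T ∈ R := by
        refine ⟨?_, h4, ?_⟩
        · rw [hre]; linarith
        · rw [him]
          refine (abs_add_le _ _).trans ?_
          have h6 : |z.im / T| ≤ Real.pi / T := by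
            rw [abs_div, abs_of_pos hT0]
            exact div_le_div_of_nonneg_right hz.2 hT0.le
          linarith
      exact ⟨(hRa _ h5).differentiableAt, (hM₁ _ h5).trans (le_max_left _ _)⟩
    · push Not at h4
      exact ⟨hLd _ (by linarith), (hright _ h4.le).trans (le_max_right _ _)⟩
  have hd : DifferentiableOn ℂ (fun z : ℂ => F (s + z / T)) (HS 0) := by
    intro z hz'
    have h1 : DifferentiableAt ℂ (fun z : ℂ => F (s + z / T)) z :=
      DifferentiableAt.comp (g := F) (f := fun z : ℂ => s + z / T) z (hz z hz').1 (by fun_prop)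
    exact h1.differentiableWithinAt
  have hadm : Adm 0 (fun z : ℂ => F (s + z / T)) :=
    ⟨hd.continuousOn, |M|, 0, abs_nonneg _, le_rfl, fun z hz' => by
      have := (hz z hz').2
      have := le_abs_self M
      linarith⟩
  have hshift := J_shift' (b := 2 * T) le_rfl (by positivity) hadm hd
  have hcongr : J (2 * T) (fun z : ℂ => F (s + z / T)) = J (2 * T) (fun z => LSeries a (s + z / T)) := by
    refine J_congr fun z hz' => ?_
    refine hFL _ ?_
    have hre : (s + z / T).re = s.re + z.re / T := by simp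
    have h5 : 2 ≤ z.re / T := by
      rw [le_div_iff₀ hT0]
      exact hz'.1
    rw [hre]
    linarith
  rw [SS_eq h hσ hT0 (by linarith), ← hcongr, ← hshift]
  exact norm_J_le le_rfl fun z hz' => (hz z hz').2

end Pool.Agent.E8helper25.LT
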