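import Pool.Agent.E8helper25.LT.Crit
import Pool.Agent.E8helper25.LT.ML

/-! The criterion for general Euler products, with a power of a zeta function. -/

set_option autoImplicit false

namespace Pool.Agent.E8helper25.LT

open Complex MeasureTheory Filter Topology Set Asymptotics
open Pool.Agent.W189.ML Pool.Agent.W189.LC Pool.Agent.W187.S2
open Pool.Agent.W187.UR (Lam)

variable {ι : Type} {N : ℕ} {q : ι → ℝ} {β : ι → Fin N → ℂ}

namespace LP

theorem size_y (D : LP q β) (v : ι) (j : Fin N) (w : ℂ) :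
    ‖β v j * yv q v w‖ ≤ q v ^ (-(1 / 2 + w.re)) := by
  rw [norm_mul, D.norm_yv]
  calc ‖β v j‖ * q v ^ (-w.re) ≤ q v ^ (-(1 / 2) : ℝ) * q v ^ (-w.re) :=
        mul_le_mul_of_nonneg_right (D.size v j) (Real.rpow_nonneg (D.q_pos v).le _)
    _ = q v ^ (-(1 / 2 + w.re)) := by
        rw [← Real.rpow_add (D.q_pos v)]; congr 1; ring

theorem norm_log' (D : LP q β) (v : ι) {w : ℂ} (hw : 0 ≤ w.re) :
    ‖-∑ j, log (1 - β v j * yv q v w)‖ ≤ N * (4 * q v ^ (-(1 / 2 + w.re))) := by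
  rw [norm_neg]
  have h1 : ‖∑ j, log (1 - β v j * yv q v w)‖ ≤ ∑ _j : Fin N, 4 * q v ^ (-(1 / 2 + w.re)) := by
    refine norm_sum_le_of_le _ fun j _ => ?_
    have h0 : ‖β v j * yv q v w‖ ≤ ‖β v j‖ := by
      rw [norm_mul]
      exact mul_le_of_le_one_right (norm_nonneg _) (D.norm_yv_le v hw)
    have h2 : ‖β v j * yv q v w‖ ^ 2 ≤ 1 / 2 :=
      (pow_le_pow_left₀ (norm_nonneg _) h0 2).trans (D.sq_le v j)
    have h3 := log_one h2
    have h4 := D.size_y v j w
    linarith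
  simpa using h1

theorem log_summ' (D : LP q β) {w : ℂ} (hw : 1 / 2 < w.re) :
    Summable fun v => -∑ j, log (1 - β v j * yv q v w) :=
  Summable.of_norm_bounded (((D.sum (1 / 2 + w.re) (by linarith)).mul_left 4).mul_left _)
    fun v => D.norm_log' v (by linarith)

theorem gg_analytic (D : LP q β) {w : ℂ} (hw : 1 / 2 < w.re) : AnalyticAt ℂ (gg q β) w := by
  set σ : ℝ := (1 / 2 + w.re) / 2 with hσ
  have hσ1 : 1 / 2 < σ := by rw [hσ]; linarith
  have hσw : σ < w.re := by rw [hσ]; linarith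
  have hopen : IsOpen {z : ℂ | σ < z.re} := isOpen_lt continuous_const Complex.continuous_re
  have h1 : DifferentiableOn ℂ (gg q β) {z : ℂ | σ < z.re} := by
    unfold gg
    refine differentiableOn_tsum_of_summable_norm
      (((D.sum (1 / 2 + σ) (by linarith)).mul_left 4).mul_left (N : ℝ)) ?_ hopen ?_
    · intro v z hz
      have hz' : σ < z.re := hz
      refine DifferentiableWithinAt.neg ?_
      refine DifferentiableWithinAt.fun_sum fun j _ => ?_
      have h2 : ‖β v j * yv q v z‖ < 1 := D.norm_by_lt v j (D.norm_yv_le v (by linarith))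
      have h3 : DifferentiableAt ℂ (fun w => 1 - β v j * yv q v w) z := by
        unfold yv
        fun_prop
      exact (h3.clog (slit_of_norm h2)).differentiableWithinAt
    · intro v z hz
      have hz' : σ < z.re := hz
      refine (D.norm_log' v (by linarith)).trans ?_
      have h2 : q v ^ (-(1 / 2 + z.re)) ≤ q v ^ (-(1 / 2 + σ)) :=
        Real.rpow_le_rpow_of_exponent_le (by linarith [D.two_le v]) (by linarith)
      gcongr
  exact h1.analyticAt (hopen.mem_nhds hσw)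

theorem exp_gg (D : LP q β) {w : ℂ} (hw : 1 / 2 < w.re) :
    HasProd (fun v => ∏ j, (1 - β v j * yv q v w)⁻¹) (exp (gg q β w)) := by
  have h1 := (D.log_summ' hw).hasSum.cexp
  have h2 : (fun v => ∏ j, (1 - β v j * yv q v w)⁻¹) =
      (exp ∘ fun v => -∑ j, log (1 - β v j * yv q v w)) := by
    funext v
    rw [Function.comp_apply, Complex.exp_neg, Complex.exp_sum, ← Finset.prod_inv_distrib]
    refine Finset.prod_congr rfl fun j _ => ?_
    rw [Complex.exp_log]
    exact slitPlane_ne_zero (slit_of_norm (D.norm_by_lt v j (D.norm_yv_le v (by linarith))))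
  rw [h2]
  exact h1

end LP

/-- the parameters of `L Z^ρ` -/
noncomputable def ba (β : ι → Fin N → ℂ) (βZ : ι → Fin 1 → ℂ) (ρ : ℕ) (v : ι) : Fin (N + ρ) → ℂ :=
  Fin.append (β v) (fun _ => βZ v 0)

variable {βZ : ι → Fin 1 → ℂ} {ρ : ℕ}

theorem lp_ba (D : LP q β) (E : LP q βZ) (ρ : ℕ) : LP q (ba β βZ ρ) where
  two_le := D.two_le
  sum := D.sum
  size := fun v j => by
    unfold ba
    refine Fin.addCases (fun i => ?_) (fun i => ?_) j
    · rw [Fin.append_left]; exact D.size v i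
    · rw [Fin.append_right]; exact E.size v 0
  real := fun v k => by
    unfold ba
    rw [Fin.sum_univ_add]
    simp only [Fin.append_left, Fin.append_right]
    have h1 := E.real v k
    simp only [Finset.univ_unique, Finset.sum_singleton] at h1
    rw [Complex.add_im, D.real v k, Complex.im_sum, zero_add]
    exact Finset.sum_eq_zero fun j _ => h1

theorem gg_ba (D : LP q β) (E : LP q βZ) {w : ℂ} (hw : 1 / 2 < w.re) :
    gg q (ba β βZ ρ) w = gg q β w + ρ * gg q βZ w := by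
  unfold gg
  rw [← tsum_mul_left, ← (D.log_summ' hw).tsum_add ((E.log_summ' hw).mul_left _)]
  refine tsum_congr fun v => ?_
  unfold ba
  rw [Fin.sum_univ_add]
  simp only [Fin.append_left, Fin.append_right, Finset.sum_const, Finset.card_univ,
    Fintype.card_fin, nsmul_eq_mul, Finset.univ_unique, Finset.sum_singleton]
  have : (default : Fin 1) = 0 := rfl
  rw [this]
  ring

variable {F Z : ℂ → ℂ}

theorem mero_shift' {F : ℂ → ℂ} {x : ℝ} (h : MeromorphicAt F ((1 + x : ℝ) : ℂ)) :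
    MeromorphicAt (fun w => F (1 + w)) (x : ℂ) := by
  have h1 : AnalyticAt ℂ (fun w : ℂ => 1 + w) (x : ℂ) := by fun_prop
  have h2 : MeromorphicAt F ((fun w : ℂ => 1 + w) (x : ℂ)) := by
    have : ((1 + x : ℝ) : ℂ) = (fun w : ℂ => 1 + w) (x : ℂ) := by push_cast; rfl
    rwa [← this]
  exact h2.comp_analyticAt h1

theorem analytic_F (D : LP q β) (hF : ∀ w : ℂ, 1 / 2 < w.re → F (1 + w) = exp (gg q β w)) {x : ℝ}
    (hx : 3 / 2 < x) : AnalyticAt ℂ F x := by
  have hopen : IsOpen {z : ℂ | 3 / 2 < z.re} := isOpen_lt continuous_const Complex.continuous_re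
  have h1 : F =ᶠ[𝓝 (x : ℂ)] fun s => exp (gg q β (s - 1)) := by
    filter_upwards [hopen.mem_nhds (show (3 / 2 : ℝ) < (x : ℂ).re by simpa using hx)] with z hz
    have hz' : 3 / 2 < z.re := hz
    have := hF (z - 1) (by rw [Complex.sub_re, Complex.one_re]; linarith)
    rwa [add_sub_cancel] at this
  refine AnalyticAt.congr ?_ h1.symm
  refine AnalyticAt.cexp ?_
  have h2 : AnalyticAt ℂ (gg q β) ((x : ℂ) - 1) :=
    D.gg_analytic (by rw [Complex.sub_re, Complex.one_re, Complex.ofReal_re]; linarith)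
  exact AnalyticAt.comp (f := fun s : ℂ => s - 1) h2 (by fun_prop)

/-- **the criterion with a power of a zeta function** -/
theorem g_crit [Countable ι] (D : LP q β) (E : LP q βZ)
    (hF : ∀ w : ℂ, 1 / 2 < w.re → F (1 + w) = exp (gg q β w))
    (hFm : ∀ x ∈ Icc (1 : ℝ) (3 / 2), MeromorphicAt F (x : ℂ))
    (hZ : ∀ w : ℂ, 1 / 2 < w.re → Z (1 + w) = exp (gg q βZ w))
    (hZm : ∀ x ∈ Icc (1 : ℝ) (3 / 2), MeromorphicAt Z (x : ℂ))
    {κ : ℂ} (hκ : κ ≠ 0) (hZκ : Tendsto (fun s => (s - 1) * Z s) (𝓝[≠] 1) (𝓝 κ))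
    (ρ : ℕ) {B : ℂ} (hB : B ≠ 0) :
    List.TFAE [
      Tendsto (fun s => F s / (s - 1) ^ ρ) (𝓝[≠] 1) (𝓝 B),
      ∃ c : ℝ, Real.pi / 2 < c ∧ ∃ T : ℕ → ℝ, Tendsto T atTop atTop ∧
        Tendsto (fun n => exp (WW q (ba β βZ 0) c (T n)) / (T n : ℂ) ^ ρ) atTop
          (𝓝 (exp (-(ρ * Lam c)) / B)),
      ∀ c : ℝ, Real.pi / 2 < c →
        (fun T : ℝ => exp (WW q (ba β βZ 0) c T) / (T : ℂ) ^ ρ - exp (-(ρ * Lam c)) / B) =O[atTop]
          (fun T : ℝ => 1 / T),
      ∃ c : ℝ, Real.pi / 2 < c ∧ ∃ T : ℕ → ℝ, Tendsto T atTop atTop ∧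
        Tendsto (fun n => exp (WW q (ba β βZ ρ) c (T n))) atTop (𝓝 (1 / (B * κ ^ ρ))),
      ∀ c : ℝ, Real.pi / 2 < c →
        (fun T : ℝ => exp (WW q (ba β βZ ρ) c T) - 1 / (B * κ ^ ρ)) =O[atTop]
          (fun T : ℝ => 1 / T)] := by
  have hFx : ∀ x : ℝ, 1 ≤ x → MeromorphicAt F (x : ℂ) := by
    intro x hx
    by_cases h : x ≤ 3 / 2
    · exact hFm x ⟨hx, h⟩
    · push Not at h
      exact (analytic_F D hF h).meromorphicAt
  have hZx : ∀ x : ℝ, 1 ≤ x → MeromorphicAt Z (x : ℂ) := by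
    intro x hx
    by_cases h : x ≤ 3 / 2
    · exact hZm x ⟨hx, h⟩
    · push Not at h
      exact (analytic_F E hZ h).meromorphicAt
  have hexp : ∀ (ρ : ℕ) (w : ℂ), 1 < w.re →
      F (1 + w) * Z (1 + w) ^ ρ = exp (gg q (ba β βZ ρ) w) := by
    intro ρ w hw
    rw [gg_ba D E (by linarith), Complex.exp_add, hF w (by linarith), hZ w (by linarith),
      ← Complex.exp_nat_mul]
  have hmer : ∀ (ρ : ℕ), ∀ x ∈ Icc (0 : ℝ) 2,
      MeromorphicAt (fun w => F (1 + w) * Z (1 + w) ^ ρ) (x : ℂ) := by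
    intro ρ x hx
    have h2 : MeromorphicAt (fun w => F (1 + w)) (x : ℂ) := mero_shift' (hFx (1 + x) (by linarith [hx.1]))
    have h3 : MeromorphicAt (fun w => Z (1 + w)) (x : ℂ) := mero_shift' (hZx (1 + x) (by linarith [hx.1]))
    exact h2.mul (h3.pow ρ)
  have hF1 : MeromorphicAt F 1 := by
    have := hFx 1 le_rfl
    rwa [Complex.ofReal_one] at this
  have hZ1 : MeromorphicAt Z 1 := by
    have := hZx 1 le_rfl
    rwa [Complex.ofReal_one] at this
  -- the products of `A`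
  have c0 := (lp_ba D E 0).crit (Φ := fun w => F (1 + w) * Z (1 + w) ^ 0)
    (hmer 0) (fun w hw => hexp 0 w hw) (ρ : ℤ) hB
  simp only [pow_zero, mul_one, order_shift0, coeff_shift0] at c0
  have l0 := lead_iff hF1 (ρ : ℤ) hB
  simp only [zpow_natCast, Int.cast_natCast] at l0 c0
  -- the products of `G`
  have hB' : B * κ ^ ρ ≠ 0 := mul_ne_zero hB (pow_ne_zero _ hκ)
  have c1 := (lp_ba D E ρ).crit (Φ := fun w => F (1 + w) * Z (1 + w) ^ ρ)
    (hmer ρ) (fun w hw => hexp ρ w hw) 0 hB'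
  have e1 := order_shift0 (fun s => F s * Z s ^ ρ)
  have e2 := coeff_shift0 (fun s => F s * Z s ^ ρ)
  simp only [e1, e2, zpow_zero, div_one, Int.cast_zero, zero_mul, neg_zero, Complex.exp_zero] at c1
  have hG1 : MeromorphicAt (fun s => F s * Z s ^ ρ) 1 := hF1.mul (hZ1.pow ρ)
  have l1 := lead_iff hG1 0 hB'
  simp only [zpow_zero, div_one] at l1
  have hz := hZκ.pow ρ
  have hlink : Tendsto (fun s => F s / (s - 1) ^ ρ) (𝓝[≠] 1) (𝓝 B) ↔
      Tendsto (fun s => F s * Z s ^ ρ) (𝓝[≠] 1) (𝓝 (B * κ ^ ρ)) := by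
    constructor
    · intro h1
      refine (h1.mul hz).congr' ?_
      filter_upwards [self_mem_nhdsWithin] with s hs
      have hs0 : s - 1 ≠ 0 := sub_ne_zero.2 hs
      have hs1 : (s - 1) ^ ρ ≠ 0 := pow_ne_zero _ hs0
      rw [mul_pow]
      field_simp
    · intro h1
      have hP : κ ^ ρ ≠ 0 := pow_ne_zero _ hκ
      have h2 := h1.div hz hP
      rw [mul_div_assoc, div_self hP, mul_one] at h2
      refine h2.congr' ?_
      have h3 : ∀ᶠ s in 𝓝[≠] (1 : ℂ), ((s - 1) * Z s) ^ ρ ≠ 0 := hz.eventually_ne hP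
      filter_upwards [h3] with s hs
      simp only [Pi.div_apply]
      rw [mul_pow] at hs ⊢
      have hs1 := left_ne_zero_of_mul hs
      have hs2 := right_ne_zero_of_mul hs
      field_simp
  tfae_have 1 ↔ 2 := l0.trans (c0.out 0 1)
  tfae_have 1 ↔ 3 := l0.trans (c0.out 0 2)
  tfae_have 1 ↔ 4 := (hlink.trans l1).trans (c1.out 0 1)
  tfae_have 1 ↔ 5 := (hlink.trans l1).trans (c1.out 0 2)
  tfae_finish

/-- bounded sums and continuation -/
theorem g_bdd (D : LP q β) {L : ℂ → ℂ} (hL : ∀ w : ℂ, 1 / 2 < w.re → L (1 + w) = exp (gg q β w))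
    {a : ℕ → ℂ} (ha : ∀ s : ℂ, 3 / 2 < s.re → LSeriesHasSum a s (L s)) :
    Bdd a ↔ ∃ F : ℂ → ℂ, (∀ s : ℂ, 3 / 2 < s.re → F s = L s) ∧
      ∀ x ∈ Icc (1 : ℝ) (3 / 2), AnalyticAt ℂ F x := by
  have hs : ∀ s : ℂ, 3 / 2 < s.re → LSeriesSummable a s := fun s hs => (ha s hs).LSeriesSummable
  constructor
  · intro hb
    obtain ⟨F, h1, h2⟩ := cont_of_bdd hs (by norm_num) hb
    refine ⟨F, fun s hs' => ?_, fun x hx => h1 x ⟨hx.1, by linarith [hx.2]⟩⟩
    rw [h2 s (by rw [max_eq_left (by norm_num : (0 : ℝ) ≤ 3 / 2)]; exact hs'), (ha s hs').LSeries_eq]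
  · rintro ⟨F, h2, h1⟩
    refine bdd_of_cont hs (by norm_num) (F := F) (fun x hx => ?_) fun s hs' => ?_
    · by_cases h3 : x ≤ 3 / 2
      · exact h1 x ⟨hx.1, h3⟩
      · refine analytic_F D (F := F) (fun w hw => ?_) (by push Not at h3; exact h3)
        rw [h2 _ (by rw [Complex.add_re, Complex.one_re]; linarith), hL w hw]
    · rw [h2 s hs', (ha s hs').LSeries_eq]

end Pool.Agent.E8helper25.LT
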