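import Pool.Agent.E8helper25.LT.KEul
import Pool.Agent.E8helper25.LT.GCrit
import Pool.Agent.H332R2.PIT.Analytic

/-! The Dedekind zeta function near the segment `[1, 3/2]`. -/

set_option autoImplicit false

namespace Pool.Agent.E8helper25.LT

open Complex Filter Topology Set NumberField IsDedekindDomain

variable (K : Type) [Field K] [NumberField K]

/-- the Dedekind zeta function, continued to a neighbourhood of `1` -/
theorem exists_zeta : ∃ Z : ℂ → ℂ, (∀ s : ℂ, 1 < s.re → Z s = dedekindZeta K s) ∧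
    (∀ x : ℝ, 1 ≤ x → MeromorphicAt Z (x : ℂ)) ∧
    Tendsto (fun s => (s - 1) * Z s) (𝓝[≠] 1) (𝓝 (dedekindZeta_residue K)) := by
  classical
  obtain ⟨g, hg1, hg2⟩ := Pool.Agent.H484R2.continuation (K := K) 0
  simp only [Complex.ofReal_zero, zero_mul, add_zero] at hg1 hg2
  set Z : ℂ → ℂ := fun s => if 1 < s.re then dedekindZeta K s else g s / (s - 1) with hZ
  have hZ1 : ∀ᶠ z in 𝓝[≠] (1 : ℂ), Z z = g z / (z - 1) := by
    filter_upwards [hg2.filter_mono nhdsWithin_le_nhds, self_mem_nhdsWithin] with z h1 h2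
    have h3 : z - 1 ≠ 0 := sub_ne_zero.2 h2
    simp only [hZ]
    split_ifs with h4
    · rw [h1 h4]; field_simp
    · rfl
  have hlim : Tendsto (fun s => (s - 1) * Z s) (𝓝[≠] 1) (𝓝 (g 1)) := by
    refine (hg1.continuousAt.tendsto.mono_left nhdsWithin_le_nhds).congr' ?_
    filter_upwards [hZ1, self_mem_nhdsWithin] with z h1 h2
    have h3 : z - 1 ≠ 0 := sub_ne_zero.2 h2
    rw [h1]; field_simp
  have hres : g 1 = dedekindZeta_residue K := by
    have h1 := NumberField.tendsto_sub_one_mul_dedekindZeta_nhdsGT K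
    have h2 : Tendsto (fun x : ℝ => ((x : ℝ) : ℂ)) (𝓝[>] 1) (𝓝[≠] 1) := by
      refine tendsto_nhdsWithin_iff.2 ⟨?_, ?_⟩
      · have h3 : Tendsto (fun x : ℝ => ((x : ℝ) : ℂ)) (𝓝 1) (𝓝 ((1 : ℝ) : ℂ)) :=
          Complex.continuous_ofReal.tendsto 1
        rw [Complex.ofReal_one] at h3
        exact h3.mono_left nhdsWithin_le_nhds
      · filter_upwards [self_mem_nhdsWithin] with x hx
        have hx' : (1 : ℝ) < x := hx
        show (x : ℂ) ≠ 1
        exact_mod_cast hx'.ne'
    have h3 := hlim.comp h2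
    refine tendsto_nhds_unique h3 (h1.congr' ?_)
    filter_upwards [self_mem_nhdsWithin] with x hx
    have hx' : (1 : ℝ) < x := hx
    simp only [Function.comp_apply, hZ]
    rw [if_pos (by rwa [Complex.ofReal_re])]
  rw [hres] at hlim
  refine ⟨Z, fun s hs => ?_, fun x hx => ?_, hlim⟩
  · simp only [hZ]; rw [if_pos hs]
  · rcases hx.eq_or_lt with h1 | h1
    · rw [← h1, Complex.ofReal_one]
      have h2 : MeromorphicAt (fun z : ℂ => g z / (z - 1)) 1 := by
        refine hg1.meromorphicAt.div ?_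
        exact (show AnalyticAt ℂ (fun z : ℂ => z - 1) 1 by fun_prop).meromorphicAt
      exact h2.congr (hZ1.mono fun z hz => hz.symm)
    · have h2 : AnalyticAt ℂ (dedekindZeta K) (x : ℂ) :=
        H332.PIT.zeta_analyticAt (by rwa [Complex.ofReal_re])
      have h3 : Z =ᶠ[𝓝 (x : ℂ)] dedekindZeta K := by
        have hopen : IsOpen {z : ℂ | 1 < z.re} := isOpen_lt continuous_const Complex.continuous_re
        filter_upwards [hopen.mem_nhds (show (1 : ℝ) < (x : ℂ).re by simpa using h1)] with z hz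
        have hz' : 1 < z.re := hz
        simp only [hZ]; rw [if_pos hz']
      exact (h2.congr h3.symm).meromorphicAt

end Pool.Agent.E8helper25.LT
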