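import Pool.Agent.E8helper25.LT.ECL
import Pool.Agent.E8helper25.LT.ZKc

/-! Elliptic curves over number fields: the parameters, and the function with the factors of the exceptional
places removed. -/

set_option autoImplicit false

namespace Pool.Agent.E8helper25.LT

open Complex MeasureTheory Filter Topology Set Asymptotics IsDedekindDomain NumberField
open Pool.Agent.W189.ML Pool.Agent.W189.LC Pool.Agent.W187.S2 Pool.Agent.W189.NF
open Pool.Agent.W187.UR (Lam)
open Pool.Agent.H921R2.TatePole (nm two_le_nm nm_summable)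

variable {K : Type} [Field K] [NumberField K] (E : WeierstrassCurve K)

/-- the norms -/
noncomputable def qn (v : HeightOneSpectrum (𝓞 K)) : ℝ := (nm v : ℝ)

theorem qn_two (v : HeightOneSpectrum (𝓞 K)) : 2 ≤ qn v := nm_two v

theorem qn_pos (v : HeightOneSpectrum (𝓞 K)) : 0 < qn v := by linarith [qn_two v]

open Classical in
/-- the normalised parameters without the exceptional places -/
noncomputable def bE (v : HeightOneSpectrum (𝓞 K)) (j : Fin 2) : ℂ :=
  if Exc E v then 0 else av E v j / (qn v : ℂ)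

/-- the normalised parameters of the zeta function -/
noncomputable def bZK (v : HeightOneSpectrum (𝓞 K)) (_ : Fin 1) : ℂ := 1 / (qn v : ℂ)

theorem qn_inv (v : HeightOneSpectrum (𝓞 K)) : (qn v)⁻¹ ≤ qn v ^ (-(1 / 2) : ℝ) := by
  rw [← Real.rpow_neg_one]
  exact Real.rpow_le_rpow_of_exponent_le (by linarith [qn_two v]) (by norm_num)

theorem lpE : LP (qn (K := K)) (bE E) where
  two_le := qn_two
  sum := fun s hs => nm_summable hs
  size := fun v j => by
    have hq := qn_pos v
    unfold bE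
    split_ifs with h
    · rw [norm_zero]; positivity
    · rw [norm_div, Complex.norm_real, Real.norm_of_nonneg hq.le]
      have h1 : ‖av E v j‖ ≤ √(qn v) := av_le E h j
      calc ‖av E v j‖ / qn v ≤ √(qn v) / qn v := div_le_div_of_nonneg_right h1 hq.le
        _ = qn v ^ (-(1 / 2) : ℝ) := by
          rw [Real.sqrt_eq_rpow, div_eq_mul_inv, ← Real.rpow_neg_one (qn v), ← Real.rpow_add hq]
          norm_num
  real := fun v k => by
    unfold bE
    split_ifs with h
    · rcases Nat.eq_zero_or_pos k with rfl | hk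
      · simp
      · simp [hk.ne']
    · have h1 := rr_real (aV E v) (eV E v) k
      have h2 : ∑ j, (av E v j / (qn v : ℂ)) ^ k = (∑ j, av E v j ^ k) * (((qn v ^ k)⁻¹ : ℝ) : ℂ) := by
        rw [Finset.sum_mul]
        refine Finset.sum_congr rfl fun j _ => ?_
        rw [div_pow, div_eq_mul_inv]
        push_cast
        rfl
      rw [h2, Complex.im_mul_ofReal]
      have h3 : (∑ j, av E v j ^ k).im = 0 := h1
      rw [h3, zero_mul]

theorem lpZ : LP (qn (K := K)) bZK where
  two_le := qn_two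
  sum := fun s hs => nm_summable hs
  size := fun v j => by
    have hq := qn_pos v
    unfold bZK
    rw [norm_div, norm_one, Complex.norm_real, Real.norm_of_nonneg hq.le, one_div]
    exact qn_inv v
  real := fun v k => by
    unfold bZK
    have h2 : ∑ j : Fin 1, (1 / (qn v : ℂ)) ^ k = (((1 / qn v) ^ k : ℝ) : ℂ) := by
      rw [Fin.sum_univ_one]
      push_cast
      rfl
    rw [h2, Complex.ofReal_im]

theorem qn_cpow (v : HeightOneSpectrum (𝓞 K)) (w : ℂ) :
    (nm v : ℂ) ^ (-(1 + w)) = (1 / (qn v : ℂ)) * yv qn v w := by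
  have hq := qn_pos v
  have hqc : (qn v : ℂ) ≠ 0 := by exact_mod_cast hq.ne'
  have h0 : (nm v : ℂ) = (qn v : ℂ) := by unfold qn; rw [Complex.ofReal_natCast]
  rw [h0, neg_add, Complex.cpow_add _ _ hqc, Complex.cpow_neg_one, one_div]
  congr 1
  unfold yv
  rw [Complex.cpow_def_of_ne_zero hqc, ← Complex.ofReal_log hq.le]
  congr 1
  ring

/-- the local polynomial -/
noncomputable def Pv (v : HeightOneSpectrum (𝓞 K)) (s : ℂ) : ℂ :=
  1 - (aV E v : ℂ) * (nm v : ℂ) ^ (-s) + (eV E v : ℂ) * ((nm v : ℂ) ^ (-s)) ^ 2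

theorem Pv_eq (v : HeightOneSpectrum (𝓞 K)) (s : ℂ) :
    Pv E v s = ∏ j, (1 - av E v j * (nm v : ℂ) ^ (-s)) := by
  rw [Fin.prod_univ_two]
  have h := rr_poly (aV E v) (eV E v) ((nm v : ℂ) ^ (-s))
  unfold Pv av
  push_cast at h ⊢
  rw [h]

theorem Pv_ne (v : HeightOneSpectrum (𝓞 K)) {s : ℂ} (hs : 1 ≤ s.re) : Pv E v s ≠ 0 := by
  rw [Pv_eq]
  refine Finset.prod_ne_zero_iff.2 fun j _ => ?_
  have hq := qn_two v
  have hnm : 0 < nm v := by have := two_le_nm v; omega
  intro h0
  have h1 : av E v j * (nm v : ℂ) ^ (-s) = 1 := (sub_eq_zero.1 h0).symm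
  have h2 : ‖av E v j * (nm v : ℂ) ^ (-s)‖ < 1 := by
    rw [norm_mul, Complex.norm_natCast_cpow_of_pos hnm, Complex.neg_re]
    have h3 : (nm v : ℝ) ^ (-s.re) ≤ (nm v : ℝ)⁻¹ := by
      rw [← Real.rpow_neg_one]
      exact Real.rpow_le_rpow_of_exponent_le (by exact_mod_cast hnm) (by linarith)
    have hq0 : (0 : ℝ) < nm v := by exact_mod_cast hnm
    calc ‖av E v j‖ * (nm v : ℝ) ^ (-s.re) ≤ ‖av E v j‖ * (nm v : ℝ)⁻¹ :=
          mul_le_mul_of_nonneg_left h3 (norm_nonneg _)
      _ < nm v * (nm v : ℝ)⁻¹ := mul_lt_mul_of_pos_right (av_lt E v j) (by positivity)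
      _ = 1 := mul_inv_cancel₀ hq0.ne'
  rw [h1, norm_one] at h2
  exact lt_irrefl _ h2

theorem Pv_analytic (v : HeightOneSpectrum (𝓞 K)) (s : ℂ) : AnalyticAt ℂ (Pv E v) s := by
  have hnm : (nm v : ℂ) ≠ 0 := by
    have := two_le_nm v
    exact_mod_cast (by omega : nm v ≠ 0)
  have h1 : AnalyticAt ℂ (fun s : ℂ => (nm v : ℂ) ^ (-s)) s := by
    have e : (fun s : ℂ => (nm v : ℂ) ^ (-s)) = fun s => exp (Complex.log (nm v) * (-s)) := by
      funext s
      rw [Complex.cpow_def_of_ne_zero hnm]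
    rw [e]
    fun_prop
  unfold Pv
  exact (analyticAt_const.sub (analyticAt_const.mul h1)).add (analyticAt_const.mul (h1.pow 2))

/-- the product over the exceptional places -/
noncomputable def PE (s : ℂ) : ℂ := ∏ v ∈ (exc_finite E).toFinset, Pv E v s

theorem PE_ne {s : ℂ} (hs : 1 ≤ s.re) : PE E s ≠ 0 :=
  Finset.prod_ne_zero_iff.2 fun v _ => Pv_ne E v hs

theorem PE_analytic (s : ℂ) : AnalyticAt ℂ (PE E) s :=
  Finset.analyticAt_fun_prod _ fun v _ => Pv_analytic E v s

/-- the `L`-series without the exceptional factors -/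
theorem LS_gg {w : ℂ} (hw : 1 / 2 < w.re) :
    E.LSeries (1 + w) * PE E (1 + w) = exp (gg qn (bE E) w) := by
  classical
  have hs : 3 / 2 < (1 + w).re := by rw [Complex.add_re, Complex.one_re]; linarith
  have h1 := (LS_hasProd E hs).2
  have h2 := (lpE E).exp_gg hw
  -- the exceptional part
  set S := (exc_finite E).toFinset with hS
  have h3 : HasProd (fun v : HeightOneSpectrum (𝓞 K) => if Exc E v then (Pv E v (1 + w))⁻¹ else 1)
      (∏ v ∈ S, (Pv E v (1 + w))⁻¹) := by
    have h4 := hasProd_prod_of_ne_finset_one (L := SummationFilter.unconditional _)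
      (f := fun v : HeightOneSpectrum (𝓞 K) =>
      if Exc E v then (Pv E v (1 + w))⁻¹ else 1) (s := S) (fun v hv => by
        have : ¬ Exc E v := by
          intro h
          apply hv
          rw [hS, Set.Finite.mem_toFinset]
          exact h
        exact if_neg this)
    have h5 : ∏ v ∈ S, (if Exc E v then (Pv E v (1 + w))⁻¹ else 1) =
        ∏ v ∈ S, (Pv E v (1 + w))⁻¹ := by
      refine Finset.prod_congr rfl fun v hv => ?_
      rw [hS, Set.Finite.mem_toFinset] at hv
      rw [if_pos (show Exc E v from hv)]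
    rw [h5] at h4
    exact h4
  have h6 := h2.mul h3
  have h7 : (fun v : HeightOneSpectrum (𝓞 K) => (∏ j, (1 - bE E v j * yv qn v w)⁻¹) *
      (if Exc E v then (Pv E v (1 + w))⁻¹ else 1)) = fun v => (Pv E v (1 + w))⁻¹ := by
    funext v
    by_cases h : Exc E v
    · rw [if_pos h]
      have : ∏ j, (1 - bE E v j * yv qn v w)⁻¹ = 1 := by
        refine Finset.prod_eq_one fun j _ => ?_
        unfold bE
        rw [if_pos h]
        simp
      rw [this, one_mul]
    · rw [if_neg h, mul_one, Pv_eq, ← Finset.prod_inv_distrib]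
      refine Finset.prod_congr rfl fun j _ => ?_
      unfold bE
      rw [if_neg h, qn_cpow]
      congr 2
      ring
  rw [h7] at h6
  have h8 : HasProd (fun v : HeightOneSpectrum (𝓞 K) => (Pv E v (1 + w))⁻¹) (E.LSeries (1 + w)) := h1
  have h9 := h8.unique h6
  have h10 : PE E (1 + w) ≠ 0 := PE_ne E (by rw [Complex.add_re, Complex.one_re]; linarith)
  rw [h9, Finset.prod_inv_distrib]
  unfold PE at h10 ⊢
  rw [← hS] at h10 ⊢
  field_simp

/-- the zeta function -/
theorem zeta_gg {w : ℂ} (hw : 1 / 2 < w.re) {Z : ℂ → ℂ}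
    (hZ : ∀ s : ℂ, 1 < s.re → Z s = dedekindZeta K s) :
    Z (1 + w) = exp (gg qn (bZK (K := K)) w) := by
  have hs : 1 < (1 + w).re := by rw [Complex.add_re, Complex.one_re]; linarith
  have h1 := zeta_prod (K := K) hs
  have h2 := (lpZ (K := K)).exp_gg hw
  have h3 : (fun v : HeightOneSpectrum (𝓞 K) => ∏ j, (1 - bZK v j * yv qn v w)⁻¹) =
      fun v => (1 - (qK v : ℂ) ^ (-(1 + w)))⁻¹ := by
    funext v
    rw [Fin.prod_univ_one]
    have h4 := qn_cpow v w
    have h5 : (qK v : ℂ) = (nm v : ℂ) := by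
      unfold qK
      rw [Complex.ofReal_natCast]
      rfl
    rw [h5, h4]
    rfl
  rw [h3] at h2
  rw [hZ _ hs]
  exact h1.unique h2

end Pool.Agent.E8helper25.LT
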