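import Pool.Agent.E8helper25.LT.Loc
import Pool.Agent.W187.S2.Law2

/-! Euler products: the family of the terms over the residue fields and their quadratic extensions. -/

set_option autoImplicit false

namespace Pool.Agent.E8helper25.LT

open Complex MeasureTheory Filter Topology Set
open Pool.Agent.W189.ML

variable {ι : Type} {N : ℕ}

/-- the local parameters of an Euler product, normalised so that the centre is at `0` -/
structure LP (q : ι → ℝ) (β : ι → Fin N → ℂ) : Prop where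
  two_le : ∀ v, 2 ≤ q v
  sum : ∀ s : ℝ, 1 < s → Summable fun v => q v ^ (-s)
  size : ∀ v j, ‖β v j‖ ≤ q v ^ (-(1 / 2) : ℝ)
  real : ∀ v k, (∑ j, β v j ^ k).im = 0

/-- `q_v^{-w}` -/
noncomputable def yv (q : ι → ℝ) (v : ι) (w : ℂ) : ℂ := exp (-(w * Real.log (q v)))

/-- `∑_j log (1 - β_j)` -/
noncomputable def l1 (β : ι → Fin N → ℂ) (v : ι) : ℝ := (∑ j, log (1 - β v j)).re

/-- `∑_j log (1 - β_j²)` -/
noncomputable def l2 (β : ι → Fin N → ℂ) (v : ι) : ℝ := (∑ j, log (1 - β v j ^ 2)).re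

/-- the frequencies -/
noncomputable def la (q : ι → ℝ) : ι ⊕ ι → ℝ :=
  Sum.elim (fun v => Real.log (q v)) (fun v => 2 * Real.log (q v))

/-- the coefficients -/
noncomputable def ce (β : ι → Fin N → ℂ) : ι ⊕ ι → ℝ :=
  Sum.elim (fun v => l1 β v - l2 β v / 2) (fun v => l2 β v / 2)

/-- the correction function -/
noncomputable def GG (q : ι → ℝ) (β : ι → Fin N → ℂ) (w : ℂ) : ℂ :=
  ∑' v, ∑ j, hh (β v j) (yv q v w)

/-- the logarithm of the Euler product -/
noncomputable def gg (q : ι → ℝ) (β : ι → Fin N → ℂ) (w : ℂ) : ℂ :=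
  ∑' v, -∑ j, log (1 - β v j * yv q v w)

variable {q : ι → ℝ} {β : ι → Fin N → ℂ}

namespace LP

theorem logq_pos (D : LP q β) (v : ι) : 0 < Real.log (q v) :=
  Real.log_pos (by linarith [D.two_le v])

theorem q_pos (D : LP q β) (v : ι) : 0 < q v := by linarith [D.two_le v]

theorem norm_yv (D : LP q β) (v : ι) (w : ℂ) : ‖yv q v w‖ = q v ^ (-w.re) := by
  unfold yv
  rw [Complex.norm_exp, Real.rpow_def_of_pos (D.q_pos v)]
  congr 1
  simp
  ring

theorem norm_yv_le (D : LP q β) (v : ι) {w : ℂ} (hw : 0 ≤ w.re) : ‖yv q v w‖ ≤ 1 := by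
  rw [D.norm_yv]
  exact Real.rpow_le_one_of_one_le_of_nonpos (by linarith [D.two_le v]) (by linarith)

theorem sq_le (D : LP q β) (v : ι) (j : Fin N) : ‖β v j‖ ^ 2 ≤ 1 / 2 := by
  have h1 := D.size v j
  have h2 : ‖β v j‖ ^ 2 ≤ (q v ^ (-(1 / 2) : ℝ)) ^ 2 := by
    exact pow_le_pow_left₀ (norm_nonneg _) h1 2
  have h3 : (q v ^ (-(1 / 2) : ℝ)) ^ 2 = (q v)⁻¹ := by
    rw [← Real.rpow_natCast, ← Real.rpow_mul (D.q_pos v).le]
    norm_num
    rw [Real.rpow_neg_one]
  rw [h3] at h2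
  refine h2.trans ?_
  rw [one_div]
  exact inv_anti₀ (by norm_num) (D.two_le v)

theorem cube_le (D : LP q β) (v : ι) (j : Fin N) : ‖β v j‖ ^ 3 ≤ q v ^ (-(3 / 2) : ℝ) := by
  have h1 := D.size v j
  have h2 : ‖β v j‖ ^ 3 ≤ (q v ^ (-(1 / 2) : ℝ)) ^ 3 := by
    exact pow_le_pow_left₀ (norm_nonneg _) h1 3
  refine h2.trans (le_of_eq ?_)
  rw [← Real.rpow_natCast, ← Real.rpow_mul (D.q_pos v).le]
  norm_num

theorem norm_by_lt (D : LP q β) (v : ι) (j : Fin N) {y : ℂ} (hy : ‖y‖ ≤ 1) : ‖β v j * y‖ < 1 := by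
  have h1 := b_small (D.sq_le v j)
  rw [norm_mul]
  have := mul_le_of_le_one_right (norm_nonneg (β v j)) hy
  linarith

theorem l1_eq (D : LP q β) (v : ι) : ∑ j, log (1 - β v j) = (l1 β v : ℂ) := by
  have h1 := log_real (D.real v) (y := 1) (by simp) (fun j => D.norm_by_lt v j (by simp))
  simp only [mul_one] at h1
  unfold l1
  apply Complex.ext
  · simp
  · rw [h1, Complex.ofReal_im]

theorem l2_eq (D : LP q β) (v : ι) : ∑ j, log (1 - β v j ^ 2) = (l2 β v : ℂ) := by
  have h0 : ∀ j, ‖β v j ^ 2‖ < 1 := fun j => by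
    rw [norm_pow]
    linarith [D.sq_le v j]
  have h1 := log_real (β := fun j => β v j ^ 2) (fun k => by
    have := D.real v (2 * k)
    simpa only [pow_mul] using this) (y := 1) (by simp) (fun j => by simpa using h0 j)
  simp only [mul_one] at h1
  unfold l2
  apply Complex.ext
  · simp
  · rw [h1, Complex.ofReal_im]

theorem l1_le (D : LP q β) (v : ι) : |l1 β v| ≤ N * 4 := by
  have h1 : ‖(l1 β v : ℂ)‖ ≤ ∑ _j : Fin N, (4 : ℝ) := by
    rw [← D.l1_eq v]
    refine norm_sum_le_of_le _ fun j _ => ?_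
    have := log_one (D.sq_le v j)
    have := b_small (D.sq_le v j)
    linarith
  rw [Complex.norm_real, Real.norm_eq_abs] at h1
  simpa using h1

theorem l2_le (D : LP q β) (v : ι) : |l2 β v| ≤ N * 4 := by
  have h1 : ‖(l2 β v : ℂ)‖ ≤ ∑ _j : Fin N, (4 : ℝ) := by
    rw [← D.l2_eq v]
    refine norm_sum_le_of_le _ fun j _ => ?_
    have h0 : ‖β v j ^ 2‖ ^ 2 ≤ 1 / 2 := by
      rw [norm_pow]
      have := D.sq_le v j
      nlinarith [sq_nonneg (‖β v j‖)]
    have := log_one h0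
    have := b_small h0
    linarith
  rw [Complex.norm_real, Real.norm_eq_abs] at h1
  simpa using h1

theorem term_bound (D : LP q β) (v : ι) {w : ℂ} (hw : 0 ≤ w.re) :
    ‖∑ j, hh (β v j) (yv q v w)‖ ≤ N * (16 * q v ^ (-(3 / 2) : ℝ)) := by
  have h1 : ‖∑ j, hh (β v j) (yv q v w)‖ ≤ ∑ _j : Fin N, 16 * q v ^ (-(3 / 2) : ℝ) := by
    refine norm_sum_le_of_le _ fun j _ => ?_
    have := hh_bound2 (D.sq_le v j) (D.norm_yv_le v hw)
    have := D.cube_le v j
    linarith
  simpa using h1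

theorem norm_exp_sub_one {z : ℂ} (hz : z.re ≤ 0) : ‖exp z - 1‖ ≤ ‖z‖ := by
  have hc : Convex ℝ {z : ℂ | z.re ≤ 0} := convex_halfSpace_re_le 0
  have h2 := hc.norm_image_sub_le_of_norm_hasDerivWithin_le
    (f := exp) (f' := exp) (C := 1) (fun z _ => (Complex.hasDerivAt_exp z).hasDerivWithinAt)
    (fun z hz => by
      rw [Complex.norm_exp]
      exact Real.exp_le_one_iff.2 hz) (x := 0) (y := z) (by simp) hz
  simpa using h2

theorem term_bound' (D : LP q β) (v : ι) {w : ℂ} (hw : 0 ≤ w.re) :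
    ‖∑ j, hh (β v j) (yv q v w)‖ ≤ N * (32 * q v ^ (-(5 / 4) : ℝ)) * ‖w‖ := by
  have hq := D.q_pos v
  have hy : ‖yv q v w - 1‖ ≤ ‖w‖ * Real.log (q v) := by
    unfold yv
    refine (norm_exp_sub_one ?_).trans ?_
    · simp
      exact mul_nonneg hw (D.logq_pos v).le
    · rw [norm_neg, norm_mul, Complex.norm_real, Real.norm_eq_abs, abs_of_pos (D.logq_pos v)]
  have hl : Real.log (q v) ≤ 4 * q v ^ (1 / 4 : ℝ) := by
    have := Real.log_le_rpow_div hq.le (ε := 1 / 4) (by norm_num)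
    linarith
  have h0 : q v ^ (-(3 / 2) : ℝ) * q v ^ (1 / 4 : ℝ) = q v ^ (-(5 / 4) : ℝ) := by
    rw [← Real.rpow_add hq]; norm_num
  have h1 : ‖∑ j, hh (β v j) (yv q v w)‖ ≤ ∑ _j : Fin N, 32 * q v ^ (-(5 / 4) : ℝ) * ‖w‖ := by
    refine norm_sum_le_of_le _ fun j _ => ?_
    have e1 := hh_bound (D.sq_le v j) (D.norm_yv_le v hw)
    have e2 := D.cube_le v j
    calc ‖hh (β v j) (yv q v w)‖ ≤ 8 * ‖β v j‖ ^ 3 * ‖yv q v w - 1‖ := e1
      _ ≤ 8 * q v ^ (-(3 / 2) : ℝ) * (‖w‖ * (4 * q v ^ (1 / 4 : ℝ))) := by gcongr; exact hy.trans (by gcongr)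
      _ = 32 * (q v ^ (-(3 / 2) : ℝ) * q v ^ (1 / 4 : ℝ)) * ‖w‖ := by ring
      _ = _ := by rw [h0]
  have h2 : ∑ _j : Fin N, 32 * q v ^ (-(5 / 4) : ℝ) * ‖w‖ = N * (32 * q v ^ (-(5 / 4) : ℝ)) * ‖w‖ := by
    simp; ring
  rw [h2] at h1
  exact h1

theorem sum32 (D : LP q β) : Summable fun v => (N : ℝ) * (16 * q v ^ (-(3 / 2) : ℝ)) :=
  ((D.sum (3 / 2) (by norm_num)).mul_left 16).mul_left _

theorem sum54 (D : LP q β) : Summable fun v => (N : ℝ) * (32 * q v ^ (-(5 / 4) : ℝ)) :=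
  ((D.sum (5 / 4) (by norm_num)).mul_left 32).mul_left _

theorem GG_diff (D : LP q β) {w : ℂ} (hw : 0 < w.re) : DifferentiableAt ℂ (GG q β) w := by
  have hopen : IsOpen {z : ℂ | 0 < z.re} := isOpen_lt continuous_const Complex.continuous_re
  have h1 : DifferentiableOn ℂ (GG q β) {z : ℂ | 0 < z.re} := by
    unfold GG
    refine differentiableOn_tsum_of_summable_norm D.sum32 ?_ hopen
      (fun v z hz => D.term_bound v (le_of_lt hz))
    intro v z hz
    refine DifferentiableWithinAt.fun_sum fun j _ => ?_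
    have h2 : DifferentiableAt ℂ (fun w => hh (β v j) (yv q v w)) z := by
      refine DifferentiableAt.comp (g := hh (β v j)) (f := yv q v) z
        (hh_deriv (D.norm_by_lt v j (D.norm_yv_le v (le_of_lt hz)))).differentiableAt ?_
      unfold yv
      fun_prop
    exact h2.differentiableWithinAt
  exact (h1 w hw).differentiableAt (hopen.mem_nhds hw)

theorem GG_bound (D : LP q β) {w : ℂ} (hw : 0 < w.re) :
    ‖GG q β w‖ ≤ ∑' v, (N : ℝ) * (16 * q v ^ (-(3 / 2) : ℝ)) :=
  tsum_of_norm_bounded D.sum32.hasSum fun v => D.term_bound v hw.le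

theorem GG_lip (D : LP q β) {w : ℂ} (hw : 0 < w.re) :
    ‖GG q β w‖ ≤ (∑' v, (N : ℝ) * (32 * q v ^ (-(5 / 4) : ℝ))) * ‖w‖ :=
  tsum_of_norm_bounded (D.sum54.hasSum.mul_right ‖w‖) fun v => D.term_bound' v hw.le

theorem yv_real (v : ι) (x : ℝ) : (yv q v x).im = 0 := by
  have : yv q v x = ((Real.exp (-(x * Real.log (q v))) : ℝ) : ℂ) := by
    unfold yv
    push_cast
    rfl
  rw [this, Complex.ofReal_im]

/-- the local identity -/
theorem local_eq (D : LP q β) (v : ι) (w : ℂ) :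
    ∑ j, hh (β v j) (yv q v w) = -∑ j, log (1 - β v j * yv q v w) +
      ((l1 β v - l2 β v / 2 : ℝ) * yv q v w + (l2 β v / 2 : ℝ) * yv q v (2 * w)) := by
  have h1 := D.l1_eq v
  have h2 := D.l2_eq v
  have h3 : yv q v (2 * w) = yv q v w ^ 2 := by
    unfold yv
    rw [← Complex.exp_nat_mul]
    congr 1
    push_cast
    ring
  unfold hh
  rw [Finset.sum_add_distrib, Finset.sum_add_distrib, ← Finset.mul_sum, ← Finset.mul_sum,
    Finset.sum_neg_distrib, h1, h2, h3]
  push_cast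
  ring

theorem ce_le (D : LP q β) (i : ι ⊕ ι) : |ce β i| ≤ N * 6 := by
  cases i with
  | inl v =>
    have h1 := D.l1_le v
    have h2 := D.l2_le v
    simp only [ce, Sum.elim_inl]
    rw [abs_le] at *
    constructor <;> linarith [h1.1, h1.2, h2.1, h2.2]
  | inr v =>
    have h2 := D.l2_le v
    have hN : (0 : ℝ) ≤ N := Nat.cast_nonneg N
    simp only [ce, Sum.elim_inr]
    rw [abs_le] at *
    constructor <;> linarith [h2.1, h2.2]

theorem la_nonneg (D : LP q β) (i : ι ⊕ ι) : 0 ≤ la q i := by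
  cases i with
  | inl v => exact (D.logq_pos v).le
  | inr v =>
    have := D.logq_pos v
    simp only [la, Sum.elim_inr]
    linarith

theorem la_sum (D : LP q β) {s : ℝ} (hs : 1 < s) : Summable fun i => Real.exp (-(s * la q i)) := by
  have h0 : ∀ v, Real.exp (-(s * Real.log (q v))) = q v ^ (-s) := fun v => by
    rw [Real.rpow_def_of_pos (D.q_pos v)]; congr 1; ring
  have h1 : Summable fun v => Real.exp (-(s * Real.log (q v))) := by
    simp only [h0]
    exact D.sum s hs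
  refine Summable.sum _ ?_ ?_
  · exact h1
  · refine Summable.of_nonneg_of_le (fun v => (Real.exp_pos _).le) (fun v => ?_) h1
    simp only [Function.comp, la, Sum.elim_inr]
    apply Real.exp_le_exp.2
    have := D.logq_pos v
    nlinarith

theorem summ (D : LP q β) {s : ℝ} (hs : 1 < s) :
    Summable fun i => |ce β i| * Real.exp (-(s * la q i)) :=
  Summable.of_nonneg_of_le (fun i => by positivity)
    (fun i => mul_le_mul_of_nonneg_right (D.ce_le i) (Real.exp_pos _).le)
    ((D.la_sum hs).mul_left _)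

theorem GG_im (D : LP q β) {x : ℝ} (hx : 0 < x) : (GG q β x).im = 0 := by
  have hs : Summable fun v => ∑ j, hh (β v j) (yv q v x) :=
    Summable.of_norm_bounded D.sum32 fun v => D.term_bound v (by simpa using hx.le)
  unfold GG
  rw [Complex.im_tsum hs]
  have h1 : ∀ v, (∑ j, hh (β v j) (yv q v x)).im = 0 := by
    intro v
    rw [D.local_eq v]
    have h2 := log_real (D.real v) (yv_real (q := q) v x) (fun j => D.norm_by_lt v j
      (D.norm_yv_le v (by simpa using hx.le)))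
    have h3 : (2 : ℂ) * (x : ℂ) = ((2 * x : ℝ) : ℂ) := by push_cast; ring
    rw [h3]
    have h4 := yv_real (q := q) v x
    have h5 := yv_real (q := q) v (2 * x)
    rw [Complex.add_im, Complex.neg_im, h2, Complex.add_im, Complex.im_ofReal_mul,
      Complex.im_ofReal_mul, h4, h5]
    ring
  simp only [h1, tsum_zero]

theorem sdata (D : LP q β) : SData (la q) (ce β) (GG q β) where
  lam_pos := D.la_nonneg
  sum := D.summ (by norm_num)
  Gd := fun w hw => D.GG_diff hw
  Gb := ⟨_, fun w hw _ => D.GG_bound hw⟩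
  G2 := by
    have := D.GG_im (x := 2) (by norm_num)
    simpa using this

theorem norm_log (D : LP q β) (v : ι) {w : ℂ} (hw : 1 < w.re) :
    ‖-∑ j, log (1 - β v j * yv q v w)‖ ≤ N * (4 * q v ^ (-w.re)) := by
  rw [norm_neg]
  have h1 : ‖∑ j, log (1 - β v j * yv q v w)‖ ≤ ∑ _j : Fin N, 4 * q v ^ (-w.re) := by
    refine norm_sum_le_of_le _ fun j _ => ?_
    have hy : ‖β v j * yv q v w‖ ≤ q v ^ (-w.re) := by
      rw [norm_mul, D.norm_yv]
      refine mul_le_of_le_one_left (Real.rpow_nonneg (D.q_pos v).le _) ?_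
      have := b_small (D.sq_le v j)
      linarith
    have hh1 : q v ^ (-w.re) ≤ 1 / 2 := by
      calc q v ^ (-w.re) ≤ q v ^ (-1 : ℝ) :=
            Real.rpow_le_rpow_of_exponent_le (by linarith [D.two_le v]) (by linarith)
        _ = (q v)⁻¹ := Real.rpow_neg_one _
        _ ≤ 1 / 2 := by
            rw [one_div]
            exact inv_anti₀ (by norm_num) (D.two_le v)
    have h2 : ‖β v j * yv q v w‖ ^ 2 ≤ 1 / 2 := by
      have h0 := norm_nonneg (β v j * yv q v w)
      nlinarith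
    have h3 := log_one h2
    linarith
  simpa using h1

theorem log_summ (D : LP q β) {w : ℂ} (hw : 1 < w.re) :
    Summable fun v => -∑ j, log (1 - β v j * yv q v w) :=
  Summable.of_norm_bounded (((D.sum w.re hw).mul_left 4).mul_left _) fun v => D.norm_log v hw

theorem term_summ (D : LP q β) {w : ℂ} (hw : 1 < w.re) :
    Summable fun i => (ce β i : ℂ) * exp (-(w * la q i)) := by
  refine Summable.of_norm ?_
  refine (D.summ hw).congr fun i => ?_
  rw [norm_mul, Complex.norm_real, Real.norm_eq_abs, Complex.norm_exp]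
  congr 2
  simp

/-- `GG - ser = log L` -/
theorem main_eq (D : LP q β) {w : ℂ} (hw : 1 < w.re) :
    GG q β w - ser (la q) (ce β) w = gg q β w := by
  have h1 := D.log_summ hw
  have h2 := D.term_summ hw
  have h3 : ser (la q) (ce β) w = ∑' v, ((l1 β v - l2 β v / 2 : ℝ) * yv q v w +
      (l2 β v / 2 : ℝ) * yv q v (2 * w)) := by
    unfold ser
    have ha := h2.comp_injective Sum.inl_injective
    have hb := h2.comp_injective Sum.inr_injective
    have h4 := (HasSum.sum ha.hasSum hb.hasSum).tsum_eq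
    rw [h4, ← ha.tsum_add hb]
    refine tsum_congr fun v => ?_
    simp only [Function.comp, ce, la, Sum.elim_inl, Sum.elim_inr, yv]
    congr 3
    push_cast
    ring
  have h5 : Summable fun v => ((l1 β v - l2 β v / 2 : ℝ) * yv q v w +
      (l2 β v / 2 : ℝ) * yv q v (2 * w)) := by
    have ha := h2.comp_injective Sum.inl_injective
    have hb := h2.comp_injective Sum.inr_injective
    refine (ha.add hb).congr fun v => ?_
    simp only [Function.comp, ce, la, Sum.elim_inl, Sum.elim_inr, yv]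
    congr 3
    push_cast
    ring
  unfold GG gg
  simp only [D.local_eq]
  rw [h1.tsum_add h5, h3]
  ring

end LP

end Pool.Agent.E8helper25.LT
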