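import Pool.Agent.R426.QC.Ep
import Pool.Agent.H484R2.Zeta
import Pool.Agent.E8helper25.LT.Coef

/-! Euler products over the primes of a number field. -/

set_option autoImplicit false

namespace Pool.Agent.E8helper25.LT

open Filter Topology NumberField IsDedekindDomain Ideal UniqueFactorizationMonoid
open Pool.Agent.R426.QC (CMI hasProdI)
open Pool.Agent.H484R2 (NZI)

variable {K : Type} [Field K] [NumberField K]

/-- the norm of a prime -/
noncomputable def qK (v : HeightOneSpectrum (𝓞 K)) : ℝ := (absNorm v.asIdeal : ℝ)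

theorem summ_norm {x : ℝ} (hx : 1 < x) :
    Summable fun I : NZI K => (absNorm I.1 : ℝ) ^ (-x) := by
  have h := (Pool.Agent.H484R2.hasSum_ideals K (s := (x : ℂ)) (by simpa using hx)).summable.norm
  refine h.congr fun I => ?_
  have h1 : 0 < absNorm I.1 := by
    rw [Nat.pos_iff_ne_zero, Ne, absNorm_eq_zero_iff]
    exact I.2
  rw [Complex.norm_natCast_cpow_of_pos h1]
  simp

/-- completely multiplicative functions of the form `χ(I) N(I)^{-s}` -/
theorem cmi_of {χ : Ideal (𝓞 K) → ℂ} (h0 : χ ⊥ = 0) (h1 : χ ⊤ = 1) (hm : ∀ I J, χ (I * J) = χ I * χ J)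
    {y : ℝ} (hb : ∀ I, ‖χ I‖ ≤ (absNorm I : ℝ) ^ y) {s : ℂ} (hs : 1 + y < s.re) :
    CMI (fun I : Ideal (𝓞 K) => χ I * (absNorm I : ℂ) ^ (-s)) ∧
      HasSum (fun I : NZI K => χ I.1 * (absNorm I.1 : ℂ) ^ (-s))
        (∑' I : Ideal (𝓞 K), χ I * (absNorm I : ℂ) ^ (-s)) := by
  have hsum : Summable fun I : NZI K => χ I.1 * (absNorm I.1 : ℂ) ^ (-s) := by
    refine Summable.of_norm_bounded (summ_norm (K := K) (x := s.re - y) (by linarith)) fun I => ?_
    have h2 : 0 < absNorm I.1 := by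
      rw [Nat.pos_iff_ne_zero, Ne, absNorm_eq_zero_iff]
      exact I.2
    have h3 : (0 : ℝ) < (absNorm I.1 : ℝ) := by exact_mod_cast h2
    rw [norm_mul, Complex.norm_natCast_cpow_of_pos h2]
    calc ‖χ I.1‖ * (absNorm I.1 : ℝ) ^ (-s).re ≤
        (absNorm I.1 : ℝ) ^ y * (absNorm I.1 : ℝ) ^ (-s).re :=
          mul_le_mul_of_nonneg_right (hb _) (by positivity)
      _ = (absNorm I.1 : ℝ) ^ (-(s.re - y)) := by
          rw [← Real.rpow_add h3, Complex.neg_re]; congr 1; ring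
  have hsupp : Function.support (fun I : Ideal (𝓞 K) => χ I * (absNorm I : ℂ) ^ (-s)) ⊆
      {I | I ≠ ⊥} := by
    intro I hI h
    rw [Function.mem_support] at hI
    apply hI
    rw [show I = ⊥ from h, h0, zero_mul]
  have hall : Summable fun I : Ideal (𝓞 K) => χ I * (absNorm I : ℂ) ^ (-s) :=
    (hasSum_subtype_iff_of_support_subset hsupp).1 hsum.hasSum |>.summable
  refine ⟨⟨by rw [h0, zero_mul], ?_, fun I J => ?_, hall⟩, ?_⟩
  · rw [h1, absNorm_top, Nat.cast_one, Complex.one_cpow, one_mul]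
  · rw [hm, map_mul]
    have h2 : ((absNorm I * absNorm J : ℕ) : ℂ) ^ (-s) =
        (absNorm I : ℂ) ^ (-s) * (absNorm J : ℂ) ^ (-s) := by
      push_cast
      simpa only [Complex.ofReal_natCast] using
        Complex.mul_cpow_ofReal_nonneg (absNorm I).cast_nonneg (absNorm J).cast_nonneg (-s)
    rw [h2]
    ring
  · exact (hasSum_subtype_iff_of_support_subset hsupp).2 hall.hasSum

theorem group_aux (χ : Ideal (𝓞 K) → ℂ) (s : ℂ) (n : ℕ) :
    LSeries.term (fun n => ∑' b : ((fun I : NZI K => absNorm I.1) ⁻¹' {n} : Set (NZI K)),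
      χ (b : NZI K).1) s n = ∑' b : ((fun I : NZI K => absNorm I.1) ⁻¹' {n} : Set (NZI K)),
      χ (b : NZI K).1 * (absNorm (b : NZI K).1 : ℂ) ^ (-s) := by
  rcases Nat.eq_zero_or_pos n with rfl | hn
  · rw [LSeries.term_zero]
    have : IsEmpty ((fun I : NZI K => absNorm I.1) ⁻¹' {0} : Set (NZI K)) := by
      refine ⟨fun b => ?_⟩
      have hb : absNorm (b : NZI K).1 = 0 := b.2
      rw [absNorm_eq_zero_iff] at hb
      exact (b : NZI K).2 hb
    rw [tsum_empty]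
  · rw [LSeries.term_of_ne_zero hn.ne', div_eq_mul_inv, ← Complex.cpow_neg, ← tsum_mul_right]
    refine tsum_congr fun b => ?_
    have hb : absNorm (b : NZI K).1 = n := b.2
    rw [hb]

/-- grouping by the norm -/
theorem group_norm (χ : Ideal (𝓞 K) → ℂ) : ∃ a : ℕ → ℂ, ∀ (s A : ℂ),
    HasSum (fun I : NZI K => χ I.1 * (absNorm I.1 : ℂ) ^ (-s)) A → LSeriesHasSum a s A := by
  refine ⟨fun n => ∑' b : ((fun I : NZI K => absNorm I.1) ⁻¹' {n} : Set (NZI K)), χ (b : NZI K).1,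
    fun s A h => ?_⟩
  have h1 := h.tsum_fiberwise (fun I : NZI K => absNorm I.1)
  have e : LSeries.term (fun n => ∑' b : ((fun I : NZI K => absNorm I.1) ⁻¹' {n} : Set (NZI K)),
      χ (b : NZI K).1) s = fun n => ∑' b : ((fun I : NZI K => absNorm I.1) ⁻¹' {n} : Set (NZI K)),
      χ (b : NZI K).1 * (absNorm (b : NZI K).1 : ℂ) ^ (-s) := by
    funext n
    exact group_aux χ s n
  unfold LSeriesHasSum
  rw [e]
  exact h1

/-- the completely multiplicative function on the ideals with given values at the primes -/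
noncomputable def chi (f : HeightOneSpectrum (𝓞 K) → ℂ) (I : Ideal (𝓞 K)) : ℂ :=
  open Classical in
  if I = ⊥ then 0 else ((normalizedFactors I).map fun P : Ideal (𝓞 K) =>
    if h : P.IsPrime ∧ P ≠ ⊥ then f ⟨P, h.1, h.2⟩ else 1).prod

theorem chi_bot (f : HeightOneSpectrum (𝓞 K) → ℂ) : chi f ⊥ = 0 := by
  unfold chi
  rw [if_pos rfl]

theorem chi_top (f : HeightOneSpectrum (𝓞 K) → ℂ) : chi f ⊤ = 1 := by
  unfold chi
  rw [if_neg top_ne_bot, ← Ideal.one_eq_top, normalizedFactors_one, Multiset.map_zero,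
    Multiset.prod_zero]

theorem chi_mul (f : HeightOneSpectrum (𝓞 K) → ℂ) (I J : Ideal (𝓞 K)) :
    chi f (I * J) = chi f I * chi f J := by
  by_cases hI : I = ⊥
  · rw [hI, Ideal.bot_mul, chi_bot, zero_mul]
  by_cases hJ : J = ⊥
  · rw [hJ, Ideal.mul_bot, chi_bot, mul_zero]
  have hIJ : I * J ≠ ⊥ := fun h => by
    rcases Ideal.mul_eq_bot.1 h with h | h
    · exact hI h
    · exact hJ h
  unfold chi
  rw [if_neg hI, if_neg hJ, if_neg hIJ, normalizedFactors_mul hI hJ, Multiset.map_add,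
    Multiset.prod_add]

theorem chi_prime (f : HeightOneSpectrum (𝓞 K) → ℂ) (v : HeightOneSpectrum (𝓞 K)) :
    chi f v.asIdeal = f v := by
  unfold chi
  rw [if_neg v.ne_bot, normalizedFactors_irreducible v.irreducible, Multiset.map_singleton,
    Multiset.prod_singleton, normalize_eq, dif_pos ⟨v.isPrime, v.ne_bot⟩]

theorem chi_le {f : HeightOneSpectrum (𝓞 K) → ℂ} (hf : ∀ v, ‖f v‖ ≤ qK v ^ (1 / 2 : ℝ))
    (I : Ideal (𝓞 K)) : ‖chi f I‖ ≤ (absNorm I : ℝ) ^ (1 / 2 : ℝ) := by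
  induction I using UniqueFactorizationMonoid.induction_on_prime with
  | h₁ =>
    have h0 : (0 : Ideal (𝓞 K)) = ⊥ := rfl
    rw [h0, chi_bot, norm_zero]
    positivity
  | h₂ I hI =>
    rw [Ideal.isUnit_iff.1 hI, chi_top, norm_one, absNorm_top]
    simp
  | h₃ I P hI hP ih =>
    have hP1 : P ≠ ⊥ := hP.ne_zero
    have hP2 : P.IsPrime := Ideal.isPrime_of_prime hP
    have h1 : chi f P = f ⟨P, hP2, hP1⟩ := chi_prime f ⟨P, hP2, hP1⟩
    rw [chi_mul, norm_mul, map_mul, Nat.cast_mul,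
      Real.mul_rpow (Nat.cast_nonneg _) (Nat.cast_nonneg _), h1]
    exact mul_le_mul (hf ⟨P, hP2, hP1⟩) ih (norm_nonneg _) (by positivity)

/-- one factor -/
theorem chi_hasSum {f : HeightOneSpectrum (𝓞 K) → ℂ} (hf : ∀ v, ‖f v‖ ≤ qK v ^ (1 / 2 : ℝ)) :
    ∃ a : ℕ → ℂ, ∀ s : ℂ, 3 / 2 < s.re →
      LSeriesHasSum a s (∏' v : HeightOneSpectrum (𝓞 K), (1 - f v * (qK v : ℂ) ^ (-s))⁻¹) ∧
      Multipliable fun v : HeightOneSpectrum (𝓞 K) => (1 - f v * (qK v : ℂ) ^ (-s))⁻¹ := by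
  obtain ⟨a, ha⟩ := group_norm (K := K) (chi f)
  refine ⟨a, fun s hs => ?_⟩
  obtain ⟨h1, h2⟩ := cmi_of (chi_bot f) (chi_top f) (chi_mul f) (chi_le hf) (s := s) (by linarith)
  have h3 := hasProdI h1
  simp only [chi_prime] at h3
  have h4 : (fun v : HeightOneSpectrum (𝓞 K) => (1 - f v * (absNorm v.asIdeal : ℂ) ^ (-s))⁻¹) =
      fun v => (1 - f v * (qK v : ℂ) ^ (-s))⁻¹ := by
    funext v
    unfold qK
    rw [Complex.ofReal_natCast]
  rw [h4] at h3
  refine ⟨?_, h3.multipliable⟩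
  rw [h3.tprod_eq]
  exact ha s _ h2

/-- existence of the Dirichlet coefficients -/
theorem exists_coeffK {N : ℕ} (α : HeightOneSpectrum (𝓞 K) → Fin N → ℂ)
    (hα : ∀ v j, ‖α v j‖ ≤ qK v ^ (1 / 2 : ℝ)) :
    ∃ a : ℕ → ℂ, ∀ s : ℂ, 3 / 2 < s.re →
      LSeriesHasSum a s
        (∏' v : HeightOneSpectrum (𝓞 K), ∏ j, (1 - α v j * (qK v : ℂ) ^ (-s))⁻¹) := by
  have hj := fun j => chi_hasSum (K := K) (f := fun v => α v j) fun v => hα v j
  choose b hb using hj
  have key : ∀ J : Finset (Fin N), ∃ a : ℕ → ℂ, ∀ s : ℂ, 3 / 2 < s.re →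
      LSeriesHasSum a s (∏ j ∈ J, ∏' v : HeightOneSpectrum (𝓞 K),
        (1 - α v j * (qK v : ℂ) ^ (-s))⁻¹) := by
    intro J
    induction J using Finset.induction_on with
    | empty =>
      refine ⟨LSeries.delta, fun s _ => ?_⟩
      rw [Finset.prod_empty]
      exact delta_hasSum s
    | insert j J hj ih =>
      obtain ⟨a, ha⟩ := ih
      refine ⟨LSeries.convolution (b j) a, fun s hs => ?_⟩
      rw [Finset.prod_insert hj]
      exact (hb j s hs).1.convolution (ha s hs)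
  obtain ⟨a, ha⟩ := key Finset.univ
  refine ⟨a, fun s hs => ?_⟩
  have h1 := ha s hs
  have h2 : ∏' v : HeightOneSpectrum (𝓞 K), ∏ j, (1 - α v j * (qK v : ℂ) ^ (-s))⁻¹ =
      ∏ j, ∏' v : HeightOneSpectrum (𝓞 K), (1 - α v j * (qK v : ℂ) ^ (-s))⁻¹ := by
    refine HasProd.tprod_eq ?_
    exact hasProd_prod fun j _ => (hb j s hs).2.hasProd
  rw [h2]
  exact h1

/-- the Euler product of the Dedekind zeta function -/
theorem zeta_prod {s : ℂ} (hs : 1 < s.re) :
    HasProd (fun v : HeightOneSpectrum (𝓞 K) => (1 - (qK v : ℂ) ^ (-s))⁻¹) (dedekindZeta K s) := by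
  classical
  have hs0 : s ≠ 0 := by
    rintro rfl
    simp at hs
    linarith
  obtain ⟨h1, h2⟩ := cmi_of (K := K) (χ := fun I => if I = ⊥ then 0 else 1) (if_pos rfl)
    (if_neg top_ne_bot) (fun I J => by
      by_cases hI : I = ⊥
      · simp [hI]
      by_cases hJ : J = ⊥
      · simp [hJ]
      have hIJ : I * J ≠ ⊥ := fun h => by
        rcases Ideal.mul_eq_bot.1 h with h | h
        · exact hI h
        · exact hJ h
      rw [if_neg hI, if_neg hJ, if_neg hIJ, one_mul]) (y := 0) (fun I => by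
      rw [Real.rpow_zero]
      split_ifs <;> simp) (s := s) (by linarith)
  have h3 := hasProdI h1
  have h4 : (fun v : HeightOneSpectrum (𝓞 K) =>
      (1 - (if v.asIdeal = ⊥ then 0 else 1) * (absNorm v.asIdeal : ℂ) ^ (-s))⁻¹) =
      fun v => (1 - (qK v : ℂ) ^ (-s))⁻¹ := by
    funext v
    unfold qK
    rw [if_neg v.ne_bot, Complex.ofReal_natCast, one_mul]
  rw [h4] at h3
  have h5 : HasSum (fun I : NZI K => (absNorm I.1 : ℂ) ^ (-s)) (dedekindZeta K s) := by
    rw [Pool.Agent.H484R2.zeta_eq K hs]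
    exact Pool.Agent.H484R2.hasSum_ideals K hs
  have h6 : (fun I : NZI K => (if I.1 = ⊥ then (0 : ℂ) else 1) * (absNorm I.1 : ℂ) ^ (-s)) =
      fun I : NZI K => (absNorm I.1 : ℂ) ^ (-s) := by
    funext I
    rw [if_neg I.2, one_mul]
  rw [h6] at h2
  rw [h5.unique h2]
  exact h3

end Pool.Agent.E8helper25.LT
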