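import Pool.Agent.E8helper25.LT.Gen
import Pool.Agent.W196.S2.Refg
import Pool.Agent.W351.S2.Jo
import Pool.Agent.W187.UR.NF

/-! The law for the rotated products with the terms of the quadratic extensions. -/

set_option autoImplicit false

namespace Pool.Agent.E8helper25.LT

open Complex MeasureTheory Filter Topology Set Asymptotics
open Pool.Agent.W189.ML Pool.Agent.W189.LC Pool.Agent.W187.S2
open Pool.Agent.W187.UR (Lam Lam_eq cmean belc facc Bel)

variable {ι : Type} {N : ℕ} {q : ι → ℝ} {β : ι → Fin N → ℂ}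

/-- the term of `v` -/
noncomputable def wt (q : ι → ℝ) (β : ι → Fin N → ℂ) (c T : ℝ) (v : ι) : ℂ :=
  kk c (Real.log (q v) / T) * l1 β v +
    (kk c (2 * (Real.log (q v) / T)) - kk c (Real.log (q v) / T)) / 2 * l2 β v

/-- the sum -/
noncomputable def WW (q : ι → ℝ) (β : ι → Fin N → ℂ) (c T : ℝ) : ℂ := ∑' v, wt q β c T v

/-- the term of the mean -/
noncomputable def ct (q : ι → ℝ) (β : ι → Fin N → ℂ) (c T : ℝ) (i : ι ⊕ ι) : ℂ :=
  (ce β i : ℂ) * exp ((c * (la q i / T) : ℝ) * I) * (om (la q i / T) : ℂ)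

namespace LP

theorem ct_summ (D : LP q β) (c : ℝ) {T : ℝ} (hT : 0 < T) : Summable fun i => ‖ct q β c T i‖ := by
  refine Summable.of_nonneg_of_le (fun i => norm_nonneg _) (fun i => ?_)
    ((D.summ (s := 2) (by norm_num)).mul_left (Real.exp (Real.exp (2 * T)) + 1))
  have h1 : 0 ≤ la q i / T := div_nonneg (D.la_nonneg i) hT.le
  have h0 := om_nonneg h1
  have h2 := om_le (a := 2 * T) (v := la q i / T) (by positivity) h1
  have h3 : 2 * T * (la q i / T) = 2 * la q i := by field_simp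
  rw [h3] at h2
  unfold ct
  rw [norm_mul, norm_mul, Complex.norm_exp_ofReal_mul_I, Complex.norm_real, Complex.norm_real,
    Real.norm_eq_abs, Real.norm_eq_abs, abs_of_nonneg h0, mul_one]
  calc |ce β i| * om (la q i / T) ≤
      |ce β i| * ((Real.exp (Real.exp (2 * T)) + 1) * Real.exp (-(2 * la q i))) :=
        mul_le_mul_of_nonneg_left h2 (abs_nonneg _)
    _ = _ := by ring

theorem wt_eq (c T : ℝ) (v : ι) :
    wt q β c T v = ct q β c T (Sum.inl v) + ct q β c T (Sum.inr v) := by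
  unfold wt ct kk ce la
  simp only [Sum.elim_inl, Sum.elim_inr]
  rw [mul_div_assoc 2 (Real.log (q v)) T]
  push_cast
  ring

theorem wt_summ (D : LP q β) (c : ℝ) {T : ℝ} (hT : 0 < T) : Summable fun v => ‖wt q β c T v‖ := by
  have h := D.ct_summ c hT
  refine Summable.of_nonneg_of_le (fun v => norm_nonneg _) (fun v => ?_)
    ((h.comp_injective Sum.inl_injective).add (h.comp_injective Sum.inr_injective))
  rw [wt_eq]
  exact norm_add_le _ _

theorem WW_eq (D : LP q β) (c : ℝ) {T : ℝ} (hT : 0 < T) : WW q β c T = cmean (la q) (ce β) c T := by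
  have h := (D.ct_summ c hT).of_norm
  have ha := h.comp_injective Sum.inl_injective
  have hb := h.comp_injective Sum.inr_injective
  have h4 : (∑' i, ct q β c T i) = _ := (HasSum.sum ha.hasSum hb.hasSum).tsum_eq
  unfold WW
  rw [show (∑' v, wt q β c T v) = ∑' v, ((ct q β c T ∘ Sum.inl) v + (ct q β c T ∘ Sum.inr) v) from
    tsum_congr fun v => wt_eq c T v, ha.tsum_add hb]
  exact h4.symm

variable {Φ : ℂ → ℂ}

theorem g_analytic (D : LP q β) {w : ℂ} (hw : 1 < w.re) :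
    AnalyticAt ℂ (fun w => GG q β w - ser (la q) (ce β) w) w := by
  have hopen : IsOpen {z : ℂ | 0 < z.re} := isOpen_lt continuous_const Complex.continuous_re
  have h1 : DifferentiableOn ℂ (GG q β) {z : ℂ | 0 < z.re} := fun z hz =>
    (D.GG_diff hz).differentiableWithinAt
  have h2 : AnalyticAt ℂ (GG q β) w :=
    h1.analyticAt (hopen.mem_nhds (show 0 < w.re by linarith))
  exact h2.sub (Pool.Agent.W189.NF.ser_analytic D.la_nonneg (fun σ hσ => D.summ hσ) hw)

theorem order_right (D : LP q β) (hΦ : ∀ w : ℂ, 1 < w.re → Φ w = exp (gg q β w)) {w : ℂ}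
    (hw : 1 < w.re) : meromorphicOrderAt Φ w = 0 := by
  have hopen : IsOpen {z : ℂ | 1 < z.re} := isOpen_lt continuous_const Complex.continuous_re
  have h1 : Φ =ᶠ[𝓝 w] fun z => exp (GG q β z - ser (la q) (ce β) z) := by
    filter_upwards [hopen.mem_nhds hw] with z hz
    rw [hΦ z hz, D.main_eq hz]
  have h2 : AnalyticAt ℂ Φ w := (D.g_analytic hw).cexp.congr h1.symm
  rw [h2.meromorphicOrderAt_eq, h2.analyticOrderAt_eq_zero.2 (by
    rw [hΦ w hw]; exact Complex.exp_ne_zero _)]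
  rfl

theorem order_ne_top (D : LP q β) (hmer : ∀ x ∈ Icc (0 : ℝ) 2, MeromorphicAt Φ (x : ℂ))
    (hΦ : ∀ w : ℂ, 1 < w.re → Φ w = exp (gg q β w)) {x : ℝ} (hx : x ∈ Icc (0 : ℝ) 2) :
    meromorphicOrderAt Φ (x : ℂ) ≠ ⊤ := by
  set U : Set ℂ := (fun x : ℝ => (x : ℂ)) '' Icc 0 2 with hU
  have hm : MeromorphicOn Φ U := by
    rintro _ ⟨y, hy, rfl⟩
    exact hmer y hy
  have hc : IsPreconnected U :=
    isPreconnected_Icc.image _ (Continuous.continuousOn (by fun_prop))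
  refine hm.meromorphicOrderAt_ne_top_of_isPreconnected hc (x := ((2 : ℝ) : ℂ))
    ⟨2, ⟨by norm_num, le_rfl⟩, rfl⟩ ⟨x, hx, rfl⟩ ?_
  rw [D.order_right hΦ (by simp)]
  exact WithTop.zero_ne_top

/-- **the law** -/
theorem law [Countable ι] (D : LP q β) (hmer : ∀ x ∈ Icc (0 : ℝ) 2, MeromorphicAt Φ (x : ℂ))
    (hΦ : ∀ w : ℂ, 1 < w.re → Φ w = exp (gg q β w)) :
    ∃ (m : ℤ) (r₀ : ℂ), meromorphicOrderAt Φ 0 = m ∧ exp r₀ = meromorphicTrailingCoeffAt Φ 0 ∧
      ∀ c : ℝ, Real.pi / 2 < c → ∃ C T₀ : ℝ, 0 ≤ C ∧ 1 ≤ T₀ ∧ ∀ T ≥ T₀,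
        ‖WW q β c T - (m * Real.log T - m * Lam c - r₀)‖ ≤ C / T := by
  have h0 : meromorphicOrderAt Φ 0 ≠ ⊤ := by
    have := D.order_ne_top hmer hΦ (x := 0) ⟨le_rfl, by norm_num⟩
    rwa [Complex.ofReal_zero] at this
  obtain ⟨m, hm⟩ := WithTop.ne_top_iff_exists.1 h0
  obtain ⟨η, B, L, r₀, hL, hL2, hexp, -⟩ := belc facc Φ
    (fun w => GG q β w - ser (la q) (ce β) w) hmer
    (fun x hx => D.order_ne_top hmer hΦ hx) (fun w hw => D.g_analytic hw)
    (fun w hw => by rw [hΦ w hw, D.main_eq hw])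
    (fun x hx => by
      rw [Complex.sub_im, D.GG_im (by linarith), ser_real, sub_zero]) m hm.symm
  refine ⟨m, r₀, hm.symm, hexp, fun c hc => ?_⟩
  have hc0 : 0 ≤ c := by have := Real.pi_pos; linarith
  obtain ⟨C, T₀, hC, hT₀, hT⟩ := Pool.Agent.W196.S2.refg (la q) (ce β) (GG q β) D.sdata c hc
    m r₀ L η B hL hL2
  have hC2 : 0 ≤ ∑' v, (N : ℝ) * (32 * q v ^ (-(5 / 4) : ℝ)) :=
    tsum_nonneg fun v => by have := D.q_pos v; positivity
  obtain ⟨M, hM, h3⟩ := Pool.Agent.W351.S2.jo (GG q β) _ c hc0 hC2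
    (fun w hw => D.GG_diff hw) (fun w hw => D.GG_lip hw)
  refine ⟨C + M, max T₀ (1 + c), by positivity, hT₀.trans (le_max_left _ _), fun T hTT => ?_⟩
  have hT1 : T₀ ≤ T := (le_max_left _ _).trans hTT
  have hT2 : 1 + c ≤ T := (le_max_right _ _).trans hTT
  have hT0 : 0 < T := by linarith
  have e1 := hT T hT1
  have e2 := h3 T hT2
  rw [Lam_eq] at e1
  rw [D.WW_eq c hT0]
  set A1 := cmean (la q) (ce β) c T
  set A2 := J (2 * T) fun z => GG q β ((z - c * I) / T)
  have e5 : A1 - (m * Real.log T - m * Lam c - r₀) =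
      (A1 - A2 - (m * Real.log T - m * Lam c - r₀)) + A2 := by ring
  rw [e5, add_div]
  exact (norm_add_le _ _).trans (add_le_add e1 e2)

end LP

end Pool.Agent.E8helper25.LT
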