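import Mathlib

/-! Local terms: the correction function for the sums with the terms of the residue field and of its
quadratic extension. -/

set_option autoImplicit false

namespace Pool.Agent.E8helper25.LT

open Complex Filter Topology Set

/-- `h(β, y) = -log (1 - β y) + y log (1 - β) + (y² - y)/2 log (1 - β²)` -/
noncomputable def hh (β y : ℂ) : ℂ :=
  -log (1 - β * y) + y * log (1 - β) + (y ^ 2 - y) / 2 * log (1 - β ^ 2)

theorem hh_one (β : ℂ) : hh β 1 = 0 := by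
  unfold hh
  simp

/-- `∂h/∂y` -/
noncomputable def hd (β y : ℂ) : ℂ :=
  β / (1 - β * y) + log (1 - β) + (2 * y - 1) / 2 * log (1 - β ^ 2)

theorem slit_of_norm {z : ℂ} (hz : ‖z‖ < 1) : 1 - z ∈ slitPlane := by
  left
  have h1 := Complex.abs_re_le_norm z
  have h2 := abs_le.1 h1
  rw [Complex.sub_re, Complex.one_re]
  linarith [h2.2]

theorem hh_deriv {β y : ℂ} (h : ‖β * y‖ < 1) : HasDerivAt (hh β) (hd β y) y := by
  have h1 : HasDerivAt (fun y : ℂ => 1 - β * y) (-β) y := by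
    have := ((hasDerivAt_id y).const_mul β).const_sub 1
    simpa using this
  have h2 := (h1.clog (slit_of_norm h)).neg
  have h3 : HasDerivAt (fun y : ℂ => y * log (1 - β)) (log (1 - β)) y := by
    simpa using (hasDerivAt_id y).mul_const (log (1 - β))
  have h4 : HasDerivAt (fun y : ℂ => (y ^ 2 - y) / 2 * log (1 - β ^ 2))
      ((2 * y - 1) / 2 * log (1 - β ^ 2)) y := by
    have h5 : HasDerivAt (fun y : ℂ => y ^ 2) (2 * y) y := by
      simpa using hasDerivAt_pow 2 y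
    exact ((h5.sub (hasDerivAt_id y)).div_const 2).mul_const _
  have h5 := (h2.add h3).add h4
  have e : hd β y = -(-β / (1 - β * y)) + log (1 - β) + (2 * y - 1) / 2 * log (1 - β ^ 2) := by
    unfold hd
    ring
  rw [e]
  exact h5

theorem b_small {β : ℂ} (hβ : ‖β‖ ^ 2 ≤ 1 / 2) : ‖β‖ ≤ 3 / 4 := by
  nlinarith [norm_nonneg β]

theorem log_two {β : ℂ} (hβ : ‖β‖ ^ 2 ≤ 1 / 2) :
    ‖log (1 - β) + β + β ^ 2 / 2‖ ≤ 2 * ‖β‖ ^ 3 := by
  have hb := b_small hβ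
  have h1 := Complex.norm_log_sub_logTaylor_le 2 (z := -β) (by rw [norm_neg]; linarith)
  have h2 : logTaylor 3 (-β) = -β - β ^ 2 / 2 := by
    simp [logTaylor_succ, logTaylor_zero]
    ring
  rw [h2, norm_neg] at h1
  have h3 : log (1 - β) + β + β ^ 2 / 2 = log (1 + -β) - (-β - β ^ 2 / 2) := by
    rw [← sub_eq_add_neg]; ring
  rw [h3]
  refine h1.trans ?_
  have h4 : (1 - ‖β‖)⁻¹ ≤ 4 := by
    rw [inv_le_comm₀ (by linarith) (by norm_num)]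
    linarith
  have h5 : 0 ≤ ‖β‖ ^ 3 := by positivity
  norm_num
  calc ‖β‖ ^ 3 * (1 - ‖β‖)⁻¹ / 3 ≤ ‖β‖ ^ 3 * 4 / 3 := by gcongr
    _ ≤ 2 * ‖β‖ ^ 3 := by linarith

theorem log_sq {β : ℂ} (hβ : ‖β‖ ^ 2 ≤ 1 / 2) :
    ‖log (1 - β ^ 2) + β ^ 2‖ ≤ ‖β‖ ^ 3 := by
  have hb := b_small hβ
  have h1 := Complex.norm_log_sub_logTaylor_le 1 (z := -β ^ 2) (by
    rw [norm_neg, norm_pow]; linarith)
  have h2 : logTaylor 2 (-β ^ 2) = -β ^ 2 := by
    simp [logTaylor_succ, logTaylor_zero]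
  rw [h2, norm_neg, norm_pow] at h1
  have h3 : log (1 - β ^ 2) + β ^ 2 = log (1 + -β ^ 2) - (-β ^ 2) := by
    rw [← sub_eq_add_neg]; ring
  rw [h3]
  refine h1.trans ?_
  have h4 : (1 - ‖β‖ ^ 2)⁻¹ ≤ 2 := by
    rw [inv_le_comm₀ (by linarith) (by norm_num)]
    linarith
  norm_num
  have h5 : 0 ≤ ‖β‖ ^ 3 := by positivity
  calc (‖β‖ ^ 2) ^ 2 * (1 - ‖β‖ ^ 2)⁻¹ / 2 ≤ (‖β‖ ^ 2) ^ 2 * 2 / 2 := by gcongr
    _ = ‖β‖ ^ 3 * ‖β‖ := by ring
    _ ≤ ‖β‖ ^ 3 * 1 := by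
        refine mul_le_mul_of_nonneg_left (by linarith) h5
    _ = ‖β‖ ^ 3 := mul_one _

theorem hd_bound {β y : ℂ} (hβ : ‖β‖ ^ 2 ≤ 1 / 2) (hy : ‖y‖ ≤ 1) : ‖hd β y‖ ≤ 8 * ‖β‖ ^ 3 := by
  have hb := b_small hβ
  have hb0 := norm_nonneg β
  have hby : ‖β * y‖ ≤ ‖β‖ := by
    rw [norm_mul]
    exact mul_le_of_le_one_right hb0 hy
  have hlow : 1 / 4 ≤ ‖1 - β * y‖ := by
    have h1 : ‖(1 : ℂ)‖ ≤ ‖1 - β * y‖ + ‖β * y‖ := by
      have := norm_add_le (1 - β * y) (β * y)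
      simpa using this
    rw [norm_one] at h1
    linarith
  have hne : 1 - β * y ≠ 0 := by
    intro h
    rw [h, norm_zero] at hlow
    norm_num at hlow
  have key : hd β y = β ^ 3 * y ^ 2 / (1 - β * y) + (log (1 - β) + β + β ^ 2 / 2) +
      (2 * y - 1) / 2 * (log (1 - β ^ 2) + β ^ 2) := by
    unfold hd
    field_simp
    ring
  rw [key]
  have h1 : ‖β ^ 3 * y ^ 2 / (1 - β * y)‖ ≤ 4 * ‖β‖ ^ 3 := by
    rw [norm_div, norm_mul, norm_pow, norm_pow, div_le_iff₀ (by linarith)]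
    have h2 : ‖y‖ ^ 2 ≤ 1 := pow_le_one₀ (norm_nonneg _) hy
    have h3 : 0 ≤ ‖β‖ ^ 3 := by positivity
    calc ‖β‖ ^ 3 * ‖y‖ ^ 2 ≤ ‖β‖ ^ 3 * 1 := mul_le_mul_of_nonneg_left h2 h3
      _ = 4 * ‖β‖ ^ 3 * (1 / 4) := by ring
      _ ≤ 4 * ‖β‖ ^ 3 * ‖1 - β * y‖ := by gcongr
  have h2 := log_two hβ
  have h3 : ‖(2 * y - 1) / 2 * (log (1 - β ^ 2) + β ^ 2)‖ ≤ 2 * ‖β‖ ^ 3 := by
    rw [norm_mul]
    have h4 : ‖(2 * y - 1) / 2‖ ≤ 2 := by
      rw [norm_div]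
      have h5 : ‖2 * y - 1‖ ≤ 3 := by
        refine (norm_sub_le _ _).trans ?_
        rw [norm_mul, norm_one]
        norm_num
        linarith
      norm_num
      linarith
    exact mul_le_mul h4 (log_sq hβ) (norm_nonneg _) (by norm_num)
  refine (norm_add_le _ _).trans ?_
  have := norm_add_le (β ^ 3 * y ^ 2 / (1 - β * y)) (log (1 - β) + β + β ^ 2 / 2)
  linarith

/-- the local term is small and vanishes at `1` -/
theorem hh_bound {β y : ℂ} (hβ : ‖β‖ ^ 2 ≤ 1 / 2) (hy : ‖y‖ ≤ 1) :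
    ‖hh β y‖ ≤ 8 * ‖β‖ ^ 3 * ‖y - 1‖ := by
  have hb := b_small hβ
  have h1 : ∀ z ∈ Metric.closedBall (0 : ℂ) 1, HasDerivWithinAt (hh β) (hd β z)
      (Metric.closedBall (0 : ℂ) 1) z := by
    intro z hz
    rw [mem_closedBall_zero_iff] at hz
    refine (hh_deriv ?_).hasDerivWithinAt
    rw [norm_mul]
    have := mul_le_of_le_one_right (norm_nonneg β) hz
    linarith
  have h2 := (convex_closedBall (0 : ℂ) 1).norm_image_sub_le_of_norm_hasDerivWithin_le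
    (f := hh β) (f' := hd β) (C := 8 * ‖β‖ ^ 3) h1 (fun z hz => hd_bound hβ (by
      rwa [mem_closedBall_zero_iff] at hz)) (x := 1) (y := y) (by simp) (by simpa using hy)
  rwa [hh_one, sub_zero] at h2

theorem hh_bound2 {β y : ℂ} (hβ : ‖β‖ ^ 2 ≤ 1 / 2) (hy : ‖y‖ ≤ 1) :
    ‖hh β y‖ ≤ 16 * ‖β‖ ^ 3 := by
  have h1 : ‖y - 1‖ ≤ 2 := by
    refine (norm_sub_le _ _).trans ?_
    rw [norm_one]; linarith
  have h2 : 0 ≤ 8 * ‖β‖ ^ 3 := by positivity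
  have := hh_bound hβ hy
  nlinarith

/-- `|log (1 - β)| ≤ 4 |β|` -/
theorem log_one {β : ℂ} (hβ : ‖β‖ ^ 2 ≤ 1 / 2) : ‖log (1 - β)‖ ≤ 4 * ‖β‖ := by
  have hb := b_small hβ
  have h1 := Complex.norm_log_one_add_le (z := -β) (by rw [norm_neg]; linarith)
  rw [norm_neg, ← sub_eq_add_neg] at h1
  refine h1.trans ?_
  have h4 : (1 - ‖β‖)⁻¹ ≤ 4 := by
    rw [inv_le_comm₀ (by linarith) (by norm_num)]
    linarith
  have h5 := norm_nonneg β
  calc ‖β‖ ^ 2 * (1 - ‖β‖)⁻¹ / 2 + ‖β‖ ≤ ‖β‖ ^ 2 * 4 / 2 + ‖β‖ := by gcongr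
    _ ≤ 4 * ‖β‖ := by nlinarith

/-- reality of the sums of logarithms -/
theorem log_real {N : ℕ} {β : Fin N → ℂ} (hr : ∀ k, (∑ j, β j ^ k).im = 0) {y : ℂ}
    (hy : y.im = 0) (h : ∀ j, ‖β j * y‖ < 1) : (∑ j, log (1 - β j * y)).im = 0 := by
  have h1 : ∀ j, HasSum (fun k : ℕ => (β j * y) ^ k / k) (-log (1 - β j * y)) := fun j =>
    Complex.hasSum_taylorSeries_neg_log (h j)
  have h2 : HasSum (fun k : ℕ => ∑ j, (β j * y) ^ k / k) (∑ j, -log (1 - β j * y)) :=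
    hasSum_sum fun j _ => h1 j
  have h3 := Complex.hasSum_im h2
  have h4 : ∀ k : ℕ, (∑ j, (β j * y) ^ k / (k : ℂ)).im = 0 := by
    intro k
    have e1 : ∑ j, (β j * y) ^ k / (k : ℂ) = (∑ j, β j ^ k) * (y ^ k / k) := by
      rw [Finset.sum_mul]
      exact Finset.sum_congr rfl fun j _ => by rw [mul_pow]; ring
    have e2 : (y ^ k / (k : ℂ)).im = 0 := by
      have e3 : y = ((y.re : ℝ) : ℂ) := by
        apply Complex.ext
        · simp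
        · simp [hy]
      rw [e3, ← Complex.ofReal_natCast, ← Complex.ofReal_pow, ← Complex.ofReal_div,
        Complex.ofReal_im]
    rw [e1, Complex.mul_im, e2, hr k]
    ring
  simp only [h4] at h3
  have h5 := h3.unique hasSum_zero
  rw [Finset.sum_neg_distrib, Complex.neg_im] at h5
  linarith

end Pool.Agent.E8helper25.LT
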