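import Pool.Agent.E8helper25.LT.Crit
import Pool.Agent.E8helper25.LT.Coef
import Pool.Agent.E8helper25.LT.ML
import Pool.Agent.TH958.An.Zeta

/-! Euler products over the rational primes outside a finite set. -/

set_option autoImplicit false

namespace Pool.Agent.E8helper25.LT

open Complex MeasureTheory Filter Topology Set Asymptotics
open Pool.Agent.W189.ML Pool.Agent.W189.LC Pool.Agent.W187.S2
open Pool.Agent.W187.UR (Lam)

variable {N : ℕ}

/-- the Euler product over the primes outside `S` -/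
noncomputable def LFn (S : Finset Nat.Primes) (α : Nat.Primes → Fin N → ℂ) (s : ℂ) : ℂ :=
  open Classical in
  ∏' p : Nat.Primes, if p ∈ S then 1 else ∏ j, (1 - α p j * ((p : ℕ) : ℂ) ^ (-s))⁻¹

/-- the norms -/
noncomputable def qp (p : Nat.Primes) : ℝ := ((p : ℕ) : ℝ)

/-- the normalised parameters of the first factor -/
noncomputable def bA (S : Finset Nat.Primes) (α : Nat.Primes → Fin N → ℂ) (p : Nat.Primes)
    (j : Fin N) : ℂ :=
  open Classical in if p ∈ S then 0 else α p j / ((p : ℕ) : ℂ)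

/-- the normalised parameter of the zeta function -/
noncomputable def bZ (S : Finset Nat.Primes) (p : Nat.Primes) : ℂ :=
  open Classical in if p ∈ S then 0 else 1 / ((p : ℕ) : ℂ)

/-- the parameters of `L ζ^ρ` -/
noncomputable def bt (S : Finset Nat.Primes) (α : Nat.Primes → Fin N → ℂ) (ρ : ℕ)
    (p : Nat.Primes) : Fin (N + ρ) → ℂ :=
  Fin.append (bA S α p) (fun _ => bZ S p)

/-- the parameters have absolute value at most `√p` and real power sums -/
def Par (S : Finset Nat.Primes) (α : Nat.Primes → Fin N → ℂ) : Prop :=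
  ∀ p ∉ S, (∀ j, ‖α p j‖ ≤ √((p : ℕ) : ℝ)) ∧ ∀ k : ℕ, (∑ j, α p j ^ k).im = 0

variable {S : Finset Nat.Primes} {α : Nat.Primes → Fin N → ℂ} {ρ : ℕ}

theorem qp_two (p : Nat.Primes) : 2 ≤ qp p := by
  unfold qp
  exact_mod_cast p.2.two_le

theorem bZ_norm (p : Nat.Primes) : ‖bZ S p‖ ≤ qp p ^ (-(1 / 2) : ℝ) := by
  have h2 := qp_two p
  unfold bZ
  split_ifs
  · rw [norm_zero]; exact Real.rpow_nonneg (by linarith) _
  · rw [norm_div, norm_one, Complex.norm_natCast]
    have h1 : 1 / ((p : ℕ) : ℝ) = qp p ^ (-1 : ℝ) := by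
      rw [Real.rpow_neg_one, one_div]
      rfl
    rw [h1]
    exact Real.rpow_le_rpow_of_exponent_le (by linarith) (by norm_num)

theorem bA_norm (h : Par S α) (p : Nat.Primes) (j : Fin N) :
    ‖bA S α p j‖ ≤ qp p ^ (-(1 / 2) : ℝ) := by
  have h2 := qp_two p
  have hq0 : 0 < qp p := by linarith
  unfold bA
  split_ifs with hp
  · rw [norm_zero]; exact Real.rpow_nonneg (by linarith) _
  · rw [norm_div, Complex.norm_natCast, div_le_iff₀ (by exact_mod_cast p.2.pos)]
    refine ((h p hp).1 j).trans (le_of_eq ?_)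
    rw [Real.sqrt_eq_rpow]
    have h3 : (((p : ℕ) : ℝ)) = qp p := rfl
    rw [h3]
    nth_rewrite 3 [← Real.rpow_one (qp p)]
    rw [← Real.rpow_add hq0]
    norm_num

theorem bZ_real (p : Nat.Primes) (k : ℕ) : (bZ S p ^ k).im = 0 := by
  unfold bZ
  split_ifs
  · have : (0 : ℂ) ^ k = (((0 : ℝ) ^ k : ℝ) : ℂ) := by push_cast; rfl
    rw [this, Complex.ofReal_im]
  · have : ((1 : ℂ) / ((p : ℕ) : ℂ)) ^ k = (((1 / ((p : ℕ) : ℝ)) ^ k : ℝ) : ℂ) := by push_cast; rfl
    rw [this, Complex.ofReal_im]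

theorem bA_real (h : Par S α) (p : Nat.Primes) (k : ℕ) : (∑ j, bA S α p j ^ k).im = 0 := by
  unfold bA
  by_cases hp : p ∈ S
  · simp only [if_pos hp]
    have : ∑ _j : Fin N, (0 : ℂ) ^ k = ((∑ _j : Fin N, (0 : ℝ) ^ k : ℝ) : ℂ) := by push_cast; rfl
    rw [this, Complex.ofReal_im]
  · simp only [if_neg hp]
    have h1 : ∑ j, (α p j / ((p : ℕ) : ℂ)) ^ k = ((((p : ℕ) : ℝ) ^ k)⁻¹ : ℝ) * ∑ j, α p j ^ k := by
      rw [Finset.mul_sum]
      refine Finset.sum_congr rfl fun j _ => ?_
      push_cast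
      rw [div_pow]
      ring
    rw [h1, Complex.im_ofReal_mul, (h p hp).2 k, mul_zero]

theorem lpQ (h : Par S α) (ρ : ℕ) : LP qp (bt S α ρ) where
  two_le := qp_two
  sum := fun s hs => (Nat.Primes.summable_rpow (r := -s)).2 (by linarith)
  size := fun p j => by
    unfold bt
    refine Fin.addCases (fun i => ?_) (fun i => ?_) j
    · rw [Fin.append_left]; exact bA_norm h p i
    · rw [Fin.append_right]; exact bZ_norm p
  real := fun p k => by
    unfold bt
    rw [Fin.sum_univ_add]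
    simp only [Fin.append_left, Fin.append_right]
    rw [Complex.add_im, bA_real h p k, Complex.im_sum, zero_add]
    exact Finset.sum_eq_zero fun j _ => bZ_real p k

theorem qp_y (p : Nat.Primes) (w : ℂ) :
    ((p : ℕ) : ℂ) ^ (-(1 + w)) = (1 / ((p : ℕ) : ℂ)) * yv qp p w := by
  have hp0 : ((p : ℕ) : ℂ) ≠ 0 := by exact_mod_cast p.2.ne_zero
  rw [neg_add, Complex.cpow_add _ _ hp0, Complex.cpow_neg_one, one_div,
    Complex.cpow_def_of_ne_zero hp0 (-w)]
  unfold yv qp
  rw [Complex.ofReal_log (Nat.cast_nonneg _), Complex.ofReal_natCast]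
  congr 2
  ring

/-- the sum of the logarithms of the first factor -/
noncomputable def gA (S : Finset Nat.Primes) (α : Nat.Primes → Fin N → ℂ) (w : ℂ) : ℂ :=
  ∑' p : Nat.Primes, -∑ j, log (1 - bA S α p j * yv qp p w)

/-- the sum of the logarithms of the zeta function -/
noncomputable def gZ (S : Finset Nat.Primes) (w : ℂ) : ℂ :=
  ∑' p : Nat.Primes, -log (1 - bZ S p * yv qp p w)

/-- the Euler product of the zeta function without the factors in `S` -/
noncomputable def zS (S : Finset Nat.Primes) (s : ℂ) : ℂ :=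
  riemannZeta s * ∏ p ∈ S, (1 - ((p : ℕ) : ℂ) ^ (-s))

theorem parZ (S : Finset Nat.Primes) : Par S (fun _ (_ : Fin 1) => (1 : ℂ)) := by
  intro p _
  refine ⟨fun j => ?_, fun k => by simp⟩
  rw [norm_one, Real.one_le_sqrt]
  exact_mod_cast p.2.one_lt.le

theorem gA_summ (h : Par S α) {w : ℂ} (hw : 1 < w.re) :
    Summable fun p : Nat.Primes => -∑ j, log (1 - bA S α p j * yv qp p w) := by
  have h1 := (lpQ h 0).log_summ hw
  refine h1.congr fun p => ?_
  unfold bt
  rw [Fin.sum_univ_add]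
  simp only [Fin.append_left, Finset.univ_eq_empty, Finset.sum_empty, add_zero]

theorem gZ_summ (S : Finset Nat.Primes) {w : ℂ} (hw : 1 < w.re) :
    Summable fun p : Nat.Primes => -log (1 - bZ S p * yv qp p w) := by
  have h1 := gA_summ (parZ S) hw
  refine h1.congr fun p => ?_
  simp only [Finset.univ_unique, Finset.sum_singleton]
  rfl

theorem gg_eq (h : Par S α) {w : ℂ} (hw : 1 < w.re) :
    gg qp (bt S α ρ) w = gA S α w + ρ * gZ S w := by
  unfold gg gA gZ
  rw [← tsum_mul_left, ← (gA_summ h hw).tsum_add ((gZ_summ S hw).mul_left _)]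
  refine tsum_congr fun p => ?_
  unfold bt
  rw [Fin.sum_univ_add]
  simp only [Fin.append_left, Fin.append_right, Finset.sum_const, Finset.card_univ,
    Fintype.card_fin, nsmul_eq_mul]
  ring

theorem one_sub_ne (h : Par S α) (p : Nat.Primes) (j : Fin N) {w : ℂ} (hw : 1 < w.re) :
    1 - bA S α p j * yv qp p w ≠ 0 := by
  have D := lpQ h 0
  have h1 := D.norm_by_lt p (Fin.castAdd 0 j) (D.norm_yv_le p (w := w) (by linarith))
  have h2 : bt S α 0 p (Fin.castAdd 0 j) = bA S α p j := by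
    unfold bt
    rw [Fin.append_left]
  rw [h2] at h1
  intro h0
  have h3 : bA S α p j * yv qp p w = 1 := (sub_eq_zero.1 h0).symm
  rw [h3, norm_one] at h1
  exact lt_irrefl _ h1

theorem exp_gA (h : Par S α) {w : ℂ} (hw : 1 < w.re) :
    HasProd (fun p : Nat.Primes => open Classical in
      if p ∈ S then 1 else ∏ j, (1 - α p j * ((p : ℕ) : ℂ) ^ (-(1 + w)))⁻¹) (exp (gA S α w)) := by
  have h1 := (gA_summ h hw).hasSum.cexp
  have h2 : (fun p : Nat.Primes => open Classical in
      if p ∈ S then 1 else ∏ j, (1 - α p j * ((p : ℕ) : ℂ) ^ (-(1 + w)))⁻¹) =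
      (exp ∘ fun p : Nat.Primes => -∑ j, log (1 - bA S α p j * yv qp p w)) := by
    funext p
    rw [Function.comp_apply, Complex.exp_neg, Complex.exp_sum, ← Finset.prod_inv_distrib]
    have h3 : ∀ j, exp (log (1 - bA S α p j * yv qp p w)) = 1 - bA S α p j * yv qp p w := fun j =>
      Complex.exp_log (one_sub_ne h p j hw)
    simp only [h3]
    by_cases hp : p ∈ S
    · rw [if_pos hp]
      refine (Finset.prod_eq_one fun j _ => ?_).symm
      unfold bA
      rw [if_pos hp, zero_mul, sub_zero, inv_one]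
    · rw [if_neg hp]
      refine Finset.prod_congr rfl fun j _ => ?_
      unfold bA
      rw [if_neg hp, qp_y]
      congr 2
      ring
  rw [h2]
  exact h1

theorem LFn_eq (h : Par S α) {w : ℂ} (hw : 1 < w.re) : LFn S α (1 + w) = exp (gA S α w) :=
  (exp_gA h hw).tprod_eq

theorem zS_eq (S : Finset Nat.Primes) {w : ℂ} (hw : 1 < w.re) : zS S (1 + w) = exp (gZ S w) := by
  classical
  have h1 := exp_gA (parZ S) hw
  have h2 : gA S (fun _ (_ : Fin 1) => (1 : ℂ)) w = gZ S w := by
    unfold gA gZ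
    refine tsum_congr fun p => ?_
    simp only [Finset.univ_unique, Finset.sum_singleton]
    rfl
  rw [h2] at h1
  have h3 := riemannZeta_eulerProduct_hasProd (s := 1 + w) (by
    rw [Complex.add_re, Complex.one_re]; linarith)
  have h4 : HasProd (fun p : Nat.Primes => if p ∈ S then 1 - ((p : ℕ) : ℂ) ^ (-(1 + w)) else 1)
      (∏ p ∈ S, (1 - ((p : ℕ) : ℂ) ^ (-(1 + w)))) := by
    have h5 := hasProd_prod_of_ne_finset_one (L := SummationFilter.unconditional _) (s := S)
      (f := fun p : Nat.Primes => if p ∈ S then 1 - ((p : ℕ) : ℂ) ^ (-(1 + w)) else 1)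
      (fun p hp => if_neg hp)
    rwa [Finset.prod_congr rfl (fun p hp => if_pos hp)] at h5
  have h5 := h3.mul h4
  refine HasProd.unique h5 ?_
  convert h1 using 1
  funext p
  by_cases hp : p ∈ S
  · rw [if_pos hp, if_pos hp]
    refine inv_mul_cancel₀ ?_
    have h6 := one_sub_ne (S := ∅) (parZ ∅) p 0 hw
    unfold bA at h6
    rw [if_neg (by simp)] at h6
    rw [qp_y]
    simpa using h6
  · rw [if_neg hp, if_neg hp, mul_one]
    simp

end Pool.Agent.E8helper25.LT
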