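import Pool.Agent.E8helper25.LT.Q

/-! The criterion for Euler products over the rational primes. -/

set_option autoImplicit false

namespace Pool.Agent.E8helper25.LT

open Complex MeasureTheory Filter Topology Set Asymptotics
open Pool.Agent.W189.ML Pool.Agent.W189.LC Pool.Agent.W187.S2
open Pool.Agent.W187.UR (Lam)

variable {N : ℕ} {S : Finset Nat.Primes} {α : Nat.Primes → Fin N → ℂ} {ρ : ℕ} {F : ℂ → ℂ}

/-- `∏_{p ∈ S} (1 - 1/p)` -/
noncomputable def PS (S : Finset Nat.Primes) : ℂ := ∏ p ∈ S, (1 - 1 / ((p : ℕ) : ℂ))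

theorem PS_ne (S : Finset Nat.Primes) : PS S ≠ 0 := by
  unfold PS
  refine Finset.prod_ne_zero_iff.2 fun p _ => ?_
  intro h
  have h1 : (1 : ℂ) = 1 / ((p : ℕ) : ℂ) := sub_eq_zero.1 h
  have hp0 : ((p : ℕ) : ℂ) ≠ 0 := by exact_mod_cast p.2.ne_zero
  rw [eq_div_iff hp0, one_mul] at h1
  exact p.2.one_lt.ne' (by exact_mod_cast h1)

theorem eS_analytic (S : Finset Nat.Primes) (s : ℂ) :
    AnalyticAt ℂ (fun s : ℂ => ∏ p ∈ S, (1 - ((p : ℕ) : ℂ) ^ (-s))) s := by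
  have h : Differentiable ℂ (fun s : ℂ => ∏ p ∈ S, (1 - ((p : ℕ) : ℂ) ^ (-s))) := by
    refine Differentiable.fun_finsetProd fun p _ => ?_
    have hp0 : ((p : ℕ) : ℂ) ≠ 0 := by exact_mod_cast p.2.ne_zero
    intro z
    exact ((differentiableAt_id.neg).const_cpow (Or.inl hp0)).const_sub 1
  exact h.analyticAt s

theorem zS_mero (S : Finset Nat.Primes) (s : ℂ) : MeromorphicAt (zS S) s :=
  (Pool.Agent.TH958.An.zeta_mero s).mul (eS_analytic S s).meromorphicAt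

theorem zS_lim (S : Finset Nat.Primes) :
    Tendsto (fun s => (s - 1) * zS S s) (𝓝[≠] 1) (𝓝 (PS S)) := by
  have h1 := riemannZeta_residue_one
  have h2 : Tendsto (fun s : ℂ => ∏ p ∈ S, (1 - ((p : ℕ) : ℂ) ^ (-s))) (𝓝[≠] 1) (𝓝 (PS S)) := by
    have h3 := (eS_analytic S 1).continuousAt.tendsto
    have h4 : ∏ p ∈ S, (1 - ((p : ℕ) : ℂ) ^ (-(1 : ℂ))) = PS S := by
      unfold PS
      refine Finset.prod_congr rfl fun p _ => ?_
      rw [Complex.cpow_neg_one, one_div]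
    rw [h4] at h3
    exact h3.mono_left nhdsWithin_le_nhds
  have h5 := h1.mul h2
  rw [one_mul] at h5
  refine h5.congr fun s => ?_
  unfold zS
  ring

/-- analyticity to the right -/
theorem LP.analytic_right {ι : Type} {q : ι → ℝ} {β : ι → Fin N → ℂ} {Φ : ℂ → ℂ} (D : LP q β)
    (hΦ : ∀ w : ℂ, 1 < w.re → Φ w = exp (gg q β w)) {w : ℂ} (hw : 1 < w.re) : AnalyticAt ℂ Φ w := by
  have hopen : IsOpen {z : ℂ | 1 < z.re} := isOpen_lt continuous_const Complex.continuous_re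
  have h1 : Φ =ᶠ[𝓝 w] fun z => exp (GG q β z - ser (la q) (ce β) z) := by
    filter_upwards [hopen.mem_nhds hw] with z hz
    rw [hΦ z hz, D.main_eq hz]
  exact (D.g_analytic hw).cexp.congr h1.symm

theorem mero_shift {F : ℂ → ℂ} {x : ℝ} (h : MeromorphicAt F ((1 + x : ℝ) : ℂ)) :
    MeromorphicAt (fun w => F (1 + w)) (x : ℂ) := by
  have h1 : AnalyticAt ℂ (fun w : ℂ => 1 + w) (x : ℂ) := by fun_prop
  have h2 : MeromorphicAt F ((fun w : ℂ => 1 + w) (x : ℂ)) := by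
    have : ((1 + x : ℝ) : ℂ) = (fun w : ℂ => 1 + w) (x : ℂ) := by push_cast; rfl
    rwa [← this]
  exact h2.comp_analyticAt h1

theorem hexp (h : Par S α) (hFL : ∀ s : ℂ, 3 / 2 < s.re → F s = LFn S α s) (ρ : ℕ) {w : ℂ}
    (hw : 1 < w.re) : F (1 + w) * zS S (1 + w) ^ ρ = exp (gg qp (bt S α ρ) w) := by
  rw [hFL _ (by rw [Complex.add_re, Complex.one_re]; linarith), gg_eq h hw, Complex.exp_add,
    LFn_eq h hw, zS_eq S hw, ← Complex.exp_nat_mul]

theorem hmer (h : Par S α) (hF : ∀ x ∈ Icc (1 : ℝ) 2, MeromorphicAt F (x : ℂ))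
    (hFL : ∀ s : ℂ, 3 / 2 < s.re → F s = LFn S α s) (ρ : ℕ) {x : ℝ} (hx : x ∈ Icc (0 : ℝ) 2) :
    MeromorphicAt (fun w => F (1 + w) * zS S (1 + w) ^ ρ) (x : ℂ) := by
  by_cases h1 : x ≤ 1
  · have h2 : MeromorphicAt (fun w => F (1 + w)) (x : ℂ) :=
      mero_shift (hF (1 + x) ⟨by linarith [hx.1], by linarith⟩)
    have h3 : MeromorphicAt (fun w => zS S (1 + w)) (x : ℂ) := mero_shift (zS_mero S _)
    exact h2.mul (h3.pow ρ)
  · push Not at h1
    exact ((lpQ h ρ).analytic_right (fun w hw => hexp h hFL ρ hw) (w := x) (by simpa using h1)).meromorphicAt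

/-- **the criterion over the rational primes** -/
theorem q_crit (h : Par S α) (hF : ∀ x ∈ Icc (1 : ℝ) 2, MeromorphicAt F (x : ℂ))
    (hFL : ∀ s : ℂ, 3 / 2 < s.re → F s = LFn S α s) (ρ : ℕ) {B : ℂ} (hB : B ≠ 0) :
    List.TFAE [
      Tendsto (fun s => F s / (s - 1) ^ ρ) (𝓝[≠] 1) (𝓝 B),
      ∃ c : ℝ, Real.pi / 2 < c ∧ ∃ T : ℕ → ℝ, Tendsto T atTop atTop ∧
        Tendsto (fun n => exp (WW qp (bt S α 0) c (T n)) / (T n : ℂ) ^ ρ) atTop
          (𝓝 (exp (-(ρ * Lam c)) / B)),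
      ∀ c : ℝ, Real.pi / 2 < c →
        (fun T : ℝ => exp (WW qp (bt S α 0) c T) / (T : ℂ) ^ ρ - exp (-(ρ * Lam c)) / B) =O[atTop]
          (fun T : ℝ => 1 / T),
      ∃ c : ℝ, Real.pi / 2 < c ∧ ∃ T : ℕ → ℝ, Tendsto T atTop atTop ∧
        Tendsto (fun n => exp (WW qp (bt S α ρ) c (T n))) atTop (𝓝 (1 / (B * PS S ^ ρ))),
      ∀ c : ℝ, Real.pi / 2 < c →
        (fun T : ℝ => exp (WW qp (bt S α ρ) c T) - 1 / (B * PS S ^ ρ)) =O[atTop]
          (fun T : ℝ => 1 / T)] := by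
  have hF1 : MeromorphicAt F 1 := by
    have := hF 1 ⟨le_rfl, by norm_num⟩
    rwa [Complex.ofReal_one] at this
  -- the products of `A`
  have c0 := (lpQ h 0).crit (Φ := fun w => F (1 + w) * zS S (1 + w) ^ 0)
    (fun x hx => hmer h hF hFL 0 hx) (fun w hw => hexp h hFL 0 hw) (ρ : ℤ) hB
  simp only [pow_zero, mul_one, order_shift0, coeff_shift0] at c0
  have l0 := lead_iff hF1 (ρ : ℤ) hB
  simp only [zpow_natCast, Int.cast_natCast] at l0 c0
  -- the products of `G`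
  have hB' : B * PS S ^ ρ ≠ 0 := mul_ne_zero hB (pow_ne_zero _ (PS_ne S))
  have c1 := (lpQ h ρ).crit (Φ := fun w => F (1 + w) * zS S (1 + w) ^ ρ)
    (fun x hx => hmer h hF hFL ρ hx) (fun w hw => hexp h hFL ρ hw) 0 hB'
  have e1 := order_shift0 (fun s => F s * zS S s ^ ρ)
  have e2 := coeff_shift0 (fun s => F s * zS S s ^ ρ)
  simp only [e1, e2, zpow_zero, div_one, Int.cast_zero, zero_mul, neg_zero, Complex.exp_zero] at c1
  have hG1 : MeromorphicAt (fun s => F s * zS S s ^ ρ) 1 := hF1.mul ((zS_mero S 1).pow ρ)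
  have l1 := lead_iff hG1 0 hB'
  simp only [zpow_zero, div_one] at l1
  have hz := (zS_lim S).pow ρ
  have hlink : Tendsto (fun s => F s / (s - 1) ^ ρ) (𝓝[≠] 1) (𝓝 B) ↔
      Tendsto (fun s => F s * zS S s ^ ρ) (𝓝[≠] 1) (𝓝 (B * PS S ^ ρ)) := by
    constructor
    · intro h1
      refine (h1.mul hz).congr' ?_
      filter_upwards [self_mem_nhdsWithin] with s hs
      have hs0 : s - 1 ≠ 0 := sub_ne_zero.2 hs
      have hs1 : (s - 1) ^ ρ ≠ 0 := pow_ne_zero _ hs0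
      rw [mul_pow]
      field_simp
    · intro h1
      have hP : PS S ^ ρ ≠ 0 := pow_ne_zero _ (PS_ne S)
      have h2 := h1.div hz hP
      rw [mul_div_assoc, div_self hP, mul_one] at h2
      refine h2.congr' ?_
      have h3 : ∀ᶠ s in 𝓝[≠] (1 : ℂ), ((s - 1) * zS S s) ^ ρ ≠ 0 := hz.eventually_ne hP
      filter_upwards [h3] with s hs
      simp only [Pi.div_apply]
      rw [mul_pow] at hs ⊢
      have hs1 := left_ne_zero_of_mul hs
      have hs2 := right_ne_zero_of_mul hs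
      field_simp
  tfae_have 1 ↔ 2 := l0.trans (c0.out 0 1)
  tfae_have 1 ↔ 3 := l0.trans (c0.out 0 2)
  tfae_have 1 ↔ 4 := (hlink.trans l1).trans (c1.out 0 1)
  tfae_have 1 ↔ 5 := (hlink.trans l1).trans (c1.out 0 2)
  tfae_finish

end Pool.Agent.E8helper25.LT
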